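import Mathlib

/-!
A weak maximum principle in finite-dimensional inner product spaces, and Laplacians of some
elementary functions.
-/

open InnerProductSpace Laplacian Topology Metric Module

namespace ThreeBallsHD

variable {E : Type*} [NormedAddCommGroup E] [InnerProductSpace ℝ E] [FiniteDimensional ℝ E]

/-- The Laplacian from the first two derivatives. -/
lemma laplacian_eq_of_hasFDerivAt {f : E → ℝ} {f' : E → E →L[ℝ] ℝ} {f'' : E →L[ℝ] E →L[ℝ] ℝ}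
    {x : E} (h1 : ∀ y, HasFDerivAt f (f' y) y) (h2 : HasFDerivAt f' f'' x)
    {ι : Type*} [Fintype ι] (b : OrthonormalBasis ι ℝ E) :
    (Δ f) x = ∑ i, f'' (b i) (b i) := by
  rw [laplacian_eq_iteratedFDeriv_orthonormalBasis f b]
  have hf : fderiv ℝ f = f' := by
    ext1 y
    exact (h1 y).fderiv
  refine Finset.sum_congr rfl fun i _ => ?_
  rw [iteratedFDeriv_two_apply, hf, h2.fderiv]
  rfl

omit [FiniteDimensional ℝ E] in
lemma line_second {f : E → ℝ} {x v : E} (hf : ContDiffAt ℝ 2 f x) :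
    deriv (deriv (fun s : ℝ => f (x + s • v))) 0 = iteratedFDeriv ℝ 2 f x ![v, v] := by
  have hline : ∀ t : ℝ, HasDerivAt (fun s : ℝ => x + s • v) v t := by
    intro t
    have := ((hasDerivAt_id t).smul_const v).const_add x
    simpa using this
  have hx : x + (0 : ℝ) • v = x := by simp
  have h1 : ∀ᶠ y in 𝓝 (x + (0 : ℝ) • v), DifferentiableAt ℝ f y := by
    rw [hx]
    exact (hf.eventually (by simp)).mono fun y hy => hy.differentiableAt (by norm_num)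
  have h2 : ∀ᶠ t in 𝓝 (0 : ℝ), DifferentiableAt ℝ f (x + t • v) :=
    (hline 0).continuousAt.eventually h1
  have h3 : deriv (fun s : ℝ => f (x + s • v)) =ᶠ[𝓝 0] fun t => fderiv ℝ f (x + t • v) v := by
    filter_upwards [h2] with t ht
    exact (ht.hasFDerivAt.comp_hasDerivAt t (hline t)).deriv
  rw [h3.deriv_eq, iteratedFDeriv_two_apply]
  have h4 : DifferentiableAt ℝ (fderiv ℝ f) x :=
    (hf.fderiv_right (m := 1) (by norm_num)).differentiableAt (by norm_num)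
  have h5 : HasFDerivAt (fderiv ℝ f) (fderiv ℝ (fderiv ℝ f) x) (x + (0 : ℝ) • v) := by
    rw [hx]; exact h4.hasFDerivAt
  have h6 := (h5.comp_hasDerivAt (0 : ℝ) (hline 0)).clm_apply (hasDerivAt_const (0 : ℝ) v)
  simpa using h6.deriv

omit [FiniteDimensional ℝ E] in
lemma second_nonpos {f : E → ℝ} {x v : E} (hf : ContDiffAt ℝ 2 f x) (hmax : IsLocalMax f x) :
    iteratedFDeriv ℝ 2 f x ![v, v] ≤ 0 := by
  by_contra hcon
  rw [not_le] at hcon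
  rw [← line_second hf] at hcon
  have hline : ContinuousAt (fun s : ℝ => x + s • v) 0 := by fun_prop
  have hx : x + (0 : ℝ) • v = x := by simp
  have hmax' : IsLocalMax (fun s : ℝ => f (x + s • v)) 0 := by
    have h1 : ∀ᶠ y in 𝓝 (x + (0 : ℝ) • v), f y ≤ f x := by rw [hx]; exact hmax
    have h2 := hline.eventually h1
    filter_upwards [h2] with t ht
    simpa using ht
  have hc : ContinuousAt (fun s : ℝ => f (x + s • v)) 0 := by
    have h1 : ContinuousAt f (x + (0 : ℝ) • v) := by rw [hx]; exact hf.continuousAt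
    exact ContinuousAt.comp (f := fun s : ℝ => x + s • v) h1 hline
  have hmin := isLocalMin_of_deriv_deriv_pos hcon hmax'.deriv_eq_zero hc
  have heq : (fun s : ℝ => f (x + s • v)) =ᶠ[𝓝 0] fun _ => f (x + (0 : ℝ) • v) := by
    filter_upwards [hmax', hmin] with t h1 h2
    exact le_antisymm h1 h2
  have h3 : deriv (fun s : ℝ => f (x + s • v)) =ᶠ[𝓝 0] fun _ => 0 := by
    have := heq.deriv
    filter_upwards [this] with t ht
    rw [ht]
    simp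
  rw [h3.deriv_eq] at hcon
  simp at hcon

omit [FiniteDimensional ℝ E] in
lemma contDiff_normSq : ContDiff ℝ 2 (fun x : E => ‖x‖ ^ 2) := contDiff_norm_sq ℝ

/-- The Laplacian of `ψ (‖x‖²)`. -/
lemma laplacian_radial {ψ ψ' ψ'' : ℝ → ℝ} (h1 : ∀ t, HasDerivAt ψ (ψ' t) t)
    (h2 : ∀ t, HasDerivAt ψ' (ψ'' t) t) (x : E) :
    (Δ (fun y : E => ψ (‖y‖ ^ 2))) x
      = 2 * (finrank ℝ E) * ψ' (‖x‖ ^ 2) + 4 * ‖x‖ ^ 2 * ψ'' (‖x‖ ^ 2) := by
  obtain ⟨J, hJ⟩ : ∃ J : E →L[ℝ] E →L[ℝ] ℝ, ∀ y, J y = innerSL ℝ y := ⟨innerSL ℝ, fun _ => rfl⟩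
  have hJi : ∀ y v : E, J y v = ⟪y, v⟫_ℝ := by
    intro y v
    rw [hJ y]
    rfl
  have hn : ∀ y : E, HasFDerivAt (fun y : E => ‖y‖ ^ 2) ((2 : ℝ) • J y) y := by
    intro y
    have h := (hasStrictFDerivAt_norm_sq y).hasFDerivAt
    rwa [two_nsmul, ← two_smul ℝ (innerSL ℝ y), ← hJ y] at h
  have hf1 : ∀ y : E, HasFDerivAt (fun y : E => ψ (‖y‖ ^ 2))
      ((ψ' (‖y‖ ^ 2)) • ((2 : ℝ) • J y)) y := fun y =>
    (h1 (‖y‖ ^ 2)).comp_hasFDerivAt y (hn y)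
  have hf2 : HasFDerivAt (fun y : E => ψ' (‖y‖ ^ 2))
      ((ψ'' (‖x‖ ^ 2)) • ((2 : ℝ) • J x)) x :=
    (h2 (‖x‖ ^ 2)).comp_hasFDerivAt x (hn x)
  have hi : HasFDerivAt (fun y : E => (2 : ℝ) • J y) ((2 : ℝ) • J) x :=
    J.hasFDerivAt.const_smul (2 : ℝ)
  rw [laplacian_eq_of_hasFDerivAt hf1 (hf2.smul hi) (stdOrthonormalBasis ℝ E)]
  have h3 : ∑ i, ⟪x, stdOrthonormalBasis ℝ E i⟫_ℝ ^ 2 = ‖x‖ ^ 2 := by
    have := (stdOrthonormalBasis ℝ E).sum_sq_inner_left x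
    simpa using this
  have h4 : ∀ i, ⟪stdOrthonormalBasis ℝ E i, stdOrthonormalBasis ℝ E i⟫_ℝ = 1 := by
    intro i
    rw [real_inner_self_eq_norm_sq, OrthonormalBasis.norm_eq_one]
    norm_num
  have h5 : ∀ i, ((ψ' (‖x‖ ^ 2)) • ((2 : ℝ) • J) +
      ((ψ'' (‖x‖ ^ 2)) • ((2 : ℝ) • J x)).smulRight ((2 : ℝ) • J x))
        (stdOrthonormalBasis ℝ E i) (stdOrthonormalBasis ℝ E i)
      = 2 * ψ' (‖x‖ ^ 2) + 4 * ψ'' (‖x‖ ^ 2) * ⟪x, stdOrthonormalBasis ℝ E i⟫_ℝ ^ 2 := by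
    intro i
    simp only [add_apply, smul_apply,
      ContinuousLinearMap.smulRight_apply, smul_eq_mul, hJi, h4]
    ring
  rw [Finset.sum_congr rfl fun i _ => h5 i, Finset.sum_add_distrib, ← Finset.mul_sum,
    ← Finset.mul_sum, h3]
  simp
  ring

/-- The Laplacian of a quadratic function. -/
lemma laplacian_quad (ω : E) (c₁ c₂ c₃ : ℝ) (x : E) :
    (Δ (fun y : E => c₁ * ‖y‖ ^ 2 + c₂ * ⟪ω, y⟫_ℝ + c₃ * ⟪ω, y⟫_ℝ ^ 2)) x
      = 2 * (finrank ℝ E) * c₁ + 2 * c₃ * ‖ω‖ ^ 2 := by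
  obtain ⟨J, hJ⟩ : ∃ J : E →L[ℝ] E →L[ℝ] ℝ, ∀ y, J y = innerSL ℝ y := ⟨innerSL ℝ, fun _ => rfl⟩
  have hJi : ∀ y v : E, J y v = ⟪y, v⟫_ℝ := by
    intro y v
    rw [hJ y]
    rfl
  have hn : ∀ y : E, HasFDerivAt (fun y : E => ‖y‖ ^ 2) ((2 : ℝ) • J y) y := by
    intro y
    have h := (hasStrictFDerivAt_norm_sq y).hasFDerivAt
    rwa [two_nsmul, ← two_smul ℝ (innerSL ℝ y), ← hJ y] at h
  have hl : ∀ y : E, HasFDerivAt (fun y : E => ⟪ω, y⟫_ℝ) (J ω) y := by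
    intro y
    have e : (fun y : E => ⟪ω, y⟫_ℝ) = fun y => J ω y := by
      funext z
      rw [hJi]
    rw [e]
    exact (J ω).hasFDerivAt
  have hs : ∀ y : E, HasFDerivAt (fun y : E => ⟪ω, y⟫_ℝ ^ 2) ((2 * ⟪ω, y⟫_ℝ) • J ω) y := by
    intro y
    have h := (hasDerivAt_pow 2 ⟪ω, y⟫_ℝ).comp_hasFDerivAt y (hl y)
    simpa [Function.comp_def] using h
  have hf1 : ∀ y : E, HasFDerivAt
      (fun y : E => c₁ * ‖y‖ ^ 2 + c₂ * ⟪ω, y⟫_ℝ + c₃ * ⟪ω, y⟫_ℝ ^ 2)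
      (c₁ • ((2 : ℝ) • J y) + c₂ • J ω + c₃ • ((2 * ⟪ω, y⟫_ℝ) • J ω)) y := fun y =>
    (((hn y).const_mul c₁).add ((hl y).const_mul c₂)).add ((hs y).const_mul c₃)
  have hg1 : HasFDerivAt (fun y : E => c₁ • ((2 : ℝ) • J y)) (c₁ • ((2 : ℝ) • J)) x :=
    (J.hasFDerivAt.const_smul (2 : ℝ)).const_smul c₁
  have hg2 : HasFDerivAt (fun _ : E => c₂ • J ω) (0 : E →L[ℝ] E →L[ℝ] ℝ) x :=
    hasFDerivAt_const _ _
  have hg3 : HasFDerivAt (fun y : E => c₃ • ((2 * ⟪ω, y⟫_ℝ) • J ω))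
      (c₃ • (((2 : ℝ) • J ω).smulRight (J ω))) x :=
    (((hl x).const_mul (2 : ℝ)).smul_const (J ω)).const_smul c₃
  rw [laplacian_eq_of_hasFDerivAt hf1 ((hg1.add hg2).add hg3) (stdOrthonormalBasis ℝ E)]
  have h3 : ∑ i, ⟪ω, stdOrthonormalBasis ℝ E i⟫_ℝ ^ 2 = ‖ω‖ ^ 2 := by
    have := (stdOrthonormalBasis ℝ E).sum_sq_inner_left ω
    simpa using this
  have h4 : ∀ i, ⟪stdOrthonormalBasis ℝ E i, stdOrthonormalBasis ℝ E i⟫_ℝ = 1 := by
    intro i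
    rw [real_inner_self_eq_norm_sq, OrthonormalBasis.norm_eq_one]
    norm_num
  have h5 : ∀ i, (c₁ • ((2 : ℝ) • J) + (0 : E →L[ℝ] E →L[ℝ] ℝ)
      + c₃ • (((2 : ℝ) • J ω).smulRight (J ω)))
        (stdOrthonormalBasis ℝ E i) (stdOrthonormalBasis ℝ E i)
      = 2 * c₁ + 2 * c₃ * ⟪ω, stdOrthonormalBasis ℝ E i⟫_ℝ ^ 2 := by
    intro i
    simp only [add_apply, smul_apply, zero_apply,
      ContinuousLinearMap.smulRight_apply, smul_eq_mul, hJi, h4]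
    ring
  rw [Finset.sum_congr rfl fun i _ => h5 i, Finset.sum_add_distrib, ← Finset.mul_sum,
    ← Finset.mul_sum, h3]
  simp
  ring

/-- The weak maximum principle. -/
theorem max_principle (hE : 0 < finrank ℝ E) {K : Set E} (hK : IsCompact K) {f : E → ℝ}
    (hf : ContinuousOn f K) (hC : ∀ x ∈ interior K, ContDiffAt ℝ 2 f x)
    (hΔ : ∀ x ∈ interior K, 0 ≤ (Δ f) x) {m : ℝ} (hm : ∀ x ∈ frontier K, f x ≤ m) :
    ∀ x ∈ K, f x ≤ m := by
  intro x₀ hx₀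
  by_contra hcon
  rw [not_le] at hcon
  obtain ⟨R, hR⟩ := hK.isBounded.exists_norm_le
  have hR0 : 0 ≤ R := (norm_nonneg x₀).trans (hR x₀ hx₀)
  set δ := (f x₀ - m) / (2 * (R ^ 2 + 1)) with hδ
  have hδ0 : 0 < δ := div_pos (by linarith) (by positivity)
  have hδR : δ * R ^ 2 < f x₀ - m := by
    rw [hδ, div_mul_eq_mul_div, div_lt_iff₀ (by positivity)]
    nlinarith [sq_nonneg R]
  have hgc : ContinuousOn (f + δ • fun x : E => ‖x‖ ^ 2) K := by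
    apply hf.add
    apply Continuous.continuousOn
    exact (contDiff_normSq (E := E)).continuous.const_smul δ
  obtain ⟨x₁, hx₁, hmax⟩ := hK.exists_isMaxOn ⟨x₀, hx₀⟩ hgc
  have hge : m + δ * R ^ 2 < (f + δ • fun x : E => ‖x‖ ^ 2) x₁ := by
    have h1 := hmax hx₀
    simp only [Pi.add_apply, Pi.smul_apply, smul_eq_mul, Set.mem_ofPred_eq] at h1 ⊢
    have : 0 ≤ δ * ‖x₀‖ ^ 2 := by positivity
    linarith
  have hint : x₁ ∈ interior K := by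
    by_contra hn
    have hfr : x₁ ∈ frontier K := ⟨subset_closure hx₁, hn⟩
    have h1 := hm x₁ hfr
    have h2 : ‖x₁‖ ^ 2 ≤ R ^ 2 := pow_le_pow_left₀ (norm_nonneg _) (hR x₁ hx₁) 2
    simp only [Pi.add_apply, Pi.smul_apply, smul_eq_mul] at hge
    nlinarith
  have hloc : IsLocalMax (f + δ • fun x : E => ‖x‖ ^ 2) x₁ :=
    hmax.isLocalMax (mem_interior_iff_mem_nhds.1 hint)
  have hcn : ContDiffAt ℝ 2 (fun x : E => ‖x‖ ^ 2) x₁ := contDiff_normSq.contDiffAt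
  have hcn' : ContDiffAt ℝ 2 (δ • fun x : E => ‖x‖ ^ 2) x₁ := hcn.const_smul δ
  have hcd : ContDiffAt ℝ 2 (f + δ • fun x : E => ‖x‖ ^ 2) x₁ :=
    (hC x₁ hint).add hcn'
  have hneg : (Δ (f + δ • fun x : E => ‖x‖ ^ 2)) x₁ ≤ 0 := by
    rw [laplacian_eq_iteratedFDeriv_stdOrthonormalBasis]
    exact Finset.sum_nonpos fun i _ => second_nonpos hcd hloc
  have hlap : (Δ (f + δ • fun x : E => ‖x‖ ^ 2)) x₁ = (Δ f) x₁ + δ * (2 * finrank ℝ E) := by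
    rw [ContDiffAt.laplacian_add (hC x₁ hint) hcn', laplacian_smul δ hcn]
    have := laplacian_radial (ψ := fun t => t) (ψ' := fun _ => 1) (ψ'' := fun _ => 0)
      (fun t => hasDerivAt_id t) (fun t => hasDerivAt_const t 1) x₁
    rw [this]
    simp
  rw [hlap] at hneg
  have h1 := hΔ x₁ hint
  have h2 : (0 : ℝ) < finrank ℝ E := by exact_mod_cast hE
  have h3 : 0 < δ * (2 * finrank ℝ E) := by positivity
  linarith

end ThreeBallsHD
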