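import Mathlib
import Pool.Agent.Lib.MP_e54599_an.MaxP

/-!
A barrier for harmonic functions bounded by `1` and by `ε` on a smaller ball.
-/

open InnerProductSpace Laplacian Topology Metric Module

namespace ThreeBallsHD

variable {E : Type*} [NormedAddCommGroup E] [InnerProductSpace ℝ E] [FiniteDimensional ℝ E]

omit [FiniteDimensional ℝ E] in
lemma contDiff_expSq (c : ℝ) : ContDiff ℝ 2 (fun x : E => Real.exp (-c * ‖x‖ ^ 2)) :=
  Real.contDiff_exp.comp (contDiff_const.mul contDiff_normSq)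

lemma laplacian_expSq (c : ℝ) (x : E) :
    (Δ (fun y : E => Real.exp (-c * ‖y‖ ^ 2))) x
      = 2 * c * Real.exp (-c * ‖x‖ ^ 2) * (2 * c * ‖x‖ ^ 2 - finrank ℝ E) := by
  have h1 : ∀ t : ℝ, HasDerivAt (fun t => Real.exp (-c * t)) (-c * Real.exp (-c * t)) t := by
    intro t
    have h := ((hasDerivAt_id t).const_mul (-c)).exp
    simpa [mul_comm] using h
  have h2 : ∀ t : ℝ, HasDerivAt (fun t => -c * Real.exp (-c * t))
      (-c * (-c * Real.exp (-c * t))) t := fun t => (h1 t).const_mul (-c)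
  have h3 := laplacian_radial (E := E) h1 h2 x
  rw [h3]
  ring

/-- The barrier estimate. -/
lemma barrier (hE : 0 < finrank ℝ E) {v : E → ℝ} {a b c ε : ℝ} (ha : 0 < a) (hab : a < b)
    (hb : b < 1) (hc : (finrank ℝ E : ℝ) ≤ 2 * c * a ^ 2)
    (hv : ∀ x ∈ ball (0 : E) 1, HarmonicAt v x) (h1 : ∀ x ∈ ball (0 : E) 1, v x ≤ 1)
    (h2 : ∀ x : E, ‖x‖ = a → v x ≤ ε) (hε : ε ≤ 1) {x : E} (hxa : a ≤ ‖x‖) (hxb : ‖x‖ ≤ b) :
    v x ≤ 1 - (1 - ε) * ((Real.exp (-c * ‖x‖ ^ 2) - Real.exp (-c * b ^ 2))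
      / (Real.exp (-c * a ^ 2) - Real.exp (-c * b ^ 2))) := by
  have hb0 : 0 < b := ha.trans hab
  have hn0 : (0 : ℝ) < finrank ℝ E := by exact_mod_cast hE
  have hc0 : 0 < c := by
    by_contra h
    rw [not_lt] at h
    have : 0 < a ^ 2 := by positivity
    nlinarith
  have hD : 0 < Real.exp (-c * a ^ 2) - Real.exp (-c * b ^ 2) := by
    rw [sub_pos]
    apply Real.exp_lt_exp.2
    have : a ^ 2 < b ^ 2 := pow_lt_pow_left₀ hab ha.le two_ne_zero
    nlinarith
  set D := Real.exp (-c * a ^ 2) - Real.exp (-c * b ^ 2) with hDdef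
  set κ := (1 - ε) / D with hκ
  have hκ0 : 0 ≤ κ := div_nonneg (by linarith) hD.le
  have hκD : κ * D = 1 - ε := div_mul_cancel₀ _ hD.ne'
  set φ : E → ℝ := κ • fun x : E => Real.exp (-c * ‖x‖ ^ 2) with hφ
  have hφc : ∀ x, ContDiffAt ℝ 2 φ x := fun x => ((contDiff_expSq c).contDiffAt).const_smul κ
  have hcl : IsClosed {x : E | a ≤ ‖x‖} := isClosed_le continuous_const continuous_norm
  set K : Set E := closedBall 0 b ∩ {x | a ≤ ‖x‖} with hK
  have hKc : IsCompact K := (isCompact_closedBall (0 : E) b).inter_right hcl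
  have hKs : ∀ x ∈ K, x ∈ ball (0 : E) 1 := by
    intro x hx
    have h3 := hx.1
    rw [mem_closedBall_zero_iff] at h3
    rw [mem_ball_zero_iff]
    linarith
  have hmain := max_principle hE hKc (f := v + φ) (m := 1 + κ * Real.exp (-c * b ^ 2))
    (fun x hx => ((hv x (hKs x hx)).1.add (hφc x)).continuousAt.continuousWithinAt)
    (fun x hx => (hv x (hKs x (interior_subset hx))).1.add (hφc x))
    (fun x hx => by
      have h3 := hv x (hKs x (interior_subset hx))
      have h4 : a ≤ ‖x‖ := (interior_subset hx).2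
      rw [ContDiffAt.laplacian_add h3.1 (hφc x), h3.2.self_of_nhds, hφ,
        laplacian_smul κ (contDiff_expSq c).contDiffAt, laplacian_expSq]
      have h5 : a ^ 2 ≤ ‖x‖ ^ 2 := pow_le_pow_left₀ ha.le h4 2
      have h6 : 0 ≤ 2 * c * ‖x‖ ^ 2 - finrank ℝ E := by nlinarith
      have h7 : 0 ≤ 2 * c * Real.exp (-c * ‖x‖ ^ 2) := by positivity
      simp only [Pi.zero_apply, zero_add, smul_eq_mul]
      exact mul_nonneg hκ0 (mul_nonneg h7 h6))
    ?_ x ?_
  · simp only [Pi.add_apply, hφ, Pi.smul_apply, smul_eq_mul] at hmain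
    have h8 : (1 - ε) * ((Real.exp (-c * ‖x‖ ^ 2) - Real.exp (-c * b ^ 2)) / D)
        = κ * Real.exp (-c * ‖x‖ ^ 2) - κ * Real.exp (-c * b ^ 2) := by
      rw [hκ]
      field_simp
    rw [h8]
    linarith
  · intro y hy
    simp only [Pi.add_apply, hφ, Pi.smul_apply, smul_eq_mul]
    rcases frontier_inter_subset _ _ hy with ⟨h3, h4⟩ | ⟨h3, h4⟩
    · rw [frontier_closedBall _ hb0.ne', mem_sphere_zero_iff_norm] at h3
      have h5 : y ∈ ball (0 : E) 1 := by rw [mem_ball_zero_iff, h3]; exact hb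
      have h6 := h1 y h5
      rw [h3]
      linarith
    · have h5 := frontier_le_subset_eq continuous_const continuous_norm h4
      have h6 : ‖y‖ = a := by
        have : a = ‖y‖ := h5
        exact this.symm
      have h7 := h2 y h6
      rw [h6]
      have h8 : κ * Real.exp (-c * a ^ 2) = κ * D + κ * Real.exp (-c * b ^ 2) := by
        rw [hDdef]; ring
      rw [h8, hκD]
      linarith
  · refine ⟨?_, hxa⟩
    rw [mem_closedBall_zero_iff]
    exact hxb

/-- Choice of the radii for the barrier. -/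
lemma exists_radius {ρ b c κ : ℝ} (hρ0 : 0 < ρ) (hρb : ρ < b) (hc : 0 < c) (hκ1 : κ < 1)
    {δ : ℝ} (hδ : 0 < δ) :
    ∃ η : ℝ, 0 < η ∧ η ≤ δ ∧ κ * (Real.exp (-c * (ρ - η) ^ 2) - Real.exp (-c * b ^ 2))
      ≤ Real.exp (-c * (ρ + η) ^ 2) - Real.exp (-c * b ^ 2) := by
  set F : ℝ → ℝ := fun η => Real.exp (-c * (ρ + η) ^ 2) - Real.exp (-c * b ^ 2)
    - κ * (Real.exp (-c * (ρ - η) ^ 2) - Real.exp (-c * b ^ 2)) with hF
  have hFc : Continuous F := by fun_prop
  have hF0 : 0 < F 0 := by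
    have h1 : 0 < Real.exp (-c * ρ ^ 2) - Real.exp (-c * b ^ 2) := by
      rw [sub_pos]
      apply Real.exp_lt_exp.2
      have : ρ ^ 2 < b ^ 2 := pow_lt_pow_left₀ hρb hρ0.le two_ne_zero
      nlinarith
    simp only [hF, add_zero, sub_zero]
    nlinarith
  have h2 : ∀ᶠ η in 𝓝 (0 : ℝ), 0 < F η := hFc.continuousAt.eventually (lt_mem_nhds hF0)
  obtain ⟨s, hs0, hs⟩ := Metric.eventually_nhds_iff.1 h2
  refine ⟨min (s / 2) δ, lt_min (by linarith) hδ, min_le_right _ _, ?_⟩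
  have h3 : 0 < min (s / 2) δ := lt_min (by linarith) hδ
  have h4 : 0 < F (min (s / 2) δ) := by
    apply hs
    rw [dist_zero_right, Real.norm_of_nonneg h3.le]
    exact (min_le_left _ _).trans_lt (by linarith)
  simp only [hF] at h4
  linarith

end ThreeBallsHD
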