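import Mathlib

/-!
Auxiliary facts for the sharp three-circles inequality for harmonic functions in the disc.
-/

namespace ThreeBalls

open Complex Set

/-- `exp (2 s) (1 - s) ≤ 1 + s` for `0 ≤ s < 1`. -/
lemma exp_two_mul_le {s : ℝ} (hs : 0 ≤ s) (hs1 : s < 1) :
    Real.exp (2 * s) * (1 - s) ≤ 1 + s := by
  have h1 := Real.hasSum_log_sub_log_of_abs_lt_one (x := s) (by rw [abs_of_nonneg hs]; exact hs1)
  have h2 : 2 * s ≤ Real.log (1 + s) - Real.log (1 - s) := by
    have h3 := sum_le_hasSum (Finset.range 1) (fun i _ => by positivity) h1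
    simpa using h3
  have h4 : Real.exp (2 * s) ≤ (1 + s) / (1 - s) := by
    rw [← Real.log_div (by linarith) (by linarith)] at h2
    have h5 : 0 < (1 + s) / (1 - s) := div_pos (by linarith) (by linarith)
    calc Real.exp (2 * s) ≤ Real.exp (Real.log ((1 + s) / (1 - s))) := Real.exp_le_exp.mpr h2
      _ = (1 + s) / (1 - s) := Real.exp_log h5
  rwa [le_div_iff₀ (by linarith)] at h4

/-- For `0 ≤ x`: `1 - exp (-x) ≤ (x / 2) (1 + exp (-x))`. -/
lemma one_sub_exp_neg_le {x : ℝ} (hx : 0 ≤ x) :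
    1 - Real.exp (-x) ≤ x / 2 * (1 + Real.exp (-x)) := by
  rcases le_or_gt 2 x with h | h
  · have := Real.exp_pos (-x)
    nlinarith
  · have h1 := exp_two_mul_le (s := x / 2) (by linarith) (by linarith)
    rw [show 2 * (x / 2) = x by ring] at h1
    have h2 : Real.exp (-x) * Real.exp x = 1 := by rw [← Real.exp_add]; simp
    have h3 := mul_le_mul_of_nonneg_left h1 (Real.exp_pos (-x)).le
    rw [← mul_assoc, h2] at h3
    nlinarith

/-- `|1 - e^{-x}| ≤ (|x|/2) (1 + e^{-x})`. -/
lemma abs_one_sub_exp_neg_le (x : ℝ) :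
    |1 - Real.exp (-x)| ≤ |x| / 2 * (1 + Real.exp (-x)) := by
  rcases le_total 0 x with h | h
  · rw [abs_of_nonneg h, abs_of_nonneg]
    · exact one_sub_exp_neg_le h
    · have : Real.exp (-x) ≤ 1 := Real.exp_le_one_iff.mpr (by linarith)
      linarith
  · have h1 := one_sub_exp_neg_le (x := -x) (by linarith)
    rw [neg_neg] at h1
    have h2 : Real.exp (-x) * Real.exp x = 1 := by rw [← Real.exp_add]; simp
    have h3 := mul_le_mul_of_nonneg_left h1 (Real.exp_pos (-x)).le
    rw [abs_of_nonpos h, abs_of_nonpos]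
    · nlinarith
    · have : 1 ≤ Real.exp (-x) := Real.one_le_exp_iff.mpr (by linarith)
      linarith

/-- For `0 < m ≤ 1`: `m ^ (π/2) ≤ tan (π m / 4)`, logarithmic form. -/
lemma log_tan_ge {m : ℝ} (hm : 0 < m) (hm1 : m ≤ 1) :
    Real.pi / 2 * Real.log m ≤
      Real.log (Real.sin (Real.pi * m / 4)) - Real.log (Real.cos (Real.pi * m / 4)) := by
  have hpi := Real.pi_pos
  set ψ : ℝ → ℝ := fun m => Real.log (Real.sin (Real.pi * m / 4)) -
    Real.log (Real.cos (Real.pi * m / 4)) - Real.pi / 2 * Real.log m with hψ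
  have hsin : ∀ x ∈ Icc m 1, 0 < Real.sin (Real.pi * x / 4) := fun x hx =>
    Real.sin_pos_of_pos_of_lt_pi (by have : 0 < x := hm.trans_le hx.1
                                     positivity) (by nlinarith [hx.2])
  have hcos : ∀ x ∈ Icc m 1, 0 < Real.cos (Real.pi * x / 4) := fun x hx =>
    Real.cos_pos_of_mem_Ioo ⟨by nlinarith [hx.1], by nlinarith [hx.2]⟩
  have hx0 : ∀ x ∈ Icc m 1, 0 < x := fun x hx => hm.trans_le hx.1
  have hderiv : ∀ x ∈ Icc m 1, HasDerivAt ψ
      ((Real.pi / 4) * Real.cos (Real.pi * x / 4) / Real.sin (Real.pi * x / 4) +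
        (Real.pi / 4) * Real.sin (Real.pi * x / 4) / Real.cos (Real.pi * x / 4) -
        Real.pi / 2 * (1 / x)) x := by
    intro x hx
    have h0 : HasDerivAt (fun y : ℝ => Real.pi * y / 4) (Real.pi / 4) x := by
      have := ((hasDerivAt_id x).const_mul Real.pi).div_const 4
      simpa using this
    have h1 := (h0.sin).log (hsin x hx).ne'
    have h2 := (h0.cos).log (hcos x hx).ne'
    have h3 := (Real.hasDerivAt_log (hx0 x hx).ne').const_mul (Real.pi / 2)
    have h4 := (h1.sub h2).sub h3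
    refine h4.congr_deriv ?_
    rw [one_div]
    ring
  have hanti : AntitoneOn ψ (Icc m 1) := by
    apply antitoneOn_of_deriv_nonpos (convex_Icc m 1)
    · exact fun x hx => (hderiv x hx).continuousAt.continuousWithinAt
    · exact fun x hx => ((hderiv x (interior_subset hx)).differentiableAt).differentiableWithinAt
    · intro x hx
      have hx' := interior_subset hx
      rw [(hderiv x hx').deriv]
      have hs := hsin x hx'
      have hc := hcos x hx'
      have hxp := hx0 x hx'
      have h1 : x ≤ 2 * Real.sin (Real.pi * x / 4) * Real.cos (Real.pi * x / 4) := by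
        rw [← Real.sin_two_mul]
        have h2 := Real.mul_le_sin (x := 2 * (Real.pi * x / 4)) (by positivity)
          (by nlinarith [hx'.2])
        calc x = 2 / Real.pi * (2 * (Real.pi * x / 4)) := by field_simp; ring
          _ ≤ _ := h2
      have h3 : (Real.pi / 4) * Real.cos (Real.pi * x / 4) / Real.sin (Real.pi * x / 4) +
          (Real.pi / 4) * Real.sin (Real.pi * x / 4) / Real.cos (Real.pi * x / 4) =
          Real.pi / 2 * (1 / (2 * Real.sin (Real.pi * x / 4) * Real.cos (Real.pi * x / 4))) := by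
        field_simp
        have := Real.sin_sq_add_cos_sq (Real.pi * x / 4)
        linear_combination 4 * this
      rw [h3]
      have h4 : 1 / (2 * Real.sin (Real.pi * x / 4) * Real.cos (Real.pi * x / 4)) ≤ 1 / x :=
        one_div_le_one_div_of_le hxp h1
      nlinarith
  have h1 := hanti ⟨le_rfl, hm1⟩ ⟨hm1, le_rfl⟩ hm1
  have h2 : ψ 1 = 0 := by
    simp only [hψ, mul_one, Real.log_one, mul_zero, sub_zero]
    rw [Real.sin_pi_div_four, Real.cos_pi_div_four, sub_self]
  rw [h2] at h1
  simp only [hψ] at h1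
  linarith

/-- Bound for the derivative at the centre of the disc in terms of the real part. -/
lemma deriv_disc_le {h : ℂ → ℂ} {M : ℝ} (hM : 0 < M)
    (hd : DifferentiableOn ℂ h (Metric.ball 0 1)) (hb : ∀ z ∈ Metric.ball (0 : ℂ) 1, |(h z).re| ≤ M) :
    ‖deriv h 0‖ ≤ 4 * M / Real.pi := by
  have hpi := Real.pi_pos
  have key : ∀ N : ℝ, M < N → ‖deriv h 0‖ ≤ 4 * N / Real.pi := by
    intro N hN
    have hN0 : 0 < N := hM.trans hN
    set κ : ℂ := ((Real.pi / (2 * N) : ℝ) : ℂ) * Complex.I with hκ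
    set E : ℂ → ℂ := fun z => Complex.exp (κ * h z) with hE
    have hre : ∀ z ∈ Metric.ball (0 : ℂ) 1, 0 < (E z).re := by
      intro z hz
      simp only [hE]
      rw [Complex.exp_re]
      refine mul_pos (Real.exp_pos _) ?_
      have h1 : (κ * h z).im = Real.pi / (2 * N) * (h z).re := by
        have h0 : κ * h z = ((Real.pi / (2 * N) : ℝ) : ℂ) * (Complex.I * h z) := by
          rw [hκ]; ring
        rw [h0, Complex.im_ofReal_mul, Complex.I_mul_im]
      rw [h1]
      have h2 := abs_le.mp (hb z hz)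
      have h3 : Real.pi / (2 * N) * N = Real.pi / 2 := by field_simp
      have h4 : 0 < Real.pi / (2 * N) := by positivity
      apply Real.cos_pos_of_mem_Ioo
      constructor <;> nlinarith
    set p := E 0 with hp
    have h0mem : (0 : ℂ) ∈ Metric.ball (0 : ℂ) 1 := by simp
    have hp0 : 0 < p.re := hre 0 h0mem
    set Φ : ℂ → ℂ := fun z => (E z - p) / (E z + (starRingEnd ℂ) p) with hΦ
    have hden : ∀ z ∈ Metric.ball (0 : ℂ) 1, E z + (starRingEnd ℂ) p ≠ 0 := by
      intro z hz h
      have h1 := congrArg Complex.re h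
      rw [Complex.add_re, Complex.conj_re, Complex.zero_re] at h1
      linarith [hre z hz]
    have hEd : DifferentiableOn ℂ E (Metric.ball 0 1) := by
      intro z hz
      exact ((hd z hz).const_mul κ).cexp
    have hΦd : DifferentiableOn ℂ Φ (Metric.ball 0 1) := by
      intro z hz
      exact ((hEd z hz).sub_const p).div ((hEd z hz).add_const _) (hden z hz)
    have hΦ0 : Φ 0 = 0 := by simp [hΦ, hp]
    have hmaps : MapsTo Φ (Metric.ball 0 1) (Metric.closedBall (Φ 0) 1) := by
      intro z hz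
      rw [hΦ0, mem_closedBall_zero_iff]
      simp only [hΦ]
      rw [norm_div, div_le_one (norm_pos_iff.mpr (hden z hz))]
      rw [← Real.sqrt_sq (norm_nonneg (E z - p)), ← Real.sqrt_sq (norm_nonneg (E z + _))]
      apply Real.sqrt_le_sqrt
      rw [← Complex.normSq_eq_norm_sq, ← Complex.normSq_eq_norm_sq, Complex.normSq_apply,
        Complex.normSq_apply]
      simp only [Complex.sub_re, Complex.sub_im, Complex.add_re, Complex.add_im, Complex.conj_re,
        Complex.conj_im]
      nlinarith [mul_pos (hre z hz) hp0]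
    have h1 := Complex.norm_deriv_le_div_of_mapsTo_ball hΦd hmaps one_pos
    rw [div_one] at h1
    have hopen : Metric.ball (0 : ℂ) 1 ∈ nhds (0 : ℂ) := Metric.ball_mem_nhds 0 one_pos
    have hh0 : HasDerivAt h (deriv h 0) 0 := (hd.differentiableAt hopen).hasDerivAt
    have hE0 : HasDerivAt E (p * (κ * deriv h 0)) 0 := by
      have := (hh0.const_mul κ).cexp
      exact this
    have hΦ' : HasDerivAt Φ (p * (κ * deriv h 0) / (p + (starRingEnd ℂ) p)) 0 := by
      have h2 := (hE0.sub_const p).div (hE0.add_const ((starRingEnd ℂ) p)) (hden 0 h0mem)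
      refine h2.congr_deriv ?_
      have h3 : E 0 = p := rfl
      have h4 : p + (starRingEnd ℂ) p ≠ 0 := hden 0 h0mem
      rw [h3, sub_self, zero_mul, sub_zero]
      field_simp
    rw [hΦ'.deriv, norm_div, norm_mul, norm_mul] at h1
    have h5 : ‖p + (starRingEnd ℂ) p‖ = 2 * p.re := by
      rw [Complex.add_conj, Complex.norm_real, Real.norm_of_nonneg (by positivity)]
    have h6 : ‖κ‖ = Real.pi / (2 * N) := by
      rw [hκ, norm_mul, Complex.norm_real, Complex.norm_I, mul_one,
        Real.norm_of_nonneg (by positivity)]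
    have h7 : p.re ≤ ‖p‖ := Complex.re_le_norm p
    rw [h5, h6, div_le_one (by positivity)] at h1
    have h8 : 0 < ‖p‖ := hp0.trans_le h7
    have h9 : ‖p‖ * (Real.pi / (2 * N) * ‖deriv h 0‖) ≤ ‖p‖ * 2 := by linarith
    have h10 : Real.pi / (2 * N) * ‖deriv h 0‖ ≤ 2 := le_of_mul_le_mul_left h9 h8
    rw [le_div_iff₀ hpi]
    have h11 : Real.pi / (2 * N) * ‖deriv h 0‖ * (2 * N) = ‖deriv h 0‖ * Real.pi := by
      field_simp
    have h12 := mul_le_mul_of_nonneg_right h10 (by positivity : (0 : ℝ) ≤ 2 * N)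
    rw [h11] at h12
    linarith
  -- let `N` tend to `M`
  refine le_of_forall_pos_le_add fun δ hδ => ?_
  have h1 := key (M + δ * Real.pi / 4) (by have : 0 < δ * Real.pi / 4 := by positivity
                                           linarith)
  calc ‖deriv h 0‖ ≤ 4 * (M + δ * Real.pi / 4) / Real.pi := h1
    _ = 4 * M / Real.pi + δ := by field_simp

/-- Bound for the derivative in a half plane. -/
lemma deriv_halfPlane_le {g : ℂ → ℂ} {a M : ℝ} (hM : 0 < M)
    (hd : DifferentiableOn ℂ g {w | a < w.re}) (hb : ∀ w : ℂ, a < w.re → |(g w).re| ≤ M)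
    {w : ℂ} (hw : a < w.re) :
    ‖deriv g w‖ ≤ 2 * M / (Real.pi * (w.re - a)) := by
  have hpi := Real.pi_pos
  set x : ℝ := w.re - a with hx
  have hx0 : 0 < x := by rw [hx]; linarith
  set c : ℂ := w - x with hc
  have hcre : c.re = a := by rw [hc, Complex.sub_re, Complex.ofReal_re, hx]; ring
  set T : ℂ → ℂ := fun ζ => c + x * ((1 + ζ) / (1 - ζ)) with hT
  have hne : ∀ ζ ∈ Metric.ball (0 : ℂ) 1, 1 - ζ ≠ 0 := by
    intro ζ hζ h
    rw [mem_ball_zero_iff] at hζ
    have : ζ = 1 := by linear_combination -h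
    rw [this, norm_one] at hζ
    exact lt_irrefl _ hζ
  have hTre : ∀ ζ ∈ Metric.ball (0 : ℂ) 1, a < (T ζ).re := by
    intro ζ hζ
    have hζ' := hζ
    rw [mem_ball_zero_iff] at hζ'
    have h1 : ((1 + ζ) / (1 - ζ)).re = (1 - Complex.normSq ζ) / Complex.normSq (1 - ζ) := by
      rw [Complex.div_re, ← add_div]
      congr 1
      simp only [Complex.add_re, Complex.one_re, Complex.sub_re, Complex.add_im, Complex.one_im,
        Complex.sub_im, Complex.normSq_apply]
      ring
    have h2 : 0 < Complex.normSq (1 - ζ) := Complex.normSq_pos.mpr (hne ζ hζ)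
    have h3 : Complex.normSq ζ < 1 := by
      rw [Complex.normSq_eq_norm_sq]
      have := norm_nonneg ζ
      nlinarith
    have h4 : 0 < ((1 + ζ) / (1 - ζ)).re := by
      rw [h1]
      exact div_pos (by linarith) h2
    simp only [hT]
    rw [Complex.add_re, hcre, Complex.re_ofReal_mul]
    have := mul_pos hx0 h4
    linarith
  have hTd : ∀ ζ ∈ Metric.ball (0 : ℂ) 1, HasDerivAt T
      (x * (((1 : ℂ) * (1 - ζ) - (1 + ζ) * (-1)) / (1 - ζ) ^ 2)) ζ := by
    intro ζ hζ
    have h1 : HasDerivAt (fun z : ℂ => 1 + z) 1 ζ := (hasDerivAt_id ζ).const_add 1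
    have h2 : HasDerivAt (fun z : ℂ => 1 - z) (-1) ζ := (hasDerivAt_id ζ).const_sub 1
    exact ((h1.div h2 (hne ζ hζ)).const_mul (x : ℂ)).const_add c
  have hcomp : DifferentiableOn ℂ (g ∘ T) (Metric.ball 0 1) := by
    apply DifferentiableOn.comp hd (t := {w | a < w.re})
    · exact fun ζ hζ => (hTd ζ hζ).differentiableAt.differentiableWithinAt
    · exact fun ζ hζ => hTre ζ hζ
  have h1 := deriv_disc_le hM hcomp (fun ζ hζ => hb _ (hTre ζ hζ))
  have h0mem : (0 : ℂ) ∈ Metric.ball (0 : ℂ) 1 := by simp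
  have hT0 : T 0 = w := by
    simp only [hT, hc]
    norm_num
  have hopen : {w : ℂ | a < w.re} ∈ nhds w :=
    (isOpen_lt continuous_const Complex.continuous_re).mem_nhds hw
  have hgw : HasDerivAt g (deriv g w) w := (hd.differentiableAt hopen).hasDerivAt
  have h2 : HasDerivAt (g ∘ T) (deriv g w * (x * 2)) 0 := by
    have h3 := hTd 0 h0mem
    have h4 : (x : ℂ) * (((1 : ℂ) * (1 - 0) - (1 + 0) * (-1)) / (1 - 0) ^ 2) = x * 2 := by
      norm_num
    rw [h4] at h3
    rw [← hT0] at hgw
    have h5 := HasDerivAt.comp (0 : ℂ) hgw h3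
    rw [hT0] at h5
    exact h5
  rw [h2.deriv, norm_mul, norm_mul, Complex.norm_real, Real.norm_of_nonneg hx0.le] at h1
  have h3 : ‖(2 : ℂ)‖ = 2 := by norm_num
  rw [h3] at h1
  rw [le_div_iff₀ (by positivity)]
  rw [le_div_iff₀ hpi] at h1
  linarith

end ThreeBalls
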