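import Mathlib

/-!
The numerical inequality used for the sharp three-circles inequality.
-/

namespace ThreeBalls

lemma log_le_one_add {a t : ℝ} (ha : 0 < a) (ht : 0 ≤ t)
    (h : a ≤ 2.7182818283 * (1 + t + t ^ 2 / 2 + t ^ 3 / 6 + t ^ 4 / 24 + t ^ 5 / 120 +
      t ^ 6 / 720)) : Real.log a ≤ 1 + t := by
  rw [Real.log_le_iff_le_exp ha, Real.exp_add]
  have h1 := Real.exp_one_gt_d9
  have h2 := Real.sum_le_exp_of_nonneg ht 7
  have h3 : 1 + t + t ^ 2 / 2 + t ^ 3 / 6 + t ^ 4 / 24 + t ^ 5 / 120 + t ^ 6 / 720 ≤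
      Real.exp t := by
    refine le_trans (le_of_eq ?_) h2
    simp [Finset.sum_range_succ, Nat.factorial]
  have h4 : 0 ≤ 1 + t + t ^ 2 / 2 + t ^ 3 / 6 + t ^ 4 / 24 + t ^ 5 / 120 + t ^ 6 / 720 := by
    positivity
  refine h.trans (mul_le_mul h1.le h3 h4 (Real.exp_pos 1).le)

lemma log_tangent {x x₀ : ℝ} (hx : 0 < x) (hx₀ : 0 < x₀) :
    Real.log x ≤ Real.log x₀ + x / x₀ - 1 := by
  have h := Real.log_le_sub_one_of_pos (div_pos hx hx₀)
  rw [Real.log_div hx.ne' hx₀.ne'] at h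
  linarith

/-- The main numerical inequality. -/
lemma main_numeric {L α : ℝ} (hL : 3 / 2 ≤ L) (hα : α = (8 / 5) / (Real.exp 1 * L)) :
    0 ≤ (1 - Real.pi / 4) * L - 1 + Real.log 2 - Real.log L -
      1 / 2 * Real.log (1 + (2 + α) ^ 2) + 2 / (1 + α) := by
  have hL0 : 0 < L := by linarith
  have he1 := Real.exp_one_gt_d9
  have he2 := Real.exp_one_lt_d9
  have he0 := Real.exp_pos 1
  have hα0 : 0 < α := by rw [hα]; positivity
  set c := α * L with hc
  have hc1 : c = (8 / 5) / Real.exp 1 := by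
    rw [hc, hα]; field_simp
  have hclow : (58859 / 100000) ≤ c := by
    rw [hc1, le_div_iff₀ he0]; nlinarith
  have hchigh : c ≤ (29431 / 50000) := by
    rw [hc1, div_le_iff₀ he0]; nlinarith
  have hpi : (1073 / 5000) * L ≤ (1 - Real.pi / 4) * L := by
    have := Real.pi_lt_d4
    nlinarith
  have hlog2 : (6931 / 10000) ≤ Real.log 2 := by
    have := Real.log_two_gt_d9
    linarith
  have hK : Real.log (1 + (2 + α) ^ 2) ≤ (879 / 500) + (1 + (2 + α) ^ 2) / (29 / 5) - 1 := by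
    have h1 := log_tangent (x := 1 + (2 + α) ^ 2) (x₀ := (29 / 5)) (by positivity) (by norm_num)
    have h2 : Real.log (29 / 5) ≤ 1 + (379 / 500) := log_le_one_add (by norm_num) (by norm_num) (by norm_num)
    linarith
  -- reduction to a tangent of the logarithm
  have red : ∀ p q : ℝ, Real.log L ≤ ((1073 / 5000) - p) * L + (q - (3069 / 10000) - (379 / 1000) - 5 / (58 / 5)) →
      0 ≤ p * c + (p * c - q + 2) * α - q * α ^ 2 - (4 * α ^ 2 + 5 * α ^ 3 + α ^ 4) / (58 / 5) →
      0 ≤ (1 - Real.pi / 4) * L - 1 + Real.log 2 - Real.log L -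
      1 / 2 * Real.log (1 + (2 + α) ^ 2) + 2 / (1 + α) := by
    intro p q h1 h2
    have h3 : p * L - q - (4 * α + α ^ 2) / (58 / 5) + 2 / (1 + α) =
        (p * c + (p * c - q + 2) * α - q * α ^ 2 - (4 * α ^ 2 + 5 * α ^ 3 + α ^ 4) / (58 / 5)) /
        (α * (1 + α)) := by
      rw [hc]
      field_simp
      ring
    have h4 : 0 ≤ p * L - q - (4 * α + α ^ 2) / (58 / 5) + 2 / (1 + α) := by
      rw [h3]; positivity
    nlinarith
  rcases le_or_gt L (13 / 5) with h26 | h26
  · -- tangent at 11/5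
    have hlow : (2263 / 10000) ≤ α := by
      have : α * L ≤ α * (13 / 5) := by gcongr
      nlinarith
    have hhigh : α ≤ (157 / 400) := by nlinarith
    have h1 := log_tangent (x := L) (x₀ := (11 / 5)) hL0 (by norm_num)
    have h2 : Real.log (11 / 5) ≤ (3943 / 5000) := by
      have h3 : Real.log (11 / 5) = Real.log 2 + Real.log (11 / 10) := by
        rw [← Real.log_mul (by norm_num) (by norm_num)]; norm_num
      have h4 := Real.log_two_lt_d9
      have h5 : Real.log (11 / 10) ≤ (9533 / 100000) := by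
        rw [Real.log_le_iff_le_exp (by norm_num)]
        have h6 := Real.sum_le_exp_of_nonneg (x := (9533 / 100000)) (by norm_num) 4
        refine le_trans ?_ h6
        simp [Finset.sum_range_succ, Nat.factorial]
        norm_num
      rw [h3]; linarith
    refine red ((1073 / 5000) - 1 / (11 / 5)) ((3069 / 10000) + (379 / 1000) + 5 / (58 / 5) + (3943 / 5000) - 1) (by linarith) ?_
    have hpc : ((1073 / 5000) - 1 / (11 / 5)) * (29431 / 50000) ≤ ((1073 / 5000) - 1 / (11 / 5)) * c :=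
      mul_le_mul_of_nonpos_left hchigh (by norm_num)
    nlinarith [mul_nonneg (sub_nonneg.mpr hlow) (sub_nonneg.mpr hhigh),
      mul_nonneg (mul_nonneg (sub_nonneg.mpr hlow) (sub_nonneg.mpr hhigh)) hα0.le,
      mul_nonneg (mul_nonneg (mul_nonneg (sub_nonneg.mpr hlow) (sub_nonneg.mpr hhigh)) hα0.le) hα0.le,
      mul_le_mul_of_nonneg_right hpc hα0.le]
  rcases le_or_gt L (19 / 5) with h38 | h38
  · have hlow : (387 / 2500) ≤ α := by
      have : α * L ≤ α * (19 / 5) := by gcongr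
      nlinarith
    have hhigh : α ≤ (453 / 2000) := by nlinarith
    have h1 := log_tangent (x := L) (x₀ := (31 / 10)) hL0 (by norm_num)
    have h2 : Real.log (31 / 10) ≤ 1 + (263 / 2000) :=
      log_le_one_add (by norm_num) (by norm_num) (by norm_num)
    refine red ((1073 / 5000) - 1 / (31 / 10)) ((3069 / 10000) + (379 / 1000) + 5 / (58 / 5) + (2263 / 2000) - 1) (by linarith) ?_
    have hpc : ((1073 / 5000) - 1 / (31 / 10)) * (29431 / 50000) ≤ ((1073 / 5000) - 1 / (31 / 10)) * c :=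
      mul_le_mul_of_nonpos_left hchigh (by norm_num)
    nlinarith [mul_nonneg (sub_nonneg.mpr hlow) (sub_nonneg.mpr hhigh),
      mul_nonneg (mul_nonneg (sub_nonneg.mpr hlow) (sub_nonneg.mpr hhigh)) hα0.le,
      mul_nonneg (mul_nonneg (mul_nonneg (sub_nonneg.mpr hlow) (sub_nonneg.mpr hhigh)) hα0.le) hα0.le,
      mul_le_mul_of_nonneg_right hpc hα0.le]
  rcases le_or_gt L (26 / 5) with h52 | h52
  · have hlow : (1131 / 10000) ≤ α := by
      have : α * L ≤ α * (26 / 5) := by gcongr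
      nlinarith
    have hhigh : α ≤ (31 / 200) := by nlinarith
    have h1 := log_tangent (x := L) (x₀ := (9 / 2)) hL0 (by norm_num)
    have h2 : Real.log (9 / 2) ≤ 1 + (2521 / 5000) :=
      log_le_one_add (by norm_num) (by norm_num) (by norm_num)
    refine red ((1073 / 5000) - 1 / (9 / 2)) ((3069 / 10000) + (379 / 1000) + 5 / (58 / 5) + (7521 / 5000) - 1) (by linarith) ?_
    have hpc : ((1073 / 5000) - 1 / (9 / 2)) * (29431 / 50000) ≤ ((1073 / 5000) - 1 / (9 / 2)) * c :=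
      mul_le_mul_of_nonpos_left hchigh (by norm_num)
    nlinarith [mul_nonneg (sub_nonneg.mpr hlow) (sub_nonneg.mpr hhigh),
      mul_nonneg (mul_nonneg (sub_nonneg.mpr hlow) (sub_nonneg.mpr hhigh)) hα0.le,
      mul_nonneg (mul_nonneg (mul_nonneg (sub_nonneg.mpr hlow) (sub_nonneg.mpr hhigh)) hα0.le) hα0.le,
      mul_le_mul_of_nonneg_right hpc hα0.le]
  · have hhigh : α ≤ (283 / 2500) := by nlinarith
    have h1 := log_tangent (x := L) (x₀ := 6) hL0 (by norm_num)
    have h2 : Real.log 6 ≤ 1 + (7919 / 10000) :=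
      log_le_one_add (by norm_num) (by norm_num) (by norm_num)
    refine red ((1073 / 5000) - 1 / 6) ((3069 / 10000) + (379 / 1000) + 5 / (58 / 5) + (17919 / 10000) - 1) (by linarith) ?_
    have hpc : ((1073 / 5000) - 1 / 6) * (58859 / 100000) ≤ ((1073 / 5000) - 1 / 6) * c :=
      mul_le_mul_of_nonneg_left hclow (by norm_num)
    nlinarith [mul_nonneg hα0.le (sub_nonneg.mpr hhigh),
      mul_nonneg (mul_nonneg hα0.le (sub_nonneg.mpr hhigh)) hα0.le,
      mul_nonneg (mul_nonneg (mul_nonneg hα0.le (sub_nonneg.mpr hhigh)) hα0.le) hα0.le,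
      mul_le_mul_of_nonneg_right hpc hα0.le]

/-- `exp (-L) ≤ 1 - L / 2` for `0 ≤ L ≤ 3/2`. -/
lemma exp_neg_le_one_sub_half {L : ℝ} (hL : 0 ≤ L) (hL1 : L ≤ 3 / 2) :
    Real.exp (-L) ≤ 1 - L / 2 := by
  have h1 := convexOn_exp.2 (Set.mem_univ (0 : ℝ)) (Set.mem_univ (-(3 / 2) : ℝ))
    (show 0 ≤ 1 - L / (3 / 2) by
      rw [sub_nonneg, div_le_one (by norm_num)]; exact hL1)
    (show 0 ≤ L / (3 / 2) by positivity) (by ring)
  simp only [smul_eq_mul, mul_zero, zero_add, Real.exp_zero, mul_one] at h1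
  have h2 : L / (3 / 2) * (-(3 / 2)) = -L := by ring
  rw [h2] at h1
  have h3 : Real.exp (-(3 / 2)) ≤ 1 / 4 := by
    rw [Real.exp_neg, inv_le_comm₀ (Real.exp_pos _) (by norm_num)]
    have h4 := Real.quadratic_le_exp_of_nonneg (x := (3 / 2 : ℝ)) (by norm_num)
    have h5 := Real.sum_le_exp_of_nonneg (x := (3 / 2 : ℝ)) (by norm_num) 4
    simp [Finset.sum_range_succ, Nat.factorial] at h5
    norm_num at h5 ⊢
    linarith
  nlinarith

end ThreeBalls
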