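import Mathlib
import Pool.Agent.Lib.MP_e54599_an.Basic
import Pool.Agent.Lib.MP_e54599_an.Numeric

/-!
The half plane version of the sharp inequality.
-/

namespace ThreeBalls

open Complex Set Filter Topology
open Complex.HadamardThreeLines

/-- A holomorphic function on the right half plane, real on the positive axis, whose real part is
bounded by `1`, and by `ε` where `1 ≤ Re w`. -/
structure HP (g : ℂ → ℂ) (ε : ℝ) : Prop where
  diff : DifferentiableOn ℂ g {w | 0 < w.re}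
  bd : ∀ w : ℂ, 0 < w.re → |(g w).re| ≤ 1
  bd1 : ∀ w : ℂ, 1 ≤ w.re → |(g w).re| ≤ ε
  real : ∀ x : ℝ, 0 < x → (g x).im = 0

lemma isOpen_hp : IsOpen {w : ℂ | 0 < w.re} := isOpen_lt continuous_const continuous_re

lemma closure_strip_subset (a b : ℝ) : closure (verticalStrip a b) ⊆ re ⁻¹' Icc a b :=
  closure_minimal (preimage_mono Ioo_subset_Icc_self) (isClosed_Icc.preimage continuous_re)

lemma dcc {f : ℂ → ℂ} {a b : ℝ} {S : Set ℂ} (hS : re ⁻¹' Icc a b ⊆ S)
    (hf : DifferentiableOn ℂ f S) : DiffContOnCl ℂ f (verticalStrip a b) :=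
  (hf.mono ((closure_strip_subset a b).trans hS)).diffContOnCl

/-- The linear bound (convexity in `log r`). -/
lemma hp_linear {g : ℂ → ℂ} {ε : ℝ} (h : HP g ε) {β : ℝ}
    (hβ : 0 < β) (hβ1 : β < 1) : (g β).re ≤ 1 - β * (1 - ε) := by
  have key : ∀ η : ℝ, 0 < η → η < β → (g β).re ≤ 1 - (β - η) / (1 - η) * (1 - ε) := by
    intro η hη hηβ
    have hdiff : DifferentiableOn ℂ (fun w => Complex.exp (g w)) {w | 0 < w.re} := h.diff.cexp
    have hsub : re ⁻¹' Icc η 1 ⊆ {w : ℂ | 0 < w.re} := fun w hw => hη.trans_le hw.1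
    have hnorm : ∀ w : ℂ, 0 < w.re → ‖Complex.exp (g w)‖ ≤ Real.exp 1 := by
      intro w hw
      rw [Complex.norm_exp]
      exact Real.exp_le_exp.mpr ((abs_le.mp (h.bd w hw)).2)
    have h1 := norm_le_interp_of_mem_verticalClosedStrip' (f := fun w => Complex.exp (g w))
      (z := (β : ℂ)) (a := Real.exp 1) (b := Real.exp ε) (l := η) (u := 1) (by linarith)
      (by
        show (β : ℂ).re ∈ Icc η 1
        rw [Complex.ofReal_re]
        exact ⟨hηβ.le, hβ1.le⟩)
      (dcc hsub hdiff)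
      (by
        refine ⟨Real.exp 1, ?_⟩
        rintro _ ⟨w, hw, rfl⟩
        exact hnorm w (hsub hw))
      (by
        intro w hw
        have : w.re = η := hw
        exact hnorm w (by rw [this]; exact hη))
      (by
        intro w hw
        have hw' : w.re = 1 := hw
        rw [Complex.norm_exp]
        exact Real.exp_le_exp.mpr ((abs_le.mp (h.bd1 w hw'.ge)).2))
    rw [Complex.norm_exp, Complex.ofReal_re, ← Real.exp_mul, ← Real.exp_mul, ← Real.exp_add,
      Real.exp_le_exp] at h1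
    linarith
  -- limit
  have hlim : Tendsto (fun η : ℝ => 1 - (β - η) / (1 - η) * (1 - ε)) (𝓝[>] 0)
      (𝓝 (1 - (β - 0) / (1 - 0) * (1 - ε))) := by
    apply Tendsto.mono_left _ nhdsWithin_le_nhds
    apply ContinuousAt.tendsto
    have : (1 : ℝ) - 0 ≠ 0 := by norm_num
    fun_prop (disch := exact this)
  rw [sub_zero, sub_zero, div_one] at hlim
  refine ge_of_tendsto hlim ?_
  filter_upwards [Ioo_mem_nhdsGT hβ] with η hη
  exact key η hη.1 hη.2

/-- Gradient bound on the line `Re w = 1`. -/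
lemma hp_deriv {g : ℂ → ℂ} {ε : ℝ} (h : HP g ε) (hε : 0 < ε) {L : ℝ} (hL : L = -Real.log ε)
    (hL1 : 1 < L) {w : ℂ} (hw : w.re = 1) :
    ‖deriv g w‖ ≤ 2 * Real.exp 1 * ε * L / Real.pi := by
  have hpi := Real.pi_pos
  have hL0 : 0 < L := by linarith
  set δ : ℝ := 1 / L with hδ
  have hδ0 : 0 < δ := by positivity
  have hδ1 : δ < 1 := by rw [hδ, div_lt_one hL0]; exact hL1
  have hsub : re ⁻¹' Icc δ (1 + δ) ⊆ {w : ℂ | 0 < w.re} := fun w hw => hδ0.trans_le hw.1
  have hdd : DifferentiableOn ℂ (deriv g) {w | 0 < w.re} := h.diff.deriv isOpen_hp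
  have hA : ∀ w : ℂ, δ ≤ w.re → ‖deriv g w‖ ≤ 2 / (Real.pi * δ) := by
    intro w hw
    have hw0 : 0 < w.re := hδ0.trans_le hw
    have h1 := deriv_halfPlane_le (g := g) (a := 0) (M := 1) one_pos h.diff h.bd hw0
    refine h1.trans ?_
    rw [mul_one, sub_zero]
    gcongr
  have hB : ∀ w : ℂ, w.re = 1 + δ → ‖deriv g w‖ ≤ 2 / (Real.pi * δ) * ε := by
    intro w hw
    have h1 := deriv_halfPlane_le (g := g) (a := 1) (M := ε) hε
      (h.diff.mono fun w hw => by
        have : (1 : ℝ) < w.re := hw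
        show 0 < w.re
        linarith)
      (fun w hw => h.bd1 w (le_of_lt hw)) (w := w) (by linarith)
    refine h1.trans (le_of_eq ?_)
    rw [hw]
    have : 1 + δ - 1 = δ := by ring
    rw [this]
    ring
  have h1 := norm_le_interp_of_mem_verticalClosedStrip' (f := deriv g)
    (z := w) (a := 2 / (Real.pi * δ)) (b := 2 / (Real.pi * δ) * ε) (l := δ) (u := 1 + δ)
    (by linarith)
    (by
      show w.re ∈ Icc δ (1 + δ)
      rw [hw]
      exact ⟨hδ1.le, by linarith⟩)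
    (dcc hsub hdd)
    (by
      refine ⟨2 / (Real.pi * δ), ?_⟩
      rintro _ ⟨w, hw, rfl⟩
      exact hA w hw.1)
    (by
      intro w hw
      have : w.re = δ := hw
      exact hA w this.ge)
    (by
      intro w hw
      exact hB w hw)
  refine h1.trans (le_of_eq ?_)
  have h2 : (w.re - δ) / (1 + δ - δ) = 1 - δ := by
    rw [hw, add_sub_cancel_right, div_one]
  have hA0 : 0 < 2 / (Real.pi * δ) := by positivity
  rw [h2, Real.mul_rpow hA0.le hε.le, ← mul_assoc, ← Real.rpow_add hA0]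
  have h3 : 1 - (1 - δ) + (1 - δ) = 1 := by ring
  have h4 : ε ^ (1 - δ) = Real.exp 1 * ε := by
    rw [Real.rpow_def_of_pos hε]
    have h5 : Real.log ε * (1 - δ) = 1 + Real.log ε := by
      have h6 : Real.log ε = -L := by rw [hL]; ring
      rw [h6, hδ]
      field_simp
      ring
    rw [h5, Real.exp_add, Real.exp_log hε]
  rw [h3, Real.rpow_one, h4, hδ]
  field_simp

/-- Bound for the imaginary part on the line `Re w = 1`. -/
lemma hp_im {g : ℂ → ℂ} {ε : ℝ} (h : HP g ε) (hε : 0 < ε) {L : ℝ} (hL : L = -Real.log ε)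
    (hL1 : 1 < L) {w : ℂ} (hw : w.re = 1) :
    |(g w).im| ≤ 2 * Real.exp 1 * ε * L / Real.pi * |w.im| := by
  have hconv : Convex ℝ {w : ℂ | w.re = 1} := by
    have : {w : ℂ | w.re = 1} = Complex.reLm ⁻¹' {(1 : ℝ)} := by
      ext w; simp [Complex.reLm]
    rw [this]
    exact (convex_singleton (1 : ℝ)).linear_preimage Complex.reLm
  have h1 := hconv.norm_image_sub_le_of_norm_deriv_le (f := g)
    (C := 2 * Real.exp 1 * ε * L / Real.pi)
    (fun z hz => h.diff.differentiableAt (isOpen_hp.mem_nhds (by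
      have : z.re = 1 := hz
      show 0 < z.re
      rw [this]; exact one_pos)))
    (fun z hz => hp_deriv h hε hL hL1 hz) (x := 1) (y := w)
    (show (1 : ℂ).re = 1 from Complex.one_re) hw
  have h2 : (g w - g 1).im = (g w).im := by
    rw [Complex.sub_im]
    have := h.real 1 one_pos
    rw [Complex.ofReal_one] at this
    rw [this, sub_zero]
  have h3 : ‖w - 1‖ = |w.im| := by
    have : w - 1 = (w.im : ℂ) * Complex.I := by
      apply Complex.ext
      · simp [hw]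
      · simp
    rw [this, norm_mul, Complex.norm_real, Complex.norm_I, mul_one, Real.norm_eq_abs]
  rw [← h2, ← h3]
  exact (Complex.abs_im_le_norm _).trans h1

/-- The function `i tan (π g / 4)`. -/
noncomputable def Phi (g : ℂ → ℂ) (w : ℂ) : ℂ :=
  (Complex.exp (((Real.pi / 2 : ℝ) : ℂ) * (Complex.I * g w)) - 1) /
    (Complex.exp (((Real.pi / 2 : ℝ) : ℂ) * (Complex.I * g w)) + 1)

section PhiFacts

variable {g : ℂ → ℂ} {w : ℂ}

lemma exp_re_im (g : ℂ → ℂ) (w : ℂ) :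
    (Complex.exp (((Real.pi / 2 : ℝ) : ℂ) * (Complex.I * g w))).re =
      Real.exp (-(Real.pi / 2 * (g w).im)) * Real.cos (Real.pi / 2 * (g w).re) ∧
    (Complex.exp (((Real.pi / 2 : ℝ) : ℂ) * (Complex.I * g w))).im =
      Real.exp (-(Real.pi / 2 * (g w).im)) * Real.sin (Real.pi / 2 * (g w).re) := by
  have h1 : (((Real.pi / 2 : ℝ) : ℂ) * (Complex.I * g w)).re = -(Real.pi / 2 * (g w).im) := by
    rw [Complex.re_ofReal_mul, Complex.I_mul_re]; ring
  have h2 : (((Real.pi / 2 : ℝ) : ℂ) * (Complex.I * g w)).im = Real.pi / 2 * (g w).re := by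
    rw [Complex.im_ofReal_mul, Complex.I_mul_im]
  rw [Complex.exp_re, Complex.exp_im, h1, h2]
  exact ⟨rfl, rfl⟩

lemma cos_nonneg_of (h : |(g w).re| ≤ 1) : 0 ≤ Real.cos (Real.pi / 2 * (g w).re) := by
  have hpi := Real.pi_pos
  have h1 := abs_le.mp h
  apply Real.cos_nonneg_of_mem_Icc
  constructor <;> nlinarith

lemma normSq_num (g : ℂ → ℂ) (w : ℂ) :
    Complex.normSq (Complex.exp (((Real.pi / 2 : ℝ) : ℂ) * (Complex.I * g w)) - 1) =
      Real.exp (-(Real.pi / 2 * (g w).im)) ^ 2 -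
      2 * Real.exp (-(Real.pi / 2 * (g w).im)) * Real.cos (Real.pi / 2 * (g w).re) + 1 := by
  obtain ⟨h1, h2⟩ := exp_re_im g w
  rw [Complex.normSq_apply, Complex.sub_re, Complex.sub_im, Complex.one_re, Complex.one_im, h1, h2]
  have := Real.sin_sq_add_cos_sq (Real.pi / 2 * (g w).re)
  linear_combination Real.exp (-(Real.pi / 2 * (g w).im)) ^ 2 * this

lemma normSq_den (g : ℂ → ℂ) (w : ℂ) :
    Complex.normSq (Complex.exp (((Real.pi / 2 : ℝ) : ℂ) * (Complex.I * g w)) + 1) =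
      Real.exp (-(Real.pi / 2 * (g w).im)) ^ 2 +
      2 * Real.exp (-(Real.pi / 2 * (g w).im)) * Real.cos (Real.pi / 2 * (g w).re) + 1 := by
  obtain ⟨h1, h2⟩ := exp_re_im g w
  rw [Complex.normSq_apply, Complex.add_re, Complex.add_im, Complex.one_re, Complex.one_im, h1, h2]
  have := Real.sin_sq_add_cos_sq (Real.pi / 2 * (g w).re)
  linear_combination Real.exp (-(Real.pi / 2 * (g w).im)) ^ 2 * this

lemma den_ne_zero (h : |(g w).re| ≤ 1) :
    Complex.exp (((Real.pi / 2 : ℝ) : ℂ) * (Complex.I * g w)) + 1 ≠ 0 := by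
  intro h0
  have h1 := congrArg Complex.re h0
  rw [Complex.add_re, Complex.one_re, Complex.zero_re, (exp_re_im g w).1] at h1
  have h2 := mul_nonneg (Real.exp_pos (-(Real.pi / 2 * (g w).im))).le (cos_nonneg_of h)
  linarith

lemma Phi_norm_sq (g : ℂ → ℂ) (w : ℂ) : ‖Phi g w‖ ^ 2 =
    (Real.exp (-(Real.pi / 2 * (g w).im)) ^ 2 -
      2 * Real.exp (-(Real.pi / 2 * (g w).im)) * Real.cos (Real.pi / 2 * (g w).re) + 1) /
    (Real.exp (-(Real.pi / 2 * (g w).im)) ^ 2 +
      2 * Real.exp (-(Real.pi / 2 * (g w).im)) * Real.cos (Real.pi / 2 * (g w).re) + 1) := by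
  rw [Phi, norm_div, div_pow, ← Complex.normSq_eq_norm_sq, ← Complex.normSq_eq_norm_sq,
    normSq_num, normSq_den]

lemma Phi_norm_le_one (h : |(g w).re| ≤ 1) : ‖Phi g w‖ ≤ 1 := by
  have h1 := Phi_norm_sq g w
  have hr := Real.exp_pos (-(Real.pi / 2 * (g w).im))
  have hq := cos_nonneg_of h
  have h2 : ‖Phi g w‖ ^ 2 ≤ 1 := by
    rw [h1, div_le_one (by positivity)]
    nlinarith [mul_nonneg hr.le hq]
  nlinarith [norm_nonneg (Phi g w)]

/-- The key estimate of `Phi` when the real part of `g` is small. -/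
lemma Phi_norm_sq_le {ε : ℝ} (hε : 0 < ε) (hε1 : ε ≤ 6 / 25) (h : |(g w).re| ≤ ε) :
    ‖Phi g w‖ ^ 2 ≤ 16 / 25 * ε ^ 2 + (Real.pi / 4 * (g w).im) ^ 2 := by
  have hpi := Real.pi_pos
  have hpi4 := Real.pi_lt_d4
  rw [Phi_norm_sq]
  set x := Real.pi / 2 * (g w).im with hx
  set r := Real.exp (-x) with hr
  set q := Real.cos (Real.pi / 2 * (g w).re) with hq
  have hr0 : 0 < r := Real.exp_pos _
  have hq1 : q ≤ 1 := Real.cos_le_one _
  have hqlow : 1 - (Real.pi / 2 * ε) ^ 2 / 2 ≤ q := by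
    refine le_trans ?_ (Real.one_sub_sq_div_two_le_cos)
    have h1 : (Real.pi / 2 * (g w).re) ^ 2 ≤ (Real.pi / 2 * ε) ^ 2 := by
      rw [← sq_abs (Real.pi / 2 * (g w).re), abs_mul, abs_of_pos (by positivity : 0 < Real.pi / 2)]
      gcongr
    linarith
  have ht : (Real.pi / 2 * ε) ^ 2 ≤ 2.4675 * ε ^ 2 := by
    rw [mul_pow]
    have : (Real.pi / 2) ^ 2 ≤ 2.4675 := by nlinarith
    gcongr
  have hε2 : ε ^ 2 ≤ 36 / 625 := by nlinarith
  have hq0 : 0 < q := by nlinarith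
  -- algebra
  have h1 : (1 - q) / (1 + q) ≤ 16 / 25 * ε ^ 2 := by
    rw [div_le_iff₀ (by linarith)]
    nlinarith
  have h2 : ((1 - r) / (1 + r)) ^ 2 ≤ (Real.pi / 4 * (g w).im) ^ 2 := by
    have h3 := abs_one_sub_exp_neg_le x
    rw [← hr] at h3
    have h4 : |(1 - r) / (1 + r)| ≤ |x| / 2 := by
      rw [abs_div, abs_of_pos (by linarith : 0 < 1 + r), div_le_iff₀ (by linarith)]
      exact h3
    have h5 : (Real.pi / 4 * (g w).im) ^ 2 = (|x| / 2) ^ 2 := by
      rw [div_pow, sq_abs, hx]; ring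
    rw [h5, ← sq_abs ((1 - r) / (1 + r))]
    gcongr
  have h6 : (r ^ 2 - 2 * r * q + 1) / (r ^ 2 + 2 * r * q + 1) ≤
      ((1 - r) / (1 + r)) ^ 2 + (1 - q) / (1 + q) := by
    have h7 : ((1 - r) / (1 + r)) ^ 2 + (1 - q) / (1 + q) =
        ((1 - r) ^ 2 * (1 + q) + (1 + r) ^ 2 * (1 - q)) / ((1 + r) ^ 2 * (1 + q)) := by
      field_simp
    rw [h7, div_le_div_iff₀ (by positivity) (by positivity)]
    have h8 : 2 * (r ^ 2 - 2 * r * q + 1) = (1 - r) ^ 2 * (1 + q) + (1 + r) ^ 2 * (1 - q) := by ring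
    have h9 : 2 * (r ^ 2 + 2 * r * q + 1) = (1 + r) ^ 2 * (1 + q) + (1 - r) ^ 2 * (1 - q) := by ring
    have h10 : 0 ≤ ((1 - r) ^ 2 * (1 + q) + (1 + r) ^ 2 * (1 - q)) * ((1 - r) ^ 2 * (1 - q)) := by
      have : 0 ≤ 1 - q := by linarith
      have : 0 ≤ 1 + q := by linarith
      positivity
    nlinarith
  linarith

/-- The value of `‖Phi‖` at a point where `g` is real and positive. -/
lemma Phi_norm_real {m : ℝ} (hm : 0 < m) (hm1 : m ≤ 1) (hg : g w = m) :
    ‖Phi g w‖ = Real.sin (Real.pi * m / 4) / Real.cos (Real.pi * m / 4) := by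
  have hpi := Real.pi_pos
  have hs : 0 < Real.sin (Real.pi * m / 4) :=
    Real.sin_pos_of_pos_of_lt_pi (by positivity) (by nlinarith)
  have hc : 0 < Real.cos (Real.pi * m / 4) :=
    Real.cos_pos_of_mem_Ioo ⟨by nlinarith, by nlinarith⟩
  have hre : (g w).re = m := by rw [hg, Complex.ofReal_re]
  have him : (g w).im = 0 := by rw [hg, Complex.ofReal_im]
  have h1 := Phi_norm_sq g w
  rw [hre, him, mul_zero, neg_zero, Real.exp_zero] at h1
  have h2 : Real.cos (Real.pi / 2 * m) = 2 * Real.cos (Real.pi * m / 4) ^ 2 - 1 := by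
    rw [← Real.cos_two_mul]; congr 1; ring
  have h3 : Real.cos (Real.pi / 2 * m) = 1 - 2 * Real.sin (Real.pi * m / 4) ^ 2 := by
    have := Real.sin_sq_add_cos_sq (Real.pi * m / 4)
    rw [h2]; linarith
  have h4 : ‖Phi g w‖ ^ 2 = (Real.sin (Real.pi * m / 4) / Real.cos (Real.pi * m / 4)) ^ 2 := by
    rw [h1, div_pow]
    have e1 : (1 : ℝ) ^ 2 - 2 * 1 * Real.cos (Real.pi / 2 * m) + 1 =
        4 * Real.sin (Real.pi * m / 4) ^ 2 := by rw [h3]; ring
    have e2 : (1 : ℝ) ^ 2 + 2 * 1 * Real.cos (Real.pi / 2 * m) + 1 =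
        4 * Real.cos (Real.pi * m / 4) ^ 2 := by rw [h2]; ring
    rw [e1, e2, mul_div_mul_left _ _ (by norm_num)]
  have h5 : 0 ≤ Real.sin (Real.pi * m / 4) / Real.cos (Real.pi * m / 4) := by positivity
  exact (sq_eq_sq₀ (norm_nonneg _) h5).mp h4

end PhiFacts

/-- Norm of the fractional linear factor. -/
lemma frac_norm_le {α x y : ℝ} (hx : 0 ≤ x) (hxα : x < 1 + α) :
    ‖((1 + α : ℝ) : ℂ) + (x + y * Complex.I)‖ * (1 + α - x) ≤
      (1 + α + x) * ‖((1 + α : ℝ) : ℂ) - (x + y * Complex.I)‖ := by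
  have h1 : ‖((1 + α : ℝ) : ℂ) + (x + y * Complex.I)‖ ^ 2 = (1 + α + x) ^ 2 + y ^ 2 := by
    rw [← Complex.normSq_eq_norm_sq, Complex.normSq_apply]
    simp
    ring
  have h2 : ‖((1 + α : ℝ) : ℂ) - (x + y * Complex.I)‖ ^ 2 = (1 + α - x) ^ 2 + y ^ 2 := by
    rw [← Complex.normSq_eq_norm_sq, Complex.normSq_apply]
    simp
    ring
  apply le_of_sq_le_sq _ (by have : 0 ≤ 1 + α + x := by linarith
                             positivity)
  rw [mul_pow, mul_pow, h1, h2]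
  nlinarith [mul_nonneg (sq_nonneg y) (mul_nonneg hx (by linarith : 0 ≤ 1 + α))]

end ThreeBalls
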