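import Mathlib

/-!
Test functions for the three-balls inequality in high dimension: the mean over the `2 ^ N` choices
of signs of `sin (μ x₀ + i (μ/√N) Σ_j ± x_j) ^ m` is harmonic on `ℝ^(N+1)`, equals `sin (μ x₀) ^ m`
on the axis, and is bounded on the balls of radius `1` and `ρ`.
-/

open InnerProductSpace Laplacian Topology

namespace ThreeBallsHD

lemma harmonicAt_comp {ι : Type*} [Fintype ι] {E : Type*} [NormedAddCommGroup E]
    [InnerProductSpace ℝ E] [FiniteDimensional ℝ E]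
    (v : OrthonormalBasis ι ℝ E) (L : E →L[ℝ] ℂ) (hL : ∑ i, (L (v i)) ^ 2 = 0)
    (F : ℂ → ℂ) (hF : Differentiable ℂ F) (x : E) : HarmonicAt (fun y => F (L y)) x := by
  have hF' : Differentiable ℂ (deriv F) := hF.deriv
  have hd1 : ∀ y, HasFDerivAt (fun y => F (L y)) ((deriv F (L y)) • L) y := fun y =>
    ((hF (L y)).hasDerivAt).comp_hasFDerivAt y L.hasFDerivAt
  have hd2 : ∀ y, HasFDerivAt (fun y => deriv F (L y)) ((deriv (deriv F) (L y)) • L) y := fun y =>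
    ((hF' (L y)).hasDerivAt).comp_hasFDerivAt y L.hasFDerivAt
  have hf1 : fderiv ℝ (fun y => F (L y)) = fun y => (deriv F (L y)) • L := by
    ext1 y
    exact (hd1 y).fderiv
  refine ⟨?_, ?_⟩
  · have h1 : ContDiff ℝ 2 F := (hF.contDiff (n := 2)).restrict_scalars ℝ
    exact (h1.comp L.contDiff).contDiffAt
  · refine Filter.Eventually.of_forall fun y => ?_
    rw [laplacian_eq_iteratedFDeriv_orthonormalBasis _ v]
    simp only [iteratedFDeriv_two_apply, hf1]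
    have h2 := ((hd2 y).smul_const L).fderiv
    rw [h2]
    simp only [Pi.zero_apply]
    have h3 : ∀ i, ((deriv (deriv F) (L y) • L).smulRight L (![v i, v i] 0)) (![v i, v i] 1)
        = deriv (deriv F) (L y) * (L (v i)) ^ 2 := by
      intro i
      simp [ContinuousLinearMap.smulRight_apply]
      ring
    rw [Finset.sum_congr rfl fun i _ => h3 i, ← Finset.mul_sum, hL, mul_zero]

lemma harmonicAt_sum {ι : Type*} {E : Type*} [NormedAddCommGroup E]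
    [InnerProductSpace ℝ E] [FiniteDimensional ℝ E] (s : Finset ι) (f : ι → E → ℂ) (x : E)
    (h : ∀ i ∈ s, HarmonicAt (f i) x) : HarmonicAt (fun y => ∑ i ∈ s, f i y) x := by
  classical
  induction s using Finset.induction_on with
  | empty => simp
  | insert i s hi ih =>
    have h1 := (h i (Finset.mem_insert_self i s)).add
      (ih fun j hj => h j (Finset.mem_insert_of_mem hj))
    have : (fun y => ∑ i ∈ insert i s, f i y) = f i + fun y => ∑ i ∈ s, f i y := by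
      ext y
      simp [Finset.sum_insert hi]
    rw [this]
    exact h1

/-- the sign of a Boolean -/
def sgn (b : Bool) : ℝ := if b then 1 else -1

lemma sgn_sq (b : Bool) : sgn b ^ 2 = 1 := by cases b <;> simp [sgn]

lemma two_exp (c a y : ℝ) (hc : 0 ≤ c) (h : c * a ^ 2 < 1) :
    Real.exp (c * (y + a) ^ 2 / 2) + Real.exp (c * (y - a) ^ 2 / 2)
      ≤ 2 * Real.exp ((c / (1 - c * a ^ 2)) * (y ^ 2 + a ^ 2) / 2) := by
  have h1 : Real.exp (c * (y + a) ^ 2 / 2) + Real.exp (c * (y - a) ^ 2 / 2)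
      = 2 * (Real.exp (c * (y ^ 2 + a ^ 2) / 2) * Real.cosh (c * y * a)) := by
    rw [Real.cosh_eq]
    have e1 : Real.exp (c * (y + a) ^ 2 / 2)
        = Real.exp (c * (y ^ 2 + a ^ 2) / 2) * Real.exp (c * y * a) := by
      rw [← Real.exp_add]; congr 1; ring
    have e2 : Real.exp (c * (y - a) ^ 2 / 2)
        = Real.exp (c * (y ^ 2 + a ^ 2) / 2) * Real.exp (-(c * y * a)) := by
      rw [← Real.exp_add]; congr 1; ring
    rw [e1, e2]; ring
  rw [h1]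
  have h2 := Real.cosh_le_exp_half_sq (c * y * a)
  have h3 : Real.exp (c * (y ^ 2 + a ^ 2) / 2) * Real.cosh (c * y * a)
      ≤ Real.exp (c * (y ^ 2 + a ^ 2) / 2 + (c * y * a) ^ 2 / 2) := by
    rw [Real.exp_add]
    exact mul_le_mul_of_nonneg_left h2 (Real.exp_pos _).le
  refine mul_le_mul_of_nonneg_left (h3.trans (Real.exp_le_exp.2 ?_)) (by norm_num)
  have hpos : 0 < 1 - c * a ^ 2 := by linarith
  have h4 : c + c ^ 2 * a ^ 2 ≤ c / (1 - c * a ^ 2) := by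
    rw [le_div_iff₀ hpos]
    nlinarith [mul_nonneg hc (sq_nonneg (c * a ^ 2))]
  have h5 : c ≤ c / (1 - c * a ^ 2) := by
    have : 0 ≤ c ^ 2 * a ^ 2 := by positivity
    linarith
  nlinarith [mul_le_mul_of_nonneg_right h4 (sq_nonneg y), mul_le_mul_of_nonneg_right h5 (sq_nonneg a)]

lemma sum_exp : ∀ (N : ℕ) (a : Fin N → ℝ) (c y : ℝ), 0 ≤ c → c * (∑ j, a j ^ 2) < 1 →
    ∑ ε : Fin N → Bool, Real.exp (c * (y + ∑ j, sgn (ε j) * a j) ^ 2 / 2)
      ≤ 2 ^ N * Real.exp ((c / (1 - c * ∑ j, a j ^ 2)) * (y ^ 2 + ∑ j, a j ^ 2) / 2)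
  | 0, a, c, y, _, _ => by simp
  | N + 1, a, c, y, hc, h => by
    have hS : ∑ j, a j ^ 2 = a 0 ^ 2 + ∑ j : Fin N, a j.succ ^ 2 := Fin.sum_univ_succ _
    set S := ∑ j : Fin N, a j.succ ^ 2 with hSdef
    have hS0 : 0 ≤ S := Finset.sum_nonneg fun j _ => sq_nonneg _
    have hca : 0 ≤ c * a 0 ^ 2 := mul_nonneg hc (sq_nonneg _)
    have hcS : c * S < 1 := by
      rw [hS] at h; nlinarith
    have ih : ∀ y', ∑ ε : Fin N → Bool, Real.exp (c * (y' + ∑ j, sgn (ε j) * a j.succ) ^ 2 / 2)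
        ≤ 2 ^ N * Real.exp ((c / (1 - c * S)) * (y' ^ 2 + S) / 2) := fun y' =>
      sum_exp N (fun j => a j.succ) c y' hc hcS
    have hsplit : ∑ ε : Fin (N + 1) → Bool, Real.exp (c * (y + ∑ j, sgn (ε j) * a j) ^ 2 / 2)
        = ∑ b : Bool, ∑ ε : Fin N → Bool,
          Real.exp (c * ((y + sgn b * a 0) + ∑ j, sgn (ε j) * a j.succ) ^ 2 / 2) := by
      rw [← Finset.sum_product', Finset.univ_product_univ]
      symm
      apply Fintype.sum_equiv (Fin.consEquiv (fun _ => Bool))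
      rintro ⟨b, ε⟩
      congr 3
      simp [Fin.sum_univ_succ]
      ring
    rw [hsplit, Fintype.sum_bool]
    have h1 := ih (y + sgn true * a 0)
    have h2 := ih (y + sgn false * a 0)
    have hpos : 0 < 1 - c * S := by linarith
    set d := c / (1 - c * S) with hd
    have hd0 : 0 ≤ d := div_nonneg hc hpos.le
    have hda : d * a 0 ^ 2 < 1 := by
      rw [hd, div_mul_eq_mul_div, div_lt_one hpos]
      rw [hS] at h; linarith
    have h3 := two_exp d (a 0) y hd0 hda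
    have hd2 : d / (1 - d * a 0 ^ 2) = c / (1 - c * ∑ j, a j ^ 2) := by
      rw [hS, hd]
      have hne : 1 - c * S ≠ 0 := hpos.ne'
      have hne2 : 1 - c * (a 0 ^ 2 + S) ≠ 0 := by
        rw [hS] at h; linarith
      have hne3 : 1 - c / (1 - c * S) * a 0 ^ 2 ≠ 0 := by
        rw [hd] at hda; linarith
      rw [div_div, div_eq_div_iff (mul_ne_zero hne hne3) hne2]
      field_simp
      ring
    rw [hd2] at h3
    set D := c / (1 - c * ∑ j, a j ^ 2) with hD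
    have hdD : d ≤ D := by
      rw [← hd2, le_div_iff₀ (by linarith)]
      have : 0 ≤ d * (d * a 0 ^ 2) := by positivity
      nlinarith
    have e1 : Real.exp (d * ((y + sgn true * a 0) ^ 2 + S) / 2)
        = Real.exp (d * (y + a 0) ^ 2 / 2) * Real.exp (d * S / 2) := by
      rw [← Real.exp_add]; congr 1; simp [sgn]; ring
    have e2 : Real.exp (d * ((y + sgn false * a 0) ^ 2 + S) / 2)
        = Real.exp (d * (y - a 0) ^ 2 / 2) * Real.exp (d * S / 2) := by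
      rw [← Real.exp_add]; congr 1; simp [sgn]; ring
    rw [e1] at h1
    rw [e2] at h2
    have h4 : Real.exp (d * S / 2) ≤ Real.exp (D * S / 2) := by
      apply Real.exp_le_exp.2
      nlinarith [mul_le_mul_of_nonneg_right hdD hS0]
    calc _ ≤ 2 ^ N * (Real.exp (d * (y + a 0) ^ 2 / 2) * Real.exp (d * S / 2))
          + 2 ^ N * (Real.exp (d * (y - a 0) ^ 2 / 2) * Real.exp (d * S / 2)) := add_le_add h1 h2
      _ = 2 ^ N * (Real.exp (d * (y + a 0) ^ 2 / 2) + Real.exp (d * (y - a 0) ^ 2 / 2))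
          * Real.exp (d * S / 2) := by ring
      _ ≤ 2 ^ N * (2 * Real.exp (D * (y ^ 2 + a 0 ^ 2) / 2)) * Real.exp (D * S / 2) := by
          gcongr
      _ = 2 ^ (N + 1) * Real.exp (D * (y ^ 2 + ∑ j, a j ^ 2) / 2) := by
          have : Real.exp (D * (y ^ 2 + (a 0 ^ 2 + S)) / 2)
              = Real.exp (D * (y ^ 2 + a 0 ^ 2) / 2) * Real.exp (D * S / 2) := by
            rw [← Real.exp_add]; congr 1; ring
          rw [hS, this, pow_succ 2 N]; ring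

/-- The form used: if `c * Σ a_j² ≤ θ < 1` the mean is at most `exp (θ / (2 (1 - θ)))`. -/
lemma sum_exp' (N : ℕ) (a : Fin N → ℝ) (c θ : ℝ) (hc : 0 ≤ c) (hθ : θ < 1)
    (h : c * (∑ j, a j ^ 2) ≤ θ) :
    ∑ ε : Fin N → Bool, Real.exp (c * (∑ j, sgn (ε j) * a j) ^ 2 / 2)
      ≤ 2 ^ N * Real.exp (θ / (2 * (1 - θ))) := by
  have h1 := sum_exp N a c 0 hc (by linarith)
  simp only [zero_add] at h1
  refine h1.trans ?_
  have hpos : 0 < 1 - c * ∑ j, a j ^ 2 := by linarith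
  have hpos2 : 0 < 1 - θ := by linarith
  have h0 : 0 ≤ ∑ j, a j ^ 2 := Finset.sum_nonneg fun j _ => sq_nonneg _
  have h00 : 0 ≤ c * ∑ j, a j ^ 2 := mul_nonneg hc h0
  refine mul_le_mul_of_nonneg_left (Real.exp_le_exp.2 ?_) (by positivity)
  rw [zero_pow two_ne_zero, zero_add, div_mul_eq_mul_div, div_div, div_le_div_iff₀ (by linarith)
    (by linarith)]
  nlinarith

/-- Bound for `|sin|`. -/
lemma norm_sin_le (a b q : ℝ) (hq0 : 0 < q) (hq1 : q ≤ 1) (ha : |Real.sin a| ≤ q) :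
    ‖Complex.sin ((a : ℂ) + (b : ℂ) * Complex.I)‖ ≤ q * Real.exp (b ^ 2 / (2 * q ^ 2)) := by
  have hn : ‖Complex.sin ((a : ℂ) + (b : ℂ) * Complex.I)‖ ^ 2
      = Real.sin a ^ 2 + Real.sinh b ^ 2 := by
    rw [Complex.sin_add_mul_I, ← Complex.ofReal_sin, ← Complex.ofReal_cos, ← Complex.ofReal_sinh,
      ← Complex.ofReal_cosh, ← Complex.ofReal_mul, ← Complex.ofReal_mul, ← Complex.normSq_eq_norm_sq,
      Complex.normSq_add_mul_I]
    have h1 := Real.sin_sq_add_cos_sq a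
    have h2 := Real.cosh_sq b
    have h3 : Real.cos a ^ 2 = 1 - Real.sin a ^ 2 := by linarith
    rw [mul_pow, mul_pow, h2, h3]
    ring
  have hs : Real.sin a ^ 2 ≤ q ^ 2 := by
    rw [← sq_abs]
    exact pow_le_pow_left₀ (abs_nonneg _) ha 2
  have hsh : Real.sinh b ^ 2 ≤ Real.exp (b ^ 2) - 1 := by
    have h2 := Real.cosh_sq b
    have h3 := Real.cosh_le_exp_half_sq b
    have h4 : Real.cosh b ^ 2 ≤ Real.exp (b ^ 2 / 2) ^ 2 :=
      pow_le_pow_left₀ (Real.cosh_pos b).le h3 2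
    have h5 : Real.exp (b ^ 2 / 2) ^ 2 = Real.exp (b ^ 2) := by
      rw [← Real.exp_nat_mul]; congr 1; push_cast; ring
    rw [h5] at h4
    linarith
  have hq2 : 0 < q ^ 2 := by positivity
  have hq21 : q ^ 2 ≤ 1 := pow_le_one₀ hq0.le hq1
  have hber : Real.exp (b ^ 2) - 1 ≤ q ^ 2 * (Real.exp (b ^ 2 / q ^ 2) - 1) := by
    have hp : 1 ≤ 1 / q ^ 2 := by rw [le_div_iff₀ hq2]; linarith
    have h1 := one_add_mul_self_le_rpow_one_add (s := Real.exp (b ^ 2) - 1)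
      (by linarith [Real.exp_pos (b ^ 2)]) hp
    have h2 : (1 + (Real.exp (b ^ 2) - 1)) ^ (1 / q ^ 2) = Real.exp (b ^ 2 / q ^ 2) := by
      rw [add_sub_cancel, ← Real.exp_mul]; congr 1; ring
    rw [h2] at h1
    have h3 : q ^ 2 * (1 + 1 / q ^ 2 * (Real.exp (b ^ 2) - 1))
        = q ^ 2 + (Real.exp (b ^ 2) - 1) := by
      field_simp
    nlinarith [mul_le_mul_of_nonneg_left h1 hq2.le]
  have h6 : ‖Complex.sin ((a : ℂ) + (b : ℂ) * Complex.I)‖ ^ 2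
      ≤ (q * Real.exp (b ^ 2 / (2 * q ^ 2))) ^ 2 := by
    have h7 : (q * Real.exp (b ^ 2 / (2 * q ^ 2))) ^ 2 = q ^ 2 * Real.exp (b ^ 2 / q ^ 2) := by
      rw [mul_pow, ← Real.exp_nat_mul]
      congr 2
      push_cast
      field_simp
    rw [hn, h7]
    nlinarith
  exact le_of_sq_le_sq h6 (by positivity)

/-- The coefficients of the linear form `μ x₀ + i ν Σ_j ± x_{j+1}`. -/
noncomputable def coef (N : ℕ) (μ ν : ℝ) (ε : Fin N → Bool) : Fin (N + 1) → ℂ :=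
  Fin.cons (μ : ℂ) (fun j => ((ν * sgn (ε j) : ℝ) : ℂ) * Complex.I)

/-- The linear form `μ x₀ + i ν Σ_j ± x_{j+1}`. -/
noncomputable def form (N : ℕ) (μ ν : ℝ) (ε : Fin N → Bool) :
    EuclideanSpace ℝ (Fin (N + 1)) →L[ℝ] ℂ :=
  ∑ i, (EuclideanSpace.proj i : EuclideanSpace ℝ (Fin (N + 1)) →L[ℝ] ℝ).smulRight (coef N μ ν ε i)

lemma form_apply' (N : ℕ) (μ ν : ℝ) (ε : Fin N → Bool) (x : EuclideanSpace ℝ (Fin (N + 1))) :
    form N μ ν ε x = ∑ i, (x i : ℂ) * coef N μ ν ε i := by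
  simp [form]

lemma form_apply (N : ℕ) (μ ν : ℝ) (ε : Fin N → Bool) (x : EuclideanSpace ℝ (Fin (N + 1))) :
    form N μ ν ε x = ((μ * x 0 : ℝ) : ℂ)
      + ((ν * ∑ j, sgn (ε j) * x j.succ : ℝ) : ℂ) * Complex.I := by
  rw [form_apply', Fin.sum_univ_succ]
  simp only [coef, Fin.cons_zero, Fin.cons_succ]
  push_cast
  rw [Finset.mul_sum, Finset.sum_mul]
  congr 1
  · ring
  · exact Finset.sum_congr rfl fun j _ => by ring

lemma form_sq (N : ℕ) (μ ν : ℝ) (ε : Fin N → Bool) (h : ν ^ 2 * N = μ ^ 2) :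
    ∑ i, (form N μ ν ε (EuclideanSpace.basisFun (Fin (N + 1)) ℝ i)) ^ 2 = 0 := by
  have h1 : ∀ i, form N μ ν ε (EuclideanSpace.basisFun (Fin (N + 1)) ℝ i) = coef N μ ν ε i := by
    intro i
    rw [form_apply']
    rw [Finset.sum_eq_single i]
    · simp
    · intro j _ hj
      simp [hj]
    · simp
  simp only [h1]
  rw [Fin.sum_univ_succ]
  simp only [coef, Fin.cons_zero, Fin.cons_succ]
  have h2 : ∀ j : Fin N, (((ν * sgn (ε j) : ℝ) : ℂ) * Complex.I) ^ 2 = ((-(ν ^ 2) : ℝ) : ℂ) := by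
    intro j
    rw [mul_pow, Complex.I_sq, ← Complex.ofReal_pow, mul_pow, sgn_sq]
    push_cast; ring
  rw [Finset.sum_congr rfl fun j _ => h2 j]
  simp only [Finset.sum_const, Finset.card_univ, Fintype.card_fin, nsmul_eq_mul]
  rw [← Complex.ofReal_pow, ← h]
  push_cast; ring

/-- The test function, the mean of `sin ^ m` of the `2 ^ N` linear forms. -/
noncomputable def testFun (N m : ℕ) (μ ν : ℝ) (x : EuclideanSpace ℝ (Fin (N + 1))) : ℂ :=
  ∑ ε : Fin N → Bool, (1 / 2 : ℂ) ^ N * Complex.sin (form N μ ν ε x) ^ m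

lemma testFun_harmonicAt (N m : ℕ) (μ ν : ℝ) (h : ν ^ 2 * N = μ ^ 2)
    (x : EuclideanSpace ℝ (Fin (N + 1))) : HarmonicAt (testFun N m μ ν) x := by
  refine harmonicAt_sum Finset.univ
    (fun (ε : Fin N → Bool) y => (1 / 2 : ℂ) ^ N * Complex.sin (form N μ ν ε y) ^ m) x ?_
  intro ε _
  exact harmonicAt_comp (EuclideanSpace.basisFun (Fin (N + 1)) ℝ) (form N μ ν ε)
    (form_sq N μ ν ε h) (fun z => (1 / 2 : ℂ) ^ N * Complex.sin z ^ m)
    ((Complex.differentiable_sin.pow m).const_mul _) x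

lemma norm_testFun_le (N m : ℕ) (μ ν q θ : ℝ) (hq0 : 0 < q) (hq1 : q ≤ 1) (hθ : θ < 1)
    (x : EuclideanSpace ℝ (Fin (N + 1))) (hx0 : |Real.sin (μ * x 0)| ≤ q)
    (hx : m * ν ^ 2 / q ^ 2 * ∑ j : Fin N, x j.succ ^ 2 ≤ θ) :
    ‖testFun N m μ ν x‖ ≤ q ^ m * Real.exp (θ / (2 * (1 - θ))) := by
  have h1 : ∀ ε : Fin N → Bool, ‖(1 / 2 : ℂ) ^ N * Complex.sin (form N μ ν ε x) ^ m‖
      ≤ (1 / 2 : ℝ) ^ N * (q ^ m *
        Real.exp ((m * ν ^ 2 / q ^ 2) * (∑ j, sgn (ε j) * x j.succ) ^ 2 / 2)) := by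
    intro ε
    rw [norm_mul, norm_pow, norm_pow]
    have h2 := norm_sin_le (μ * x 0) (ν * ∑ j, sgn (ε j) * x j.succ) q hq0 hq1 hx0
    rw [form_apply]
    have h3 := pow_le_pow_left₀ (norm_nonneg _) h2 m
    have h4 : (q * Real.exp ((ν * ∑ j, sgn (ε j) * x j.succ) ^ 2 / (2 * q ^ 2))) ^ m
        = q ^ m * Real.exp ((m * ν ^ 2 / q ^ 2) * (∑ j, sgn (ε j) * x j.succ) ^ 2 / 2) := by
      rw [mul_pow, ← Real.exp_nat_mul]
      congr 2
      field_simp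
    rw [h4] at h3
    have h5 : ‖(1 / 2 : ℂ)‖ = 1 / 2 := by norm_num
    rw [h5]
    exact mul_le_mul_of_nonneg_left h3 (by positivity)
  have h6 := sum_exp' N (fun j => x j.succ) (m * ν ^ 2 / q ^ 2) θ (by positivity) hθ hx
  calc ‖testFun N m μ ν x‖ ≤ ∑ ε : Fin N → Bool,
        ‖(1 / 2 : ℂ) ^ N * Complex.sin (form N μ ν ε x) ^ m‖ := norm_sum_le _ _
    _ ≤ ∑ ε : Fin N → Bool, (1 / 2 : ℝ) ^ N * (q ^ m *
        Real.exp ((m * ν ^ 2 / q ^ 2) * (∑ j, sgn (ε j) * x j.succ) ^ 2 / 2)) :=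
        Finset.sum_le_sum fun ε _ => h1 ε
    _ = (1 / 2 : ℝ) ^ N * q ^ m * ∑ ε : Fin N → Bool,
        Real.exp ((m * ν ^ 2 / q ^ 2) * (∑ j, sgn (ε j) * x j.succ) ^ 2 / 2) := by
        rw [Finset.mul_sum]
        exact Finset.sum_congr rfl fun ε _ => by ring
    _ ≤ (1 / 2 : ℝ) ^ N * q ^ m * (2 ^ N * Real.exp (θ / (2 * (1 - θ)))) :=
        mul_le_mul_of_nonneg_left h6 (by positivity)
    _ = ((1 / 2 : ℝ) * 2) ^ N * (q ^ m * Real.exp (θ / (2 * (1 - θ)))) := by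
        rw [mul_pow]; ring
    _ = q ^ m * Real.exp (θ / (2 * (1 - θ))) := by norm_num

lemma testFun_axis (N m : ℕ) (μ ν s : ℝ) :
    testFun N m μ ν (EuclideanSpace.single 0 s) = ((Real.sin (μ * s) ^ m : ℝ) : ℂ) := by
  have h1 : ∀ ε : Fin N → Bool, form N μ ν ε (EuclideanSpace.single 0 s) = ((μ * s : ℝ) : ℂ) := by
    intro ε
    rw [form_apply]
    simp
  simp only [testFun, h1, Finset.sum_const, Finset.card_univ, Fintype.card_fun, Fintype.card_bool,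
    Fintype.card_fin, nsmul_eq_mul]
  push_cast
  rw [← mul_assoc, ← mul_pow]
  norm_num

lemma sum_sq_eq {N : ℕ} (x : EuclideanSpace ℝ (Fin (N + 1))) :
    x 0 ^ 2 + ∑ j : Fin N, x j.succ ^ 2 = ‖x‖ ^ 2 := by
  rw [EuclideanSpace.norm_sq_eq, Fin.sum_univ_succ]
  simp

/-- The bound on the unit ball. -/
lemma testFun_le_one {N m : ℕ} (hN : 0 < N) {μ θ : ℝ} (hθ : θ < 1) (hm : μ ^ 2 * m ≤ θ * N)
    {x : EuclideanSpace ℝ (Fin (N + 1))} (hx : ‖x‖ < 1) :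
    ‖testFun N m μ (μ / √N) x‖ ≤ Real.exp (θ / (2 * (1 - θ))) := by
  have hN' : (0 : ℝ) < N := by exact_mod_cast hN
  have h := norm_testFun_le N m μ (μ / √N) 1 θ one_pos le_rfl hθ x (Real.abs_sin_le_one _) ?_
  · simpa using h
  · have h1 := sum_sq_eq x
    have h2 : ‖x‖ ^ 2 ≤ 1 := pow_le_one₀ (norm_nonneg _) hx.le
    have h3 : ∑ j : Fin N, x j.succ ^ 2 ≤ 1 := by nlinarith [sq_nonneg (x 0)]
    have h4 : (m : ℝ) * (μ / √N) ^ 2 / 1 ^ 2 ≤ θ := by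
      rw [div_pow, Real.sq_sqrt hN'.le, one_pow, div_one, ← mul_div_assoc, div_le_iff₀ hN']
      linarith
    have h5 : 0 ≤ (m : ℝ) * (μ / √N) ^ 2 / 1 ^ 2 := by positivity
    have h6 : 0 ≤ ∑ j : Fin N, x j.succ ^ 2 := Finset.sum_nonneg fun j _ => sq_nonneg _
    nlinarith

/-- The bound on the ball of radius `ρ`. -/
lemma testFun_le_rho {N m : ℕ} (hN : 0 < N) {μ θ ρ : ℝ} (hθ : θ < 1) (hm : μ ^ 2 * m ≤ θ * N)
    (hρ0 : 0 < ρ) (hμ : Real.pi / 2 ≤ μ) (hμρ : μ * ρ ≤ Real.pi / 2)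
    {x : EuclideanSpace ℝ (Fin (N + 1))} (hx : ‖x‖ < ρ) :
    ‖testFun N m μ (μ / √N) x‖ ≤ Real.sin (μ * ρ) ^ m * Real.exp (θ / (2 * (1 - θ))) := by
  have hN' : (0 : ℝ) < N := by exact_mod_cast hN
  have hπ := Real.pi_pos
  have hμ0 : 0 < μ := by linarith
  have hμρ0 : 0 < μ * ρ := mul_pos hμ0 hρ0
  have hjor : 2 / Real.pi * (μ * ρ) ≤ Real.sin (μ * ρ) := Real.mul_le_sin hμρ0.le hμρ
  have hρq : ρ ≤ Real.sin (μ * ρ) := by
    refine le_trans ?_ hjor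
    rw [div_mul_eq_mul_div, le_div_iff₀ hπ]
    nlinarith
  have hq0 : 0 < Real.sin (μ * ρ) := hρ0.trans_le hρq
  have h1 := sum_sq_eq x
  have h2 : ‖x‖ ^ 2 ≤ ρ ^ 2 := pow_le_pow_left₀ (norm_nonneg _) hx.le 2
  have h3 : ∑ j : Fin N, x j.succ ^ 2 ≤ ρ ^ 2 := by nlinarith [sq_nonneg (x 0)]
  have h6 : 0 ≤ ∑ j : Fin N, x j.succ ^ 2 := Finset.sum_nonneg fun j _ => sq_nonneg _
  have h7 : |x 0| ≤ ρ := by
    apply abs_le_of_sq_le_sq _ hρ0.le
    nlinarith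
  refine norm_testFun_le N m μ (μ / √N) _ θ hq0 (Real.sin_le_one _) hθ x ?_ ?_
  · have h8 : |μ * x 0| ≤ μ * ρ := by
      rw [abs_mul, abs_of_pos hμ0]
      exact mul_le_mul_of_nonneg_left h7 hμ0.le
    rw [Real.abs_sin_eq_sin_abs_of_abs_le_pi (by linarith)]
    exact Real.sin_le_sin_of_le_of_le_pi_div_two (by linarith [abs_nonneg (μ * x 0)]) hμρ h8
  · have h4 : (m : ℝ) * (μ / √N) ^ 2 ≤ θ := by
      rw [div_pow, Real.sq_sqrt hN'.le, ← mul_div_assoc, div_le_iff₀ hN']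
      linarith
    have h5 : 0 ≤ (m : ℝ) * (μ / √N) ^ 2 := by positivity
    have h8 : ∑ j : Fin N, x j.succ ^ 2 ≤ Real.sin (μ * ρ) ^ 2 :=
      h3.trans (pow_le_pow_left₀ hρ0.le hρq 2)
    have hq2 : 0 < Real.sin (μ * ρ) ^ 2 := by positivity
    rw [div_mul_eq_mul_div, div_le_iff₀ hq2]
    calc (m : ℝ) * (μ / √N) ^ 2 * ∑ j : Fin N, x j.succ ^ 2
        ≤ (m : ℝ) * (μ / √N) ^ 2 * Real.sin (μ * ρ) ^ 2 := mul_le_mul_of_nonneg_left h8 h5
      _ ≤ θ * Real.sin (μ * ρ) ^ 2 := mul_le_mul_of_nonneg_right h4 hq2.le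

lemma freq_sq {N : ℕ} (hN : 0 < N) (μ : ℝ) : (μ / √N) ^ 2 * N = μ ^ 2 := by
  have hN' : (0 : ℝ) < N := by exact_mod_cast hN
  rw [div_pow, Real.sq_sqrt hN'.le]
  field_simp

end ThreeBallsHD
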