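import Mathlib
import Pool.Agent.Lib.MP_e54599_an.HighDim

/-!
A zonal harmonic polynomial of degree seven on `ℝ^3`, as a function on `ℝ^(N+3)`: it is bounded by
`1` on the unit ball, vanishes at the origin, and has radial derivative `211/429 < 1/2` at the
point `e₀` where it takes the value `1`.
-/

open InnerProductSpace

namespace ThreeBallsHD

/-- The polynomial, as a function of `z = x₀` and `w = x₁² + x₂²`. -/
noncomputable def P7 (z w : ℝ) : ℝ :=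
  4 / 3 * z - 14 / 33 * (z ^ 3 - 3 / 2 * z * w) + 4 / 39 * (z ^ 5 - 5 * z ^ 3 * w + 15 / 8 * z * w ^ 2)
    - 5 / 429 * (z ^ 7 - 21 / 2 * z ^ 5 * w + 105 / 8 * z ^ 3 * w ^ 2 - 35 / 16 * z * w ^ 3)

lemma P7_neg (z w : ℝ) : P7 (-z) w = -P7 z w := by unfold P7; ring

lemma P7_sphere (z : ℝ) :
    P7 z (1 - z ^ 2) = 1 - (1 - z) ^ 4 * (16 + 29 * z + 20 * z ^ 2 + 5 * z ^ 3) / 16 := by
  unfold P7; ring

lemma P7_sphere' (z : ℝ) :
    P7 z (1 - z ^ 2) = 35 / 16 * z - 35 / 16 * z ^ 3 * (1 - 3 / 5 * z ^ 2 + 1 / 7 * z ^ 4) := by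
  unfold P7; ring

lemma P7_mono {z w w' : ℝ} (hz : 0 ≤ z) (hw : 0 ≤ w) (hww : w ≤ w') (h : z ^ 2 + w' ≤ 1) :
    P7 z w ≤ P7 z w' := by
  have key : P7 z w' - P7 z w = z * (w' - w) * (7 / 11 + 4 / 39 * (-5 * z ^ 2 + 15 / 8 * (w + w'))
      + 5 / 429 * (21 / 2 * z ^ 4 - 105 / 8 * (z ^ 2 * (w + w'))
        + 35 / 16 * (w ^ 2 + w * w' + w' ^ 2))) := by
    unfold P7; ring
  have hw' : 0 ≤ w' := hw.trans hww
  have h1 : z ^ 2 * (w + w') ≤ 1 / 2 := by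
    have h2 : z ^ 2 * (w + w') ≤ z ^ 2 * (2 * (1 - z ^ 2)) :=
      mul_le_mul_of_nonneg_left (by linarith) (sq_nonneg z)
    nlinarith [sq_nonneg (z ^ 2 - 1 / 2)]
  have h3 : 0 ≤ w * w' := mul_nonneg hw hw'
  have hQ : 0 ≤ 7 / 11 + 4 / 39 * (-5 * z ^ 2 + 15 / 8 * (w + w'))
      + 5 / 429 * (21 / 2 * z ^ 4 - 105 / 8 * (z ^ 2 * (w + w'))
        + 35 / 16 * (w ^ 2 + w * w' + w' ^ 2)) := by
    have h4 : 0 ≤ z ^ 4 := by positivity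
    nlinarith [sq_nonneg w, sq_nonneg w']
  have h5 : 0 ≤ z * (w' - w) := mul_nonneg hz (by linarith)
  nlinarith [mul_nonneg h5 hQ]

lemma P7_axis_nonneg {z : ℝ} (hz : 0 ≤ z) (hz1 : z ≤ 1) : 0 ≤ P7 z 0 := by
  have h : P7 z 0 = z * (4 / 3 - 14 / 33 * z ^ 2 + 4 / 39 * z ^ 4 - 5 / 429 * z ^ 6) := by
    unfold P7; ring
  rw [h]
  have h2 : z ^ 2 ≤ 1 := pow_le_one₀ hz hz1
  have h6 : z ^ 6 ≤ 1 := pow_le_one₀ hz hz1
  have h4 : 0 ≤ z ^ 4 := by positivity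
  exact mul_nonneg hz (by linarith)

lemma P7_bounds {z w : ℝ} (hz : 0 ≤ z) (hw : 0 ≤ w) (h : z ^ 2 + w ≤ 1) :
    0 ≤ P7 z w ∧ P7 z w ≤ 1 ∧ P7 z w ≤ 35 / 16 * z := by
  have hz1 : z ≤ 1 := by nlinarith
  have h0 : P7 z 0 ≤ P7 z w := P7_mono hz le_rfl hw h
  have h1 : P7 z w ≤ P7 z (1 - z ^ 2) := P7_mono hz hw (by linarith) (by linarith)
  refine ⟨(P7_axis_nonneg hz hz1).trans h0, h1.trans ?_, h1.trans ?_⟩
  · rw [P7_sphere]
    have : 0 ≤ (1 - z) ^ 4 * (16 + 29 * z + 20 * z ^ 2 + 5 * z ^ 3) / 16 := by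
      have : 0 ≤ 1 - z := by linarith
      positivity
    linarith
  · rw [P7_sphere']
    have h2 : z ^ 2 ≤ 1 := pow_le_one₀ hz hz1
    have h3 : 0 ≤ z ^ 3 * (1 - 3 / 5 * z ^ 2 + 1 / 7 * z ^ 4) := by
      have h4 : 0 ≤ z ^ 4 := by positivity
      exact mul_nonneg (by positivity) (by linarith)
    nlinarith

lemma abs_P7 {z w : ℝ} (hw : 0 ≤ w) (h : z ^ 2 + w ≤ 1) :
    |P7 z w| ≤ 1 ∧ |P7 z w| ≤ 35 / 16 * |z| := by
  rcases le_total 0 z with hz | hz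
  · obtain ⟨h0, h1, h2⟩ := P7_bounds hz hw h
    rw [abs_of_nonneg h0, abs_of_nonneg hz]
    exact ⟨h1, h2⟩
  · obtain ⟨h0, h1, h2⟩ := P7_bounds (z := -z) (by linarith) hw (by rw [neg_sq]; exact h)
    rw [P7_neg] at h0 h1 h2
    rw [← abs_neg, abs_of_nonneg h0, abs_of_nonpos hz]
    exact ⟨h1, h2⟩

/-- On the axis the polynomial is larger than the square root. -/
lemma sq_lt_P7_axis {r : ℝ} (h0 : 49 / 50 ≤ r) (h1 : r < 1) : r < P7 r 0 ^ 2 ∧ 0 < P7 r 0 := by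
  obtain ⟨h, rfl⟩ : ∃ h, r = 1 - h := ⟨1 - r, by ring⟩
  have hh0 : 0 < h := by linarith
  have hh1 : h ≤ 1 / 50 := by linarith
  have hlow : 1 - 211 / 429 * h - 211 / 429 * h ^ 2 - h ^ 3 ≤ P7 (1 - h) 0 := by
    unfold P7
    have h3 : 0 ≤ h ^ 3 := by positivity
    have h4 : 0 ≤ h ^ 4 := by positivity
    have h5 : 0 ≤ h ^ 5 := by positivity
    have h6 : 0 ≤ h ^ 6 := by positivity
    have h7 : 0 ≤ h ^ 7 := by positivity
    have h34 : h ^ 4 ≤ 1 / 50 * h ^ 3 := by nlinarith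
    have h35 : h ^ 5 ≤ 1 / 50 * h ^ 4 := by nlinarith
    have h36 : h ^ 6 ≤ 1 / 50 * h ^ 5 := by nlinarith
    have h37 : h ^ 7 ≤ 1 / 50 * h ^ 6 := by nlinarith
    nlinarith
  set k := 211 / 429 * h + 211 / 429 * h ^ 2 + h ^ 3 with hk
  have hh2 : h ^ 2 ≤ 1 / 50 * h := by nlinarith
  have hh2' : 0 < h ^ 2 := by positivity
  have hh3 : h ^ 3 ≤ 1 / 50 * h ^ 2 := by nlinarith
  have hh3' : 0 < h ^ 3 := by positivity
  have hk0 : 211 / 429 * h ≤ k := by rw [hk]; linarith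
  have hk1 : k ≤ 1 / 2 := by rw [hk]; linarith
  have hL : 1 - k ≤ P7 (1 - h) 0 := by rw [hk]; linarith
  have hk2 : (211 / 429 * h) ^ 2 ≤ k ^ 2 := pow_le_pow_left₀ (by positivity) hk0 2
  have h8 : (1 - k) ^ 2 ≤ P7 (1 - h) 0 ^ 2 := pow_le_pow_left₀ (by linarith) hL 2
  refine ⟨?_, by linarith⟩
  nlinarith

/-- The linear form `x₀ + i (a x₁ + b x₂)`. -/
noncomputable def coef3 (N : ℕ) (a b : ℝ) : Fin (N + 3) → ℂ :=
  Fin.cons 1 (Fin.cons (a * Complex.I) (Fin.cons (b * Complex.I) fun _ => 0))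

/-- The linear form `x₀ + i (a x₁ + b x₂)`. -/
noncomputable def form3 (N : ℕ) (a b : ℝ) : EuclideanSpace ℝ (Fin (N + 3)) →L[ℝ] ℂ :=
  ∑ i, (EuclideanSpace.proj i : EuclideanSpace ℝ (Fin (N + 3)) →L[ℝ] ℝ).smulRight (coef3 N a b i)

lemma form3_apply' (N : ℕ) (a b : ℝ) (x : EuclideanSpace ℝ (Fin (N + 3))) :
    form3 N a b x = ∑ i, (x i : ℂ) * coef3 N a b i := by
  simp [form3]

lemma form3_apply (N : ℕ) (a b : ℝ) (x : EuclideanSpace ℝ (Fin (N + 3))) :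
    form3 N a b x = (x 0 : ℂ) + ((a * x 1 + b * x 2 : ℝ) : ℂ) * Complex.I := by
  rw [form3_apply', Fin.sum_univ_succ, Fin.sum_univ_succ, Fin.sum_univ_succ]
  simp only [coef3, Fin.cons_zero, Fin.cons_succ, mul_zero, Finset.sum_const_zero]
  simp only [Fin.succ_zero_eq_one, Fin.succ_one_eq_two]
  push_cast
  ring

lemma form3_sq (N : ℕ) (a b : ℝ) (h : a ^ 2 + b ^ 2 = 1) :
    ∑ i, (form3 N a b (EuclideanSpace.basisFun (Fin (N + 3)) ℝ i)) ^ 2 = 0 := by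
  have h1 : ∀ i, form3 N a b (EuclideanSpace.basisFun (Fin (N + 3)) ℝ i) = coef3 N a b i := by
    intro i
    rw [form3_apply']
    rw [Finset.sum_eq_single i]
    · simp
    · intro j _ hj
      simp [hj]
    · simp
  simp only [h1]
  rw [Fin.sum_univ_succ, Fin.sum_univ_succ, Fin.sum_univ_succ]
  simp only [coef3, Fin.cons_zero, Fin.cons_succ]
  have h2 : (a : ℂ) ^ 2 + (b : ℂ) ^ 2 = 1 := by exact_mod_cast h
  simp only [mul_pow, Complex.I_sq]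
  simp
  linear_combination -h2

/-- Real part of `4/3 ζ - 14/33 ζ³ + 4/39 ζ⁵ - 5/429 ζ⁷` at `ζ = z + i ℓ`, `q = ℓ²`. -/
noncomputable def G7 (z q : ℝ) : ℝ :=
  4 / 3 * z - 14 / 33 * (z ^ 3 - 3 * z * q) + 4 / 39 * (z ^ 5 - 10 * z ^ 3 * q + 5 * z * q ^ 2)
    - 5 / 429 * (z ^ 7 - 21 * z ^ 5 * q + 35 * z ^ 3 * q ^ 2 - 7 * z * q ^ 3)

lemma pair_eq (z l c : ℝ) :
    (c / 2 : ℂ) * (4 / 3 * (z + l * Complex.I) - 14 / 33 * (z + l * Complex.I) ^ 3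
        + 4 / 39 * (z + l * Complex.I) ^ 5 - 5 / 429 * (z + l * Complex.I) ^ 7)
      + (c / 2 : ℂ) * (4 / 3 * (z + (-l) * Complex.I) - 14 / 33 * (z + (-l) * Complex.I) ^ 3
        + 4 / 39 * (z + (-l) * Complex.I) ^ 5 - 5 / 429 * (z + (-l) * Complex.I) ^ 7)
      = ((c * G7 z (l ^ 2) : ℝ) : ℂ) := by
  have h2 : Complex.I ^ 2 = -1 := Complex.I_sq
  have h4 : Complex.I ^ 4 = 1 := Complex.I_pow_four
  have h6 : Complex.I ^ 6 = -1 := by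
    calc Complex.I ^ 6 = Complex.I ^ 4 * Complex.I ^ 2 := by ring
      _ = -1 := by rw [h2, h4]; ring
  unfold G7
  push_cast
  linear_combination (c : ℂ) * ((-14 / 33 * (3 * z * l ^ 2) + 4 / 39 * (10 * z ^ 3 * l ^ 2)
      - 5 / 429 * (21 * z ^ 5 * l ^ 2)) * h2
    + (4 / 39 * (5 * z * l ^ 4) - 5 / 429 * (35 * z ^ 3 * l ^ 4)) * h4
    - 5 / 429 * (7 * z * l ^ 6) * h6)

lemma harm_pair (N : ℕ) (a b c : ℝ) (h : a ^ 2 + b ^ 2 = 1) (x : EuclideanSpace ℝ (Fin (N + 3))) :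
    HarmonicAt (fun y : EuclideanSpace ℝ (Fin (N + 3)) =>
      ((c * G7 (y 0) ((a * y 1 + b * y 2) ^ 2) : ℝ) : ℂ)) x := by
  have hF : Differentiable ℂ fun ζ : ℂ => (c / 2 : ℂ) * (4 / 3 * ζ - 14 / 33 * ζ ^ 3
      + 4 / 39 * ζ ^ 5 - 5 / 429 * ζ ^ 7) := by fun_prop
  have h1 := harmonicAt_comp (EuclideanSpace.basisFun (Fin (N + 3)) ℝ) (form3 N a b)
    (form3_sq N a b h) _ hF x
  have h2 := harmonicAt_comp (EuclideanSpace.basisFun (Fin (N + 3)) ℝ) (form3 N (-a) (-b))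
    (form3_sq N (-a) (-b) (by rw [neg_sq, neg_sq]; exact h)) _ hF x
  refine (harmonicAt_congr_nhds (Filter.Eventually.of_forall fun y => ?_)).1 (h1.add h2)
  rw [← pair_eq, Pi.add_apply, form3_apply, form3_apply]
  push_cast
  ring

/-- The test function on `ℝ^(N+3)`. -/
noncomputable def test7 (N : ℕ) (x : EuclideanSpace ℝ (Fin (N + 3))) : ℂ :=
  ((P7 (x 0) (x 1 ^ 2 + x 2 ^ 2) : ℝ) : ℂ)

lemma test7_harmonicAt (N : ℕ) (x : EuclideanSpace ℝ (Fin (N + 3))) :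
    HarmonicAt (test7 N) x := by
  have h1 := harm_pair N 1 0 (527 / 2304) (by norm_num) x
  have h2 := harm_pair N 0 1 (527 / 2304) (by norm_num) x
  have h3 := harm_pair N (3 / 5) (4 / 5) (625 / 4608) (by norm_num) x
  have h4 := harm_pair N (3 / 5) (-4 / 5) (625 / 4608) (by norm_num) x
  have h5 := harm_pair N (4 / 5) (3 / 5) (625 / 4608) (by norm_num) x
  have h6 := harm_pair N (4 / 5) (-3 / 5) (625 / 4608) (by norm_num) x
  refine (harmonicAt_congr_nhds (Filter.Eventually.of_forall fun y => ?_)).1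
    (((((h1.add h2).add h3).add h4).add h5).add h6)
  simp only [Pi.add_apply, test7]
  rw [← Complex.ofReal_add, ← Complex.ofReal_add, ← Complex.ofReal_add, ← Complex.ofReal_add,
    ← Complex.ofReal_add]
  congr 1
  unfold G7 P7
  ring

lemma three_sq_le {N : ℕ} (x : EuclideanSpace ℝ (Fin (N + 3))) :
    x 0 ^ 2 + (x 1 ^ 2 + x 2 ^ 2) ≤ ‖x‖ ^ 2 := by
  rw [EuclideanSpace.norm_sq_eq, Fin.sum_univ_succ, Fin.sum_univ_succ, Fin.sum_univ_succ]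
  have h : 0 ≤ ∑ i : Fin N, ‖x i.succ.succ.succ‖ ^ 2 := Finset.sum_nonneg fun j _ => sq_nonneg _
  simp only [Fin.succ_zero_eq_one, Fin.succ_one_eq_two, Real.norm_eq_abs, sq_abs] at h ⊢
  linarith

lemma norm_test7_le {N : ℕ} {x : EuclideanSpace ℝ (Fin (N + 3))} (hx : ‖x‖ < 1) :
    ‖test7 N x‖ ≤ 1 ∧ ‖test7 N x‖ ≤ 35 / 16 * ‖x‖ := by
  have h1 := three_sq_le x
  have h2 : ‖x‖ ^ 2 ≤ 1 := pow_le_one₀ (norm_nonneg _) hx.le
  have h3 : 0 ≤ x 1 ^ 2 + x 2 ^ 2 := by positivity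
  obtain ⟨h4, h5⟩ := abs_P7 (z := x 0) h3 (by linarith)
  have h6 : |x 0| ≤ ‖x‖ := by
    apply abs_le_of_sq_le_sq _ (norm_nonneg x)
    linarith
  rw [test7, Complex.norm_real, Real.norm_eq_abs]
  exact ⟨h4, h5.trans (by linarith)⟩

lemma test7_axis (N : ℕ) (s : ℝ) :
    test7 N (EuclideanSpace.single 0 s) = ((P7 s 0 : ℝ) : ℂ) := by
  have h2 : (2 : Fin (N + 3)) ≠ 0 := by
    rw [← Fin.succ_one_eq_two]
    exact Fin.succ_ne_zero _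
  rw [test7]
  congr 2
  simp [h2]

end ThreeBallsHD
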