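import Mathlib
import Pool.Agent.Lib.MP_e54599_an.Basic
import Pool.Agent.Lib.MP_e54599_an.Numeric
import Pool.Agent.Lib.MP_e54599_an.Core

/-!
The half plane inequality `g(β) ≤ ε^(β/2)`.
-/

namespace ThreeBalls

open Complex Set Filter Topology
open Complex.HadamardThreeLines

/-- The comparison step. -/
lemma hp_compare {g : ℂ → ℂ} {ε : ℝ} (h : HP g ε) (hε : 0 < ε) (hε1 : ε ≤ 6 / 25)
    {L : ℝ} (hL : L = -Real.log ε) (hL1 : 1 < L) {α lam mu c₀ : ℝ}
    (hc₀ : c₀ = Real.exp 1 / 2 * ε * L) (hα : α = (8 / 5) / (Real.exp 1 * L))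
    (hmu : mu = 1 / (2 * (1 + (2 + α) ^ 2)))
    (hlam : lam = -Real.log c₀ - 1 / 2 * Real.log (1 + (2 + α) ^ 2)) {β : ℝ}
    (hβ : 0 < β) (hβ1 : β < 1) :
    ‖Phi g β‖ * Real.exp (lam * β + mu * β ^ 2) * ((1 + α + β) / (1 + α - β)) ≤ 1 := by
  have hpi := Real.pi_pos
  have hL0 : 0 < L := by linarith
  have hα0 : 0 < α := by rw [hα]; positivity
  have hc0 : 0 < c₀ := by rw [hc₀]; positivity
  set A := (2 + α) ^ 2 with hA
  have hA0 : 0 < A := by positivity
  have hmu0 : 0 < mu := by rw [hmu]; positivity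
  -- differentiability
  set S : Set ℂ := {w | 0 < w.re ∧ w.re ≤ 1} with hS
  set Q : ℂ → ℂ := fun w => Phi g w * Complex.exp (lam * w + mu * w ^ 2) *
    ((((1 + α : ℝ) : ℂ) + w) / (((1 + α : ℝ) : ℂ) - w)) with hQ
  have hden : ∀ w ∈ S, ((1 + α : ℝ) : ℂ) - w ≠ 0 := by
    intro w hw h0
    have h1 := congrArg Complex.re h0
    rw [Complex.sub_re, Complex.ofReal_re, Complex.zero_re] at h1
    linarith [hw.2]
  have hSsub : S ⊆ {w : ℂ | 0 < w.re} := fun w hw => hw.1
  have hPhid : DifferentiableOn ℂ (Phi g) S := by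
    have hgd : DifferentiableOn ℂ g S := h.diff.mono hSsub
    have hE : DifferentiableOn ℂ
        (fun w => Complex.exp (((Real.pi / 2 : ℝ) : ℂ) * (Complex.I * g w))) S :=
      ((hgd.const_mul Complex.I).const_mul _).cexp
    exact (hE.sub_const 1).div (hE.add_const 1) fun w hw => den_ne_zero (h.bd w hw.1)
  have hQd : DifferentiableOn ℂ Q S := by
    refine (hPhid.mul ?_).mul ?_
    · exact (by fun_prop : Differentiable ℂ
        (fun w : ℂ => Complex.exp (lam * w + mu * w ^ 2))).differentiableOn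
    · refine DifferentiableOn.div (by fun_prop) (by fun_prop) hden
  -- the norm of `Q`
  have hexp : ∀ w : ℂ, ‖Complex.exp (lam * w + mu * w ^ 2)‖ =
      Real.exp (lam * w.re + mu * (w.re ^ 2 - w.im ^ 2)) := by
    intro w
    rw [Complex.norm_exp]
    congr 1
    rw [Complex.add_re, Complex.re_ofReal_mul, Complex.re_ofReal_mul, sq, Complex.mul_re]
    ring
  have hfrac : ∀ w ∈ S, ‖(((1 + α : ℝ) : ℂ) + w) / (((1 + α : ℝ) : ℂ) - w)‖ ≤
      (1 + α + w.re) / (1 + α - w.re) := by
    intro w hw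
    have h1 := frac_norm_le (α := α) (x := w.re) (y := w.im) hw.1.le (by linarith [hw.2])
    rw [Complex.re_add_im] at h1
    rw [norm_div, div_le_div_iff₀ (norm_pos_iff.mpr (hden w hw)) (by linarith [hw.2])]
    exact h1
  have hQbd : ∀ w ∈ S, ‖Q w‖ ≤ Real.exp (|lam| * w.re + mu * w.re ^ 2) *
      ((1 + α + w.re) / (1 + α - w.re)) := by
    intro w hw
    have hwre := hw.1
    have hwre1 := hw.2
    simp only [hQ]
    rw [norm_mul, norm_mul, hexp]
    have h1 : ‖Phi g w‖ ≤ 1 := Phi_norm_le_one (h.bd w hw.1)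
    have h2 : Real.exp (lam * w.re + mu * (w.re ^ 2 - w.im ^ 2)) ≤
        Real.exp (|lam| * w.re + mu * w.re ^ 2) := by
      apply Real.exp_le_exp.mpr
      have h3 : lam * w.re ≤ |lam| * w.re := by
        have := le_abs_self lam
        gcongr
      have h4 : 0 ≤ mu * w.im ^ 2 := by positivity
      nlinarith
    calc ‖Phi g w‖ * Real.exp (lam * w.re + mu * (w.re ^ 2 - w.im ^ 2)) *
          ‖(((1 + α : ℝ) : ℂ) + w) / (((1 + α : ℝ) : ℂ) - w)‖ ≤
          1 * Real.exp (|lam| * w.re + mu * w.re ^ 2) * ((1 + α + w.re) / (1 + α - w.re)) := by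
          refine mul_le_mul (mul_le_mul h1 h2 (Real.exp_pos _).le zero_le_one) (hfrac w hw)
            (norm_nonneg _) (by positivity)
      _ = _ := by rw [one_mul]
  -- the bound on the right line
  have hQ1 : ∀ w : ℂ, w.re = 1 → ‖Q w‖ ≤ 1 := by
    intro w hw
    have hwS : w ∈ S := ⟨by rw [hw]; exact one_pos, hw.le⟩
    have hre : |(g w).re| ≤ ε := h.bd1 w hw.ge
    have him := hp_im h hε hL hL1 hw
    set y := w.im with hy
    have h1 : ‖Phi g w‖ ^ 2 ≤ c₀ ^ 2 * (α ^ 2 + y ^ 2) := by
      refine (Phi_norm_sq_le hε hε1 hre).trans ?_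
      have h2 : (Real.pi / 4 * (g w).im) ^ 2 ≤ (c₀ * |y|) ^ 2 := by
        rw [← sq_abs (Real.pi / 4 * (g w).im), abs_mul, abs_of_pos (by positivity : 0 < Real.pi / 4)]
        have h3 : Real.pi / 4 * |(g w).im| ≤ c₀ * |y| := by
          calc Real.pi / 4 * |(g w).im| ≤
                Real.pi / 4 * (2 * Real.exp 1 * ε * L / Real.pi * |y|) := by gcongr
            _ = c₀ * |y| := by rw [hc₀]; field_simp; ring
        gcongr
      rw [mul_pow c₀, sq_abs] at h2
      have h4 : 16 / 25 * ε ^ 2 = c₀ ^ 2 * α ^ 2 := by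
        rw [hc₀, hα]; field_simp; norm_num
      rw [h4]
      linarith [mul_add (c₀ ^ 2) (α ^ 2) (y ^ 2)]
    have hn1 : ‖((1 + α : ℝ) : ℂ) + w‖ ^ 2 = A + y ^ 2 := by
      rw [← Complex.normSq_eq_norm_sq, Complex.normSq_apply, Complex.add_re, Complex.add_im,
        Complex.ofReal_re, Complex.ofReal_im, hw, hA]
      ring
    have hn2 : ‖((1 + α : ℝ) : ℂ) - w‖ ^ 2 = α ^ 2 + y ^ 2 := by
      rw [← Complex.normSq_eq_norm_sq, Complex.normSq_apply, Complex.sub_re, Complex.sub_im,
        Complex.ofReal_re, Complex.ofReal_im, hw]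
      ring
    have hpos : 0 < α ^ 2 + y ^ 2 := by positivity
    have h5 : ‖Q w‖ ^ 2 ≤ 1 := by
      simp only [hQ]
      rw [norm_mul, norm_mul, norm_div, mul_pow, mul_pow, div_pow, hn1, hn2, hexp, hw, ← hy,
        ← Real.exp_nat_mul]
      have h6 : Real.exp (((2 : ℕ) : ℝ) * (lam * 1 + mu * (1 ^ 2 - y ^ 2))) =
          Real.exp (-(2 * mu * (y ^ 2 - 1))) * (1 / (c₀ ^ 2 * (1 + A))) := by
        have h7 : 1 / (c₀ ^ 2 * (1 + A)) = Real.exp (2 * lam) := by
          have h8 : 2 * lam = -Real.log (c₀ ^ 2 * (1 + A)) := by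
            rw [Real.log_mul (by positivity) (by positivity), Real.log_pow, hlam]
            push_cast; ring
          rw [h8, Real.exp_neg, Real.exp_log (by positivity), one_div]
        rw [h7, ← Real.exp_add]
        congr 1
        push_cast; ring
      rw [h6]
      have h9 : A + y ^ 2 ≤ (1 + A) * Real.exp (2 * mu * (y ^ 2 - 1)) := by
        have h10 := Real.add_one_le_exp (2 * mu * (y ^ 2 - 1))
        have h11 : A + y ^ 2 = (1 + A) * (2 * mu * (y ^ 2 - 1) + 1) := by
          rw [hmu]; field_simp; ring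
        rw [h11]
        gcongr
      calc ‖Phi g w‖ ^ 2 * (Real.exp (-(2 * mu * (y ^ 2 - 1))) * (1 / (c₀ ^ 2 * (1 + A)))) *
            ((A + y ^ 2) / (α ^ 2 + y ^ 2)) ≤
            (c₀ ^ 2 * (α ^ 2 + y ^ 2)) *
            (Real.exp (-(2 * mu * (y ^ 2 - 1))) * (1 / (c₀ ^ 2 * (1 + A)))) *
            (((1 + A) * Real.exp (2 * mu * (y ^ 2 - 1))) / (α ^ 2 + y ^ 2)) := by gcongr
        _ = Real.exp (-(2 * mu * (y ^ 2 - 1))) * Real.exp (2 * mu * (y ^ 2 - 1)) := by
            field_simp
        _ = 1 := by rw [← Real.exp_add, neg_add_cancel, Real.exp_zero]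
    nlinarith [norm_nonneg (Q w)]
  -- three lines on `[η, 1]`
  have key : ∀ η : ℝ, 0 < η → η < β → ‖Q β‖ ≤
      Real.exp (|lam| * η + mu * η ^ 2) * ((1 + α + η) / (1 + α - η)) := by
    intro η hη hηβ
    set K := Real.exp (|lam| * η + mu * η ^ 2) * ((1 + α + η) / (1 + α - η)) with hK
    have hK1 : 1 ≤ K := by
      have h1 : 1 ≤ Real.exp (|lam| * η + mu * η ^ 2) := by
        rw [Real.one_le_exp_iff]
        have := abs_nonneg lam
        positivity
      have h2 : 1 ≤ (1 + α + η) / (1 + α - η) := by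
        rw [le_div_iff₀ (by linarith)]; linarith
      exact one_le_mul_of_one_le_of_one_le h1 h2
    have hsub : re ⁻¹' Icc η 1 ⊆ S := fun w hw => ⟨hη.trans_le hw.1, hw.2⟩
    have h1 := norm_le_interp_of_mem_verticalClosedStrip' (f := Q)
      (z := (β : ℂ)) (a := K) (b := K) (l := η) (u := 1) (by linarith)
      (by
        show (β : ℂ).re ∈ Icc η 1
        rw [Complex.ofReal_re]
        exact ⟨hηβ.le, hβ1.le⟩)
      (dcc hsub hQd)
      (by
        refine ⟨Real.exp (|lam| * 1 + mu * 1 ^ 2) * ((1 + α + 1) / (1 + α - 1)), ?_⟩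
        rintro _ ⟨w, hw, rfl⟩
        have hwS := hsub hw
        refine (hQbd w hwS).trans ?_
        have e1 := hwS.1
        have e2 := hwS.2
        have e3 : 0 < 1 + α - 1 := by linarith
        have e4 : 0 < 1 + α - w.re := by linarith
        have e5 : Real.exp (|lam| * w.re + mu * w.re ^ 2) ≤ Real.exp (|lam| * 1 + mu * 1 ^ 2) := by
          have := abs_nonneg lam
          gcongr
        have e6 : (1 + α + w.re) / (1 + α - w.re) ≤ (1 + α + 1) / (1 + α - 1) := by
          apply div_le_div₀ <;> linarith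
        exact mul_le_mul e5 e6 (by positivity) (Real.exp_pos _).le)
      (by
        intro w hw
        have hw' : w.re = η := hw
        have hwS : w ∈ S := ⟨by rw [hw']; exact hη, by rw [hw']; linarith⟩
        have := hQbd w hwS
        rwa [hw'] at this)
      (by
        intro w hw
        have hw' : w.re = 1 := hw
        exact (hQ1 w hw').trans hK1)
    refine h1.trans (le_of_eq ?_)
    rw [← Real.rpow_add (by linarith), sub_add_cancel, Real.rpow_one]
  have hlim : Tendsto (fun η : ℝ =>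
      Real.exp (|lam| * η + mu * η ^ 2) * ((1 + α + η) / (1 + α - η))) (𝓝[>] 0)
      (𝓝 (Real.exp (|lam| * 0 + mu * 0 ^ 2) * ((1 + α + 0) / (1 + α - 0)))) := by
    apply Tendsto.mono_left _ nhdsWithin_le_nhds
    apply ContinuousAt.tendsto
    have : 1 + α - 0 ≠ 0 := by linarith
    fun_prop (disch := exact this)
  have hlim0 : Real.exp (|lam| * 0 + mu * 0 ^ 2) * ((1 + α + 0) / (1 + α - 0)) = 1 := by
    have : 1 + α ≠ 0 := by linarith
    rw [add_zero, sub_zero, div_self this]
    norm_num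
  rw [hlim0] at hlim
  have hfinal : ‖Q β‖ ≤ 1 := by
    refine ge_of_tendsto hlim ?_
    filter_upwards [Ioo_mem_nhdsGT hβ] with η hη
    exact key η hη.1 hη.2
  simp only [hQ] at hfinal
  rw [norm_mul, norm_mul, hexp, Complex.ofReal_re, Complex.ofReal_im] at hfinal
  have h1 : ‖(((1 + α : ℝ) : ℂ) + (β : ℂ)) / (((1 + α : ℝ) : ℂ) - (β : ℂ))‖ =
      (1 + α + β) / (1 + α - β) := by
    have h2 : (((1 + α : ℝ) : ℂ) + (β : ℂ)) / (((1 + α : ℝ) : ℂ) - (β : ℂ)) =
        (((1 + α + β) / (1 + α - β) : ℝ) : ℂ) := by push_cast; ring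
    rw [h2, Complex.norm_real, Real.norm_of_nonneg]
    have : 0 < 1 + α - β := by linarith
    positivity
  rw [h1] at hfinal
  have h3 : lam * β + mu * (β ^ 2 - 0 ^ 2) = lam * β + mu * β ^ 2 := by ring
  rwa [h3] at hfinal

lemma sc_pos {m : ℝ} (hm : 0 < m) (hm1 : m ≤ 1) :
    0 < Real.sin (Real.pi * m / 4) ∧ 0 < Real.cos (Real.pi * m / 4) := by
  have hpi := Real.pi_pos
  have h1 : Real.pi * m ≤ Real.pi := mul_le_of_le_one_right hpi.le hm1
  have h2 : 0 < Real.pi * m := by positivity
  exact ⟨Real.sin_pos_of_pos_of_lt_pi (by linarith) (by linarith),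
    Real.cos_pos_of_mem_Ioo ⟨by linarith, by linarith⟩⟩

/-- The half plane inequality. -/
theorem hp_main {g : ℂ → ℂ} {ε : ℝ} (h : HP g ε) (hε : 0 < ε) (hε1 : ε ≤ 1) {β : ℝ}
    (hβ : 0 < β) (hβ1 : β < 1) : (g β).re ≤ ε ^ (β / 2) := by
  have hpi := Real.pi_pos
  set L := -Real.log ε with hL
  have hL0 : 0 ≤ L := by
    have := Real.log_nonpos hε.le hε1
    linarith
  have hεL : ε = Real.exp (-L) := by rw [hL, neg_neg, Real.exp_log hε]
  have hrpow : ε ^ (β / 2) = Real.exp (-(β * L / 2)) := by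
    rw [Real.rpow_def_of_pos hε, hL]; congr 1; ring
  rw [hrpow]
  rcases le_or_gt L (3 / 2) with h32 | h32
  · refine (hp_linear h hβ hβ1).trans ?_
    have h1 := exp_neg_le_one_sub_half hL0 h32
    rw [← hεL] at h1
    have h2 := Real.add_one_le_exp (-(β * L / 2))
    nlinarith
  · -- large `L`
    have hg : g β = (((g β).re : ℝ) : ℂ) := by
      apply Complex.ext
      · rw [Complex.ofReal_re]
      · rw [Complex.ofReal_im]; exact h.real β hβ
    set m := (g β).re with hm
    rcases le_or_gt m 0 with hm0 | hm0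
    · exact hm0.trans (Real.exp_pos _).le
    have hm1 : m ≤ 1 := by
      have := h.bd (β : ℂ) (by rw [Complex.ofReal_re]; exact hβ)
      exact (abs_le.mp this).2
    have hε6 : ε ≤ 6 / 25 := by
      rw [hεL, Real.exp_neg, inv_le_comm₀ (Real.exp_pos _) (by norm_num)]
      have h5 := Real.sum_le_exp_of_nonneg (x := (3 / 2 : ℝ)) (by norm_num) 5
      simp [Finset.sum_range_succ, Nat.factorial] at h5
      have h6 : Real.exp (3 / 2) ≤ Real.exp L := Real.exp_le_exp.mpr h32.le
      norm_num at h5 ⊢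
      linarith
    have hLpos : 0 < L := by linarith
    set α := (8 / 5) / (Real.exp 1 * L) with hα
    have hα0 : 0 < α := by positivity
    set c₀ := Real.exp 1 / 2 * ε * L with hc₀
    have hc0 : 0 < c₀ := by positivity
    set lam := -Real.log c₀ - 1 / 2 * Real.log (1 + (2 + α) ^ 2) with hlam
    set mu := 1 / (2 * (1 + (2 + α) ^ 2)) with hmu
    have hmu0 : 0 < mu := by positivity
    have h1 := hp_compare h hε hε6 hL (by linarith) hc₀ hα hmu hlam hβ hβ1
    have hnum := main_numeric h32.le hα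
    have hlam2 : Real.pi / 4 * L ≤ lam + 2 / (1 + α) := by
      have h2 : Real.log c₀ = 1 - Real.log 2 - L + Real.log L := by
        rw [hc₀, Real.log_mul (by positivity) hLpos.ne', Real.log_mul (by positivity) hε.ne',
          Real.log_div (Real.exp_pos 1).ne' (by norm_num), Real.log_exp, hL]
        ring
      rw [hlam, h2]
      linarith
    have hPhi := Phi_norm_real hm0 hm1 hg
    rw [hPhi] at h1
    obtain ⟨hs, hc⟩ := sc_pos hm0 hm1
    -- the fractional factor
    have hfr : Real.exp (2 * (β / (1 + α))) ≤ (1 + α + β) / (1 + α - β) := by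
      have h2 := exp_two_mul_le (s := β / (1 + α)) (by positivity)
        (by rw [div_lt_one (by linarith)]; linarith)
      rw [le_div_iff₀ (by linarith)]
      have h3 : 1 + α - β = (1 + α) * (1 - β / (1 + α)) := by field_simp
      have h4 : 1 + α + β = (1 + α) * (1 + β / (1 + α)) := by field_simp
      rw [h3, h4]
      have h5 := mul_le_mul_of_nonneg_left h2 (by linarith : 0 ≤ 1 + α)
      calc Real.exp (2 * (β / (1 + α))) * ((1 + α) * (1 - β / (1 + α))) =
            (1 + α) * (Real.exp (2 * (β / (1 + α))) * (1 - β / (1 + α))) := by ring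
        _ ≤ _ := h5
    have h5 : Real.sin (Real.pi * m / 4) / Real.cos (Real.pi * m / 4) *
        Real.exp (Real.pi / 4 * L * β) ≤ 1 := by
      refine le_trans ?_ h1
      rw [mul_assoc (Real.sin (Real.pi * m / 4) / Real.cos (Real.pi * m / 4))]
      refine mul_le_mul_of_nonneg_left ?_ (div_pos hs hc).le
      calc Real.exp (Real.pi / 4 * L * β) ≤
            Real.exp (lam * β + mu * β ^ 2) * Real.exp (2 * (β / (1 + α))) := by
            rw [← Real.exp_add]
            apply Real.exp_le_exp.mpr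
            have h6 : 2 * (β / (1 + α)) = 2 / (1 + α) * β := by ring
            have h7 : 0 ≤ mu * β ^ 2 := by positivity
            rw [h6]
            have h8 := mul_le_mul_of_nonneg_right hlam2 hβ.le
            rw [add_mul] at h8
            linarith
        _ ≤ _ := mul_le_mul_of_nonneg_left hfr (Real.exp_pos _).le
    have h6 : Real.log (Real.sin (Real.pi * m / 4)) - Real.log (Real.cos (Real.pi * m / 4)) +
        Real.pi / 4 * L * β ≤ 0 := by
      have h7 := Real.log_le_log (mul_pos (div_pos hs hc) (Real.exp_pos _)) h5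
      rw [Real.log_one, Real.log_mul (by positivity) (Real.exp_pos _).ne', Real.log_exp,
        Real.log_div hs.ne' hc.ne'] at h7
      exact h7
    have h8 := log_tan_ge hm0 hm1
    have h9 : Real.log m ≤ -(β * L / 2) := by
      have h10 : Real.pi / 2 * (Real.log m + β * L / 2) ≤ 0 := by
        have e1 : Real.pi / 2 * (Real.log m + β * L / 2) =
            Real.pi / 2 * Real.log m + Real.pi / 4 * L * β := by ring
        rw [e1]
        linarith
      have h11 : 0 < Real.pi / 2 := by positivity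
      by_contra hcon
      have h12 : 0 < Real.log m + β * L / 2 := by linarith
      have h13 := mul_pos h11 h12
      linarith
    calc m = Real.exp (Real.log m) := (Real.exp_log hm0).symm
      _ ≤ _ := Real.exp_le_exp.mpr h9

end ThreeBalls
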