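import Mathlib
import Pool.Agent.Lib.MP_e54599_an.Final

/-!
From the disc to the half plane, and change of coordinates for harmonic functions.
-/

namespace ThreeBalls

open Complex Set Filter Topology InnerProductSpace

/-- The Laplacian commutes with linear isometries of the domain. -/
lemma laplacian_comp_isometry {E E' F : Type*} [NormedAddCommGroup E] [InnerProductSpace ℝ E]
    [FiniteDimensional ℝ E] [NormedAddCommGroup E'] [InnerProductSpace ℝ E']
    [FiniteDimensional ℝ E'] [NormedAddCommGroup F] [NormedSpace ℝ F] (e : E' ≃ₗᵢ[ℝ] E)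
    (f : E → F) : Laplacian.laplacian (f ∘ e) = Laplacian.laplacian f ∘ e := by
  funext x
  rw [laplacian_eq_iteratedFDeriv_orthonormalBasis (f ∘ e) (stdOrthonormalBasis ℝ E')]
  rw [laplacian_eq_iteratedFDeriv_orthonormalBasis f ((stdOrthonormalBasis ℝ E').map e)]
  simp only [Function.comp_apply]
  refine Finset.sum_congr rfl fun i _ => ?_
  have h1 : iteratedFDeriv ℝ 2 (f ∘ e) x =
      (iteratedFDeriv ℝ 2 f (e x)).compContinuousLinearMap
        fun _ => (e.toContinuousLinearEquiv : E' →L[ℝ] E) := by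
    rw [← iteratedFDerivWithin_univ, ← iteratedFDerivWithin_univ]
    exact e.toContinuousLinearEquiv.iteratedFDerivWithin_comp_right f uniqueDiffOn_univ
      (mem_univ _) 2
  rw [h1, ContinuousMultilinearMap.compContinuousLinearMap_apply]
  congr 1
  funext j
  fin_cases j <;> simp

/-- Harmonic functions and linear isometries of the domain. -/
lemma harmonicOnNhd_comp_isometry {E E' F : Type*} [NormedAddCommGroup E] [InnerProductSpace ℝ E]
    [FiniteDimensional ℝ E] [NormedAddCommGroup E'] [InnerProductSpace ℝ E']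
    [FiniteDimensional ℝ E'] [NormedAddCommGroup F] [NormedSpace ℝ F] (e : E' ≃ₗᵢ[ℝ] E)
    {f : E → F} {r : ℝ} (h : HarmonicOnNhd f (Metric.ball 0 r)) :
    HarmonicOnNhd (f ∘ e) (Metric.ball 0 r) := by
  intro x hx
  have hx' : e x ∈ Metric.ball (0 : E) r := by
    rw [mem_ball_zero_iff] at hx ⊢
    rwa [e.norm_map]
  obtain ⟨h1, h2⟩ := h (e x) hx'
  refine ⟨h1.comp x e.toContinuousLinearEquiv.contDiff.contDiffAt, ?_⟩
  have h3 := e.continuous.continuousAt.eventually h2
  rw [laplacian_comp_isometry]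
  exact h3

/-- The sharp inequality in the disc. -/
theorem disc_main {u : ℂ → ℂ} (hu : HarmonicOnNhd u (Metric.ball 0 1))
    (hb : ∀ z ∈ Metric.ball (0 : ℂ) 1, ‖u z‖ ≤ 1) {ρ ε : ℝ} (hρ0 : 0 < ρ) (hρ1 : ρ < 1)
    (hε0 : 0 < ε) (hε1 : ε ≤ 1) (hbρ : ∀ z ∈ Metric.ball (0 : ℂ) ρ, ‖u z‖ ≤ ε)
    {z₀ : ℂ} (h1 : ρ < ‖z₀‖) (h2 : ‖z₀‖ < 1) :
    ‖u z₀‖ ≤ ε ^ (Real.log ‖z₀‖ / Real.log ρ / 2) := by
  rcases eq_or_ne (u z₀) 0 with hu0 | hu0
  · rw [hu0, norm_zero]; positivity
  set t := ‖z₀‖ with ht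
  have ht0 : 0 < t := hρ0.trans h1
  set ω : ℂ := z₀ / t with hω
  have ht' : (t : ℂ) ≠ 0 := by exact_mod_cast ht0.ne'
  have hωn : ‖ω‖ = 1 := by
    rw [hω, norm_div, Complex.norm_real, Real.norm_of_nonneg ht0.le, ← ht, div_self ht0.ne']
  have hωt : ω * t = z₀ := by rw [hω, div_mul_cancel₀ _ ht']
  have hun : 0 < ‖u z₀‖ := norm_pos_iff.mpr hu0
  have hun' : (‖u z₀‖ : ℂ) ≠ 0 := by exact_mod_cast hun.ne'
  set c : ℂ := (starRingEnd ℂ) (u z₀) / ‖u z₀‖ with hc
  have hcn : ‖c‖ = 1 := by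
    rw [hc, norm_div, RCLike.norm_conj, Complex.norm_real, norm_norm, div_self hun.ne']
  have hcu : c * u z₀ = (‖u z₀‖ : ℂ) := by
    rw [hc, div_mul_eq_mul_div, mul_comm ((starRingEnd ℂ) (u z₀)), Complex.mul_conj,
      Complex.normSq_eq_norm_sq]
    push_cast
    field_simp
  -- real part
  set l : ℂ →L[ℝ] ℝ := Complex.reCLM.comp ((ContinuousLinearMap.mul ℝ ℂ) c) with hl
  have hlapp : ∀ z, (l ∘ u) z = (c * u z).re := fun z => rfl
  have hv : HarmonicOnNhd (l ∘ u) (Metric.ball 0 1) := hu.comp_CLM l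
  obtain ⟨F, hF, hFre⟩ := hv.exists_analyticOnNhd_ball_re_eq
  have hFre' : ∀ z ∈ Metric.ball (0 : ℂ) 1, (F z).re = (c * u z).re := fun z hz => hFre hz
  have hvb : ∀ z ∈ Metric.ball (0 : ℂ) 1, |(F z).re| ≤ ‖u z‖ := by
    intro z hz
    rw [hFre' z hz]
    refine (Complex.abs_re_le_norm _).trans ?_
    rw [norm_mul, hcn, one_mul]
  -- closed ball of radius `ρ`
  have hbρ' : ∀ z : ℂ, ‖z‖ ≤ ρ → ‖u z‖ ≤ ε := by
    intro z hz
    have hz1 : z ∈ Metric.ball (0 : ℂ) 1 := by rw [mem_ball_zero_iff]; linarith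
    have hcont : ContinuousAt u z := (hu z hz1).1.continuousAt
    have hlim : Tendsto (fun s : ℝ => ‖u ((s : ℂ) * z)‖) (𝓝[<] 1) (𝓝 ‖u z‖) := by
      have h3 : Tendsto (fun s : ℝ => (s : ℂ) * z) (𝓝[<] 1) (𝓝 z) := by
        have h4 : Tendsto (fun s : ℝ => (s : ℂ) * z) (𝓝[<] 1) (𝓝 (((1 : ℝ) : ℂ) * z)) := by
          apply Tendsto.mono_left _ nhdsWithin_le_nhds
          exact (by fun_prop : Continuous fun s : ℝ => (s : ℂ) * z).continuousAt
        simpa using h4
      exact (hcont.tendsto.comp h3).norm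
    refine le_of_tendsto hlim ?_
    filter_upwards [Ioo_mem_nhdsLT (show (0 : ℝ) < 1 from one_pos)] with s hs
    apply hbρ
    rw [mem_ball_zero_iff, norm_mul, Complex.norm_real, Real.norm_of_nonneg hs.1.le]
    nlinarith [hs.1, hs.2, norm_nonneg z]
  -- the half plane
  set T : ℝ := -Real.log ρ with hT
  have hT0 : 0 < T := by
    have := Real.log_neg hρ0 hρ1
    linarith
  set φ : ℂ → ℂ := fun w => ω * Complex.exp (-(T : ℂ) * w) with hφ
  have hφn : ∀ w : ℂ, ‖φ w‖ = Real.exp (-(T * w.re)) := by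
    intro w
    simp only [hφ]
    rw [norm_mul, hωn, one_mul, Complex.norm_exp]
    congr 1
    rw [neg_mul, Complex.neg_re, Complex.re_ofReal_mul]
  have hφball : ∀ w : ℂ, 0 < w.re → φ w ∈ Metric.ball (0 : ℂ) 1 := by
    intro w hw
    rw [mem_ball_zero_iff, hφn, Real.exp_lt_one_iff]
    have := mul_pos hT0 hw
    linarith
  set g1 : ℂ → ℂ := fun w => F (φ w) with hg1
  have hg1d : ∀ w : ℂ, 0 < w.re → DifferentiableAt ℂ g1 w := by
    intro w hw
    have h3 : DifferentiableAt ℂ F (φ w) := (hF (φ w) (hφball w hw)).differentiableAt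
    have h4 : DifferentiableAt ℂ φ w := by
      simp only [hφ]
      fun_prop
    exact h3.comp w h4
  set g : ℂ → ℂ := fun w => (g1 w + (starRingEnd ℂ) (g1 ((starRingEnd ℂ) w))) / 2 with hg
  have hgre : ∀ w : ℂ, (g w).re = ((g1 w).re + (g1 ((starRingEnd ℂ) w)).re) / 2 := by
    intro w
    simp only [hg]
    rw [show (2 : ℂ) = ((2 : ℝ) : ℂ) by norm_num, Complex.div_ofReal_re, Complex.add_re,
      Complex.conj_re]
  have hgreb : ∀ (w : ℂ) (B : ℝ), |(g1 w).re| ≤ B → |(g1 ((starRingEnd ℂ) w)).re| ≤ B →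
      |(g w).re| ≤ B := by
    intro w B h3 h4
    rw [hgre, abs_le]
    have h5 := abs_le.mp h3
    have h6 := abs_le.mp h4
    constructor <;> linarith [h5.1, h5.2, h6.1, h6.2]
  have hHP : HP g ε := by
    refine ⟨?_, ?_, ?_, ?_⟩
    · intro w hw
      have hw' : 0 < w.re := hw
      have h3 := hg1d w hw'
      have h4 : DifferentiableAt ℂ (fun w => (starRingEnd ℂ) (g1 ((starRingEnd ℂ) w))) w := by
        have h5 : DifferentiableAt ℂ g1 ((starRingEnd ℂ) w) :=
          hg1d _ (by rw [Complex.conj_re]; exact hw')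
        have h6 := h5.conj_conj
        rw [Complex.conj_conj] at h6
        exact h6
      exact ((h3.add h4).div_const 2).differentiableWithinAt
    · intro w hw
      apply hgreb
      · exact (hvb _ (hφball w hw)).trans (hb _ (hφball w hw))
      · have hw' : 0 < ((starRingEnd ℂ) w).re := by rw [Complex.conj_re]; exact hw
        exact (hvb _ (hφball _ hw')).trans (hb _ (hφball _ hw'))
    · have h3 : ∀ w : ℂ, 1 ≤ w.re → |(g1 w).re| ≤ ε := by
        intro w hw
        refine (hvb _ (hφball w (by linarith))).trans (hbρ' _ ?_)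
        rw [hφn]
        calc Real.exp (-(T * w.re)) ≤ Real.exp (Real.log ρ) := by
              apply Real.exp_le_exp.mpr
              rw [hT]
              have := Real.log_neg hρ0 hρ1
              nlinarith
          _ = ρ := Real.exp_log hρ0
      intro w hw
      apply hgreb
      · exact h3 w hw
      · exact h3 _ (by rw [Complex.conj_re]; exact hw)
    · intro x _
      simp only [hg]
      rw [Complex.conj_ofReal, Complex.add_conj]
      rw [show (2 : ℂ) = ((2 : ℝ) : ℂ) by norm_num, Complex.div_ofReal_im, Complex.ofReal_im,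
        zero_div]
  set β : ℝ := Real.log t / Real.log ρ with hβ
  have hlogρ : Real.log ρ < 0 := Real.log_neg hρ0 hρ1
  have hlogt : Real.log t < 0 := Real.log_neg ht0 h2
  have hβ0 : 0 < β := div_pos_of_neg_of_neg hlogt hlogρ
  have hβ1 : β < 1 := by
    rw [hβ, div_lt_one_of_neg hlogρ]
    exact Real.log_lt_log hρ0 h1
  have hmain := hp_main hHP hε0 hε1 hβ0 hβ1
  have hφβ : φ β = z₀ := by
    simp only [hφ]
    have h3 : -(T : ℂ) * (β : ℂ) = ((Real.log t : ℝ) : ℂ) := by
      rw [hT, hβ]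
      push_cast
      have : (Real.log ρ : ℂ) ≠ 0 := by exact_mod_cast hlogρ.ne
      field_simp
    rw [h3, ← Complex.ofReal_exp, Real.exp_log ht0, hωt]
  have hval : (g β).re = ‖u z₀‖ := by
    rw [hgre, Complex.conj_ofReal]
    simp only [hg1]
    rw [hφβ, hFre' z₀ (by rw [mem_ball_zero_iff]; exact h2), hcu, Complex.ofReal_re]
    ring
  rw [hval] at hmain
  exact hmain

end ThreeBalls
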