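import Mathlib
import Pool.Agent.Lib.MP_e54599_an.Disc
import Pool.Agent.Lib.MP_e54599_an.MaxP

/-!
Differences of harmonic functions: a bound by reflection and a barrier, and its iteration.
-/

open InnerProductSpace Laplacian Topology Metric Module

namespace ThreeBallsHD

variable {E : Type*} [NormedAddCommGroup E] [InnerProductSpace ℝ E] [FiniteDimensional ℝ E]

lemma harmonicAt_translate {f : E → ℝ} {a x : E} (h : HarmonicAt f (x + a)) :
    HarmonicAt (fun y => f (y + a)) x := by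
  obtain ⟨h1, h2⟩ := h
  refine ⟨?_, ?_⟩
  · exact ContDiffAt.comp x h1 (contDiffAt_id.add contDiffAt_const)
  · have hc : ContinuousAt (fun y : E => y + a) x := by fun_prop
    have h3 := hc.eventually h2
    filter_upwards [h3] with y hy
    have : (Δ (fun y => f (y + a))) y = (Δ f) (y + a) := by
      rw [laplacian_eq_iteratedFDeriv_stdOrthonormalBasis,
        laplacian_eq_iteratedFDeriv_stdOrthonormalBasis]
      simp only [iteratedFDeriv_comp_add_right]
    rw [this]
    exact hy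

lemma harmonicAt_isometry (e : E ≃ₗᵢ[ℝ] E) {f : E → ℝ} {x : E} (h : HarmonicAt f (e x)) :
    HarmonicAt (f ∘ e) x := by
  obtain ⟨h1, h2⟩ := h
  refine ⟨h1.comp x e.toContinuousLinearEquiv.contDiff.contDiffAt, ?_⟩
  have h3 := e.continuous.continuousAt.eventually h2
  rw [ThreeBalls.laplacian_comp_isometry]
  exact h3

/-- Reflection and a barrier. -/
lemma refl_bound (hE : 0 < finrank ℝ E) {v : E → ℝ} {R M : ℝ} (hR : 0 < R)
    (hv : ∀ x ∈ closedBall (0 : E) R, HarmonicAt v x)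
    (hM : ∀ x ∈ closedBall (0 : E) R, |v x| ≤ M) {ω : E} (hω : ‖ω‖ = 1) {h : ℝ} (h0 : 0 ≤ h)
    (hh : h ≤ R) :
    v (h • ω) - v (-(h • ω)) ≤ 2 * M * (finrank ℝ E + 1) * (h / R) := by
  have hM0 : 0 ≤ M := (abs_nonneg _).trans (hM 0 (by simp [hR.le]))
  set n : ℝ := (finrank ℝ E : ℝ) with hn
  have hn0 : 0 ≤ n := by positivity
  set e : E ≃ₗᵢ[ℝ] E := (ℝ ∙ ω)ᗮ.reflection with he
  set c₁ : ℝ := -(2 * M / R ^ 2) with hc₁
  set c₂ : ℝ := -(2 * M * n / R) with hc₂
  set c₃ : ℝ := 2 * M * n / R ^ 2 with hc₃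
  set φ : E → ℝ := fun y => c₁ * ‖y‖ ^ 2 + c₂ * ⟪ω, y⟫_ℝ + c₃ * ⟪ω, y⟫_ℝ ^ 2 with hφ
  have hen : ∀ x ∈ closedBall (0 : E) R, e x ∈ closedBall (0 : E) R := by
    intro x hx
    rw [mem_closedBall_zero_iff] at hx ⊢
    rwa [e.norm_map]
  have hw : ∀ x ∈ closedBall (0 : E) R, HarmonicAt (v - v ∘ e) x := fun x hx =>
    (hv x hx).sub (harmonicAt_isometry e (hv (e x) (hen x hx)))
  have hφc : ContDiff ℝ 2 φ := by
    have h1 : ContDiff ℝ 2 (fun y : E => ‖y‖ ^ 2) := contDiff_normSq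
    have h2 : ContDiff ℝ 2 (fun y : E => ⟪ω, y⟫_ℝ) := contDiff_const.inner ℝ contDiff_id
    exact ((contDiff_const.mul h1).add (contDiff_const.mul h2)).add
      (contDiff_const.mul (h2.pow 2))
  have hφΔ : ∀ x, (Δ φ) x = 0 := by
    intro x
    rw [hφ, laplacian_quad, hω, ← hn, hc₁, hc₃]
    ring
  set K : Set E := closedBall 0 R ∩ {x | 0 ≤ ⟪ω, x⟫_ℝ} with hK
  have hcl : IsClosed {x : E | 0 ≤ ⟪ω, x⟫_ℝ} := isClosed_le continuous_const (by fun_prop)
  have hKc : IsCompact K := (isCompact_closedBall (0 : E) R).inter_right hcl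
  have hKsub : K ⊆ closedBall (0 : E) R := Set.inter_subset_left
  have hmain := max_principle hE hKc (f := (v - v ∘ e) + φ) (m := 0)
    (fun x hx => ((hw x (hKsub hx)).1.add hφc.contDiffAt).continuousAt.continuousWithinAt)
    (fun x hx => (hw x (hKsub (interior_subset hx))).1.add hφc.contDiffAt)
    (fun x hx => by
      have h1 := hw x (hKsub (interior_subset hx))
      rw [ContDiffAt.laplacian_add h1.1 hφc.contDiffAt, hφΔ, h1.2.self_of_nhds]
      simp)
    ?_ (h • ω) ?_
  · have h1 : e (h • ω) = -(h • ω) := by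
      rw [map_smul, he, Submodule.reflection_orthogonalComplement_singleton_eq_neg, smul_neg]
    simp only [Pi.add_apply, Pi.sub_apply, Function.comp_apply, h1, hφ] at hmain
    have h2 : ‖h • ω‖ ^ 2 = h ^ 2 := by
      rw [norm_smul, hω, mul_one, Real.norm_eq_abs, sq_abs]
    have h3 : ⟪ω, h • ω⟫_ℝ = h := by
      rw [inner_smul_right, real_inner_self_eq_norm_sq, hω]; ring
    rw [h2, h3] at hmain
    have h4 : c₁ * h ^ 2 + c₂ * h + c₃ * h ^ 2
        = -(2 * M * ((h / R) ^ 2 + n * ((h / R) - (h / R) ^ 2))) := by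
      rw [hc₁, hc₂, hc₃]
      field_simp
      ring
    rw [h4] at hmain
    have h5 : 0 ≤ h / R := div_nonneg h0 hR.le
    have h6 : h / R ≤ 1 := (div_le_one hR).2 hh
    have h7 : (h / R) ^ 2 + n * ((h / R) - (h / R) ^ 2) ≤ (n + 1) * (h / R) := by
      nlinarith [sq_nonneg (h / R), mul_nonneg hn0 (sq_nonneg (h / R))]
    nlinarith [mul_le_mul_of_nonneg_left h7 hM0]
  · intro x hx
    rcases frontier_inter_subset _ _ hx with ⟨h1, h2⟩ | ⟨h1, h2⟩
    · rw [frontier_closedBall _ hR.ne', mem_sphere_zero_iff_norm] at h1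
      rw [hcl.closure_eq] at h2
      have h2' : 0 ≤ ⟪ω, x⟫_ℝ := h2
      have hxb : x ∈ closedBall (0 : E) R := by rw [mem_closedBall_zero_iff, h1]
      have h3 : v x - v (e x) ≤ 2 * M := by
        have h4 := abs_le.1 (hM x hxb)
        have h5 := abs_le.1 (hM (e x) (hen x hxb))
        linarith [h4.2, h5.1]
      have h6 : ⟪ω, x⟫_ℝ ≤ R := by
        have := real_inner_le_norm ω x
        rwa [hω, h1, one_mul] at this
      have h7 : c₁ * ‖x‖ ^ 2 + c₂ * ⟪ω, x⟫_ℝ + c₃ * ⟪ω, x⟫_ℝ ^ 2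
          = -(2 * M) - 2 * M * n / R ^ 2 * (⟪ω, x⟫_ℝ * (R - ⟪ω, x⟫_ℝ)) := by
        rw [hc₁, hc₂, hc₃, h1]
        field_simp
        ring
      have h8 : 0 ≤ 2 * M * n / R ^ 2 * (⟪ω, x⟫_ℝ * (R - ⟪ω, x⟫_ℝ)) :=
        mul_nonneg (by positivity) (mul_nonneg h2' (by linarith))
      simp only [Pi.add_apply, Pi.sub_apply, Function.comp_apply, hφ]
      rw [h7]
      linarith
    · have h3 : x ∈ closedBall (0 : E) R := by rwa [isClosed_closedBall.closure_eq] at h1
      have h4 := frontier_le_subset_eq continuous_const (by fun_prop) h2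
      have h5 : ⟪ω, x⟫_ℝ = 0 := by
        have : (0 : ℝ) = ⟪ω, x⟫_ℝ := h4
        exact this.symm
      have h6 : e x = x := by
        rw [he]
        apply Submodule.reflection_mem_subspace_eq_self
        rw [Submodule.mem_orthogonal_singleton_iff_inner_right]
        exact h5
      simp only [Pi.add_apply, Pi.sub_apply, Function.comp_apply, hφ, h6, h5]
      have h7 : c₁ ≤ 0 := by rw [hc₁]; have : 0 ≤ 2 * M / R ^ 2 := by positivity
                             linarith
      nlinarith [sq_nonneg ‖x‖, mul_nonneg (neg_nonneg.2 h7) (sq_nonneg ‖x‖)]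
  · refine ⟨?_, ?_⟩
    · rw [mem_closedBall_zero_iff, norm_smul, hω, mul_one, Real.norm_of_nonneg h0]
      exact hh
    · show 0 ≤ ⟪ω, h • ω⟫_ℝ
      rw [inner_smul_right, real_inner_self_eq_norm_sq, hω]
      nlinarith

/-- The bound for a difference centred at `z`. -/
lemma diff_bound (hE : 0 < finrank ℝ E) {v : E → ℝ} {z g : E} {a M : ℝ} (ha : 0 < a)
    (hv : ∀ x ∈ closedBall z a, HarmonicAt v x) (hM : ∀ x ∈ closedBall z a, |v x| ≤ M)
    (hg : ‖g‖ / 2 ≤ a) :
    |v (z + (1 / 2 : ℝ) • g) - v (z - (1 / 2 : ℝ) • g)|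
      ≤ M * ((finrank ℝ E + 1) * ‖g‖ / a) := by
  have hM0 : 0 ≤ M := (abs_nonneg _).trans (hM z (mem_closedBall_self ha.le))
  rcases eq_or_ne g 0 with rfl | hg0
  · simp
  have hgn : 0 < ‖g‖ := norm_pos_iff.2 hg0
  have hmem : ∀ x ∈ closedBall (0 : E) a, x + z ∈ closedBall z a := by
    intro x hx
    rw [mem_closedBall_zero_iff] at hx
    rw [mem_closedBall, dist_eq_norm, add_sub_cancel_right]
    exact hx
  have key : ∀ s : ℝ, |s| = 1 → v (z + (s / 2) • g) - v (z - (s / 2) • g)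
      ≤ M * ((finrank ℝ E + 1) * ‖g‖ / a) := by
    intro s hs
    have h1 := refl_bound hE (v := fun y => v (y + z)) ha
      (fun x hx => harmonicAt_translate (hv _ (hmem x hx)))
      (fun x hx => hM _ (hmem x hx)) (ω := (s / ‖g‖) • g)
      (by rw [norm_smul, norm_div, norm_norm, Real.norm_eq_abs, hs]; field_simp)
      (h := ‖g‖ / 2) (by positivity) hg
    have h2 : (‖g‖ / 2) • ((s / ‖g‖) • g) = (s / 2) • g := by
      rw [smul_smul]; congr 1; field_simp
    rw [h2] at h1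
    have h3 : (s / 2) • g + z = z + (s / 2) • g := add_comm _ _
    have h4 : -((s / 2) • g) + z = z - (s / 2) • g := by abel
    simp only [h3, h4] at h1
    refine h1.trans (le_of_eq ?_)
    field_simp
  have k1 := key 1 (by simp)
  have k2 := key (-1) (by simp)
  have h5 : z + ((-1 : ℝ) / 2) • g = z - (1 / 2 : ℝ) • g := by
    rw [neg_div, neg_smul]; abel
  have h6 : z - ((-1 : ℝ) / 2) • g = z + (1 / 2 : ℝ) • g := by
    rw [neg_div, neg_smul]; abel
  rw [h5, h6] at k2
  exact abs_le.2 ⟨by linarith, k1⟩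

/-- Iterated differences. -/
lemma iter_bound (hE : 0 < finrank ℝ E) {u : E → ℝ} {c g : E} {a R M : ℝ} (ha : 0 < a)
    (hu : ∀ x ∈ closedBall c R, HarmonicAt u x) (hM : ∀ x ∈ closedBall c R, |u x| ≤ M)
    (hg : ‖g‖ / 2 ≤ a) (k : ℕ) :
    ∀ x : E, ‖x + ((k : ℝ) / 2) • g - c‖ ≤ R - k * a →
      HarmonicAt ((fwdDiff g)^[k] u) x ∧
        |(fwdDiff g)^[k] u x| ≤ M * ((finrank ℝ E + 1) * ‖g‖ / a) ^ k := by
  induction k with
  | zero =>
    intro x hx
    have hx' : x ∈ closedBall c R := by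
      rw [mem_closedBall, dist_eq_norm]
      simpa using hx
    simpa using ⟨hu x hx', hM x hx'⟩
  | succ k ih =>
    intro x hx
    have hg2 : ‖(1 / 2 : ℝ) • g‖ = ‖g‖ / 2 := by
      rw [norm_smul]; norm_num; ring
    have hz : ∀ y ∈ closedBall (x + (1 / 2 : ℝ) • g) a,
        ‖y + ((k : ℝ) / 2) • g - c‖ ≤ R - k * a := by
      intro y hy
      rw [mem_closedBall, dist_eq_norm] at hy
      have h1 : y + ((k : ℝ) / 2) • g - c
          = (x + (((k + 1 : ℕ) : ℝ) / 2) • g - c) + (y - (x + (1 / 2 : ℝ) • g)) := by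
        push_cast
        rw [add_div, add_smul]
        abel
      rw [h1]
      refine (norm_add_le _ _).trans ?_
      push_cast at hx ⊢
      linarith
    have hx0 : x ∈ closedBall (x + (1 / 2 : ℝ) • g) a := by
      rw [mem_closedBall, dist_eq_norm, sub_add_cancel_left, norm_neg, hg2]
      exact hg
    have hxg : x + g ∈ closedBall (x + (1 / 2 : ℝ) • g) a := by
      rw [mem_closedBall, dist_eq_norm]
      have : x + g - (x + (1 / 2 : ℝ) • g) = (1 / 2 : ℝ) • g := by
        rw [add_sub_add_left_eq_sub]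
        nth_rewrite 1 [← one_smul ℝ g]
        rw [← sub_smul]
        norm_num
      rw [this, hg2]
      exact hg
    have hiter : ∀ y, (fwdDiff g)^[k + 1] u y
        = (fwdDiff g)^[k] u (y + g) - (fwdDiff g)^[k] u y := by
      intro y
      rw [Function.iterate_succ_apply']
      rfl
    refine ⟨?_, ?_⟩
    · have h1 := (ih _ (hz _ hxg)).1
      have h2 := (ih _ (hz _ hx0)).1
      have h3 := (harmonicAt_translate h1).sub h2
      refine (harmonicAt_congr_nhds (Filter.Eventually.of_forall fun y => ?_)).1 h3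
      rw [hiter]
      rfl
    · have h4 := diff_bound hE ha (fun y hy => (ih y (hz y hy)).1)
        (fun y hy => (ih y (hz y hy)).2) hg
      have h5 : x + (1 / 2 : ℝ) • g + (1 / 2 : ℝ) • g = x + g := by
        rw [add_assoc, ← add_smul]; norm_num
      have h6 : x + (1 / 2 : ℝ) • g - (1 / 2 : ℝ) • g = x := by abel
      rw [h5, h6, ← hiter] at h4
      rw [pow_succ, ← mul_assoc]
      exact h4

end ThreeBallsHD
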