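import Mathlib
import Pool.Agent.Lib.MP_e54599_an.Refl

/-!
Growth of harmonic functions just outside the ball of radius `ρ`.
-/

open InnerProductSpace Laplacian Topology Metric Module

namespace ThreeBallsHD

variable {E : Type*} [NormedAddCommGroup E] [InnerProductSpace ℝ E] [FiniteDimensional ℝ E]

lemma choose_bound (m k : ℕ) (hm : 0 < m) {s : ℝ} (hs : 0 ≤ s) :
    (m.choose k : ℝ) * (s * (k / m)) ^ k ≤ (s * Real.exp 1) ^ k := by
  have hm' : (0 : ℝ) < m := by exact_mod_cast hm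
  have h1 : (m.choose k : ℝ) ≤ (m : ℝ) ^ k / (k.factorial : ℝ) := Nat.choose_le_pow_div k m
  have h2 : (k : ℝ) ^ k / (k.factorial : ℝ) ≤ Real.exp k :=
    Real.pow_div_factorial_le_exp (k : ℝ) (Nat.cast_nonneg k) k
  have h3 : (0 : ℝ) ≤ (s * (k / m)) ^ k := by positivity
  calc (m.choose k : ℝ) * (s * (k / m)) ^ k
      ≤ (m : ℝ) ^ k / (k.factorial : ℝ) * (s * (k / m)) ^ k := mul_le_mul_of_nonneg_right h1 h3
    _ = s ^ k * ((k : ℝ) ^ k / (k.factorial : ℝ)) := by
        rw [mul_pow, div_pow]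
        have hf : (k.factorial : ℝ) ≠ 0 := by exact_mod_cast k.factorial_ne_zero
        field_simp
    _ ≤ s ^ k * Real.exp k := mul_le_mul_of_nonneg_left h2 (by positivity)
    _ = (s * Real.exp 1) ^ k := by
        rw [mul_pow, ← Real.exp_nat_mul, mul_one]

lemma geom_low {X : ℝ} (hX : 2 ≤ X) (L : ℕ) : ∑ k ∈ Finset.range L, X ^ k ≤ X ^ L := by
  induction L with
  | zero => simp
  | succ L ih =>
    rw [Finset.sum_range_succ, pow_succ]
    have : 0 < X ^ L := by positivity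
    nlinarith

lemma geom_high {Y : ℝ} (h0 : 0 ≤ Y) (h1 : Y ≤ 1 / 2) (J : ℕ) :
    ∑ k ∈ Finset.range J, Y ^ k ≤ 2 - 2 * Y ^ J := by
  induction J with
  | zero => norm_num
  | succ J ih =>
    rw [Finset.sum_range_succ, pow_succ]
    have : 0 ≤ Y ^ J := by positivity
    nlinarith

/-- The arithmetic at the end of the small case. -/
lemma final_arith {X Y ε : ℝ} {L : ℕ} (hX : 2 ≤ X) (hY0 : 0 ≤ Y) (hY : Y * X ^ 7 ≤ 1) (hε : 0 < ε)
    (hε0 : ε * (16 * X ^ 8) ≤ 1) (h1 : (X ^ 4) ^ L ≤ 1 / ε) (h2 : 1 / ε < (X ^ 4) ^ (L + 1)) :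
    ε * X ^ L + 2 * Y ^ L ≤ √ε := by
  set P := X ^ L with hP
  have hX0 : 0 < X := by linarith
  have hP1 : 1 ≤ P := one_le_pow₀ (by linarith)
  have e1 : (X ^ 4) ^ L = P ^ 4 := by rw [hP, ← pow_mul, ← pow_mul, mul_comm]
  have e2 : (X ^ 4) ^ (L + 1) = X ^ 4 * P ^ 4 := by rw [pow_succ, e1]; ring
  rw [e1, le_div_iff₀ hε] at h1
  rw [e2, div_lt_iff₀ hε] at h2
  set s := √ε with hs
  have hs0 : 0 < s := Real.sqrt_pos.2 hε
  have hs2 : s ^ 2 = ε := Real.sq_sqrt hε.le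
  rw [← hs2] at h1 h2 hε0 ⊢
  have hX8 : 1 ≤ X ^ 8 := one_le_pow₀ (by linarith)
  have hs4 : s ≤ 1 / 4 := by
    by_contra hc
    rw [not_le] at hc
    have : 1 / 16 < s ^ 2 := by nlinarith
    nlinarith [mul_pos (sq_pos_of_pos hs0) (by positivity : (0 : ℝ) < X ^ 8)]
  have h3 : P ^ 2 * s ≤ 1 := by
    have : (P ^ 2 * s) ^ 2 ≤ 1 ^ 2 := by nlinarith
    exact le_of_sq_le_sq this zero_le_one
  have h4 : 1 < P ^ 2 * s * X ^ 2 := by
    have : 1 ^ 2 < (P ^ 2 * s * X ^ 2) ^ 2 := by nlinarith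
    exact lt_of_pow_lt_pow_left₀ 2 (by positivity) this
  have h5 : s ^ 2 * P ≤ s / 2 := by
    have h6 : (s ^ 2 * P) ^ 2 ≤ (s / 2) ^ 2 := by
      have h7 : (s ^ 2 * P) ^ 2 = s ^ 3 * (P ^ 2 * s) := by ring
      have h8 : s ^ 3 * (P ^ 2 * s) ≤ s ^ 3 * 1 := mul_le_mul_of_nonneg_left h3 (by positivity)
      rw [h7]
      nlinarith [mul_le_mul_of_nonneg_left hs4 (sq_nonneg s)]
    exact le_of_sq_le_sq h6 (by positivity)
  have h9 : 2 * Y ^ L ≤ s / 2 := by
    have hYP : Y ^ L * P ^ 7 ≤ 1 := by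
      have : Y ^ L * P ^ 7 = (Y * X ^ 7) ^ L := by
        rw [hP, mul_pow, ← pow_mul, ← pow_mul, mul_comm 7 L]
      rw [this]
      exact pow_le_one₀ (by positivity) hY
    have h10 : 4 ≤ s * P ^ 7 := by
      have h11 : 1 ≤ (P ^ 2 * s * X ^ 2) ^ 3 := one_le_pow₀ h4.le
      have h12 : (P ^ 2 * s * X ^ 2) ^ 3 = (s * P ^ 6) * (s ^ 2 * X ^ 6) := by ring
      have h13 : s ^ 2 * X ^ 6 ≤ 1 / 64 := by
        have h14 : X ^ 8 = X ^ 6 * X ^ 2 := by ring
        have h15 : 4 ≤ X ^ 2 := by nlinarith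
        have h16 : 0 ≤ s ^ 2 * X ^ 6 := by positivity
        nlinarith
      have h17 : 0 ≤ s * P ^ 6 := by positivity
      have h18 : 64 ≤ s * P ^ 6 := by nlinarith
      have h19 : s * P ^ 6 ≤ s * P ^ 7 :=
        mul_le_mul_of_nonneg_left (pow_le_pow_right₀ hP1 (by norm_num)) hs0.le
      linarith
    have h20 : 0 ≤ Y ^ L := by positivity
    have h21 : 4 * Y ^ L ≤ s * P ^ 7 * Y ^ L := mul_le_mul_of_nonneg_right h10 h20
    have h22 : s * P ^ 7 * Y ^ L ≤ s := by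
      have : s * P ^ 7 * Y ^ L = s * (Y ^ L * P ^ 7) := by ring
      rw [this]
      nlinarith
    linarith
  linarith

/-- The case of a small norm on the inner ball. -/
lemma small_case (hE : 0 < finrank ℝ E) {v : E → ℝ} {ρ d X Y ε : ℝ} (hρ0 : 0 < ρ) (hρ1 : ρ < 1)
    (hd0 : 0 < d) (hdρ : d ≤ ρ / 2) (hdρ' : 3 / 5 * d ≤ (1 - ρ) / 2)
    (hX : X = (finrank ℝ E + 1) * (12 / 5) * Real.exp 1)
    (hY : Y = (finrank ℝ E + 1) * (6 / 5 * d) / ((1 - ρ) / 2) * Real.exp 1) (hYX : Y * X ^ 7 ≤ 1)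
    (hε : 0 < ε) (hε0 : ε * (16 * X ^ 8) ≤ 1) (hv : ∀ x ∈ ball (0 : E) 1, HarmonicAt v x)
    (h1 : ∀ x ∈ ball (0 : E) 1, |v x| ≤ 1) (h2 : ∀ x ∈ ball (0 : E) ρ, |v x| ≤ ε) {x : E}
    (hx1 : ρ ≤ ‖x‖) (hx2 : ‖x‖ ≤ ρ + d / 5) : |v x| ≤ √ε := by
  set n : ℝ := (finrank ℝ E : ℝ) with hn
  have hn1 : 1 ≤ n := by rw [hn]; exact_mod_cast hE
  have he : 2 ≤ Real.exp 1 := by
    have := Real.add_one_le_exp (1 : ℝ)
    linarith
  have hX2 : 2 ≤ X := by rw [hX]; nlinarith
  have hX0 : 0 < X := by linarith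
  have hR1 : 0 < (1 - ρ) / 2 := by linarith
  have hY0 : 0 ≤ Y := by rw [hY]; positivity
  have hX7 : 2 ≤ X ^ 7 := by
    calc (2 : ℝ) ≤ X := hX2
      _ = X ^ 1 := (pow_one X).symm
      _ ≤ X ^ 7 := pow_le_pow_right₀ (by linarith) (by norm_num)
  have hY2 : Y ≤ 1 / 2 := by nlinarith
  have hX81 : 1 ≤ X ^ 8 := one_le_pow₀ (by linarith)
  have hX84 : X ^ 4 ≤ X ^ 8 := pow_le_pow_right₀ (by linarith) (by norm_num)
  have hε1 : 1 ≤ 1 / ε := by
    rw [le_div_iff₀ hε]
    nlinarith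
  obtain ⟨L, hL1, hL2⟩ := exists_nat_pow_near hε1
    (show 1 < X ^ 4 from one_lt_pow₀ (by linarith) (by norm_num))
  have hL0 : 0 < L := by
    rcases Nat.eq_zero_or_pos L with h | h
    · exfalso
      rw [h, zero_add, pow_one, div_lt_iff₀ hε] at hL2
      nlinarith
    · exact h
  have hL' : (1 : ℝ) ≤ L := by exact_mod_cast hL0
  set t := 6 / 5 * d with ht
  have ht0 : 0 < t := by positivity
  have hxpos : 0 < ‖x‖ := hρ0.trans_le hx1
  obtain ⟨ω, hω1, hxω⟩ : ∃ ω : E, ‖ω‖ = 1 ∧ x = ‖x‖ • ω := by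
    refine ⟨(1 / ‖x‖) • x, ?_, ?_⟩
    · rw [norm_smul, norm_div, norm_one, norm_norm]
      field_simp
    · rw [smul_smul]
      have : ‖x‖ * (1 / ‖x‖) = 1 := by field_simp
      rw [this, one_smul]
  set m := 3 * L with hm
  have hm0 : 0 < m := by omega
  have hm' : (m : ℝ) = 3 * L := by rw [hm]; push_cast; ring
  have hmpos : (0 : ℝ) < m := by exact_mod_cast hm0
  set g : E := (t / m) • ω with hg
  have hgn : ‖g‖ = t / m := by
    rw [hg, norm_smul, hω1, mul_one, Real.norm_of_nonneg (by positivity)]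
  set y : E := (‖x‖ - t) • ω with hy
  have hyx : y + m • g = x := by
    rw [hy, hg, ← Nat.cast_smul_eq_nsmul ℝ, smul_smul, ← add_smul]
    have : ‖x‖ - t + m * (t / m) = ‖x‖ := by field_simp; ring
    rw [this, ← hxω]
  have hcen : ∀ k : ℕ, k ≤ m → y + ((k : ℝ) / 2) • g = (‖x‖ - t + k * t / (2 * m)) • ω := by
    intro k _
    rw [hy, hg, smul_smul, ← add_smul]
    congr 1
    field_simp
  have hcn : ∀ k : ℕ, k ≤ m → ‖y + ((k : ℝ) / 2) • g‖ = ‖x‖ - t + k * t / (2 * m) := by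
    intro k hk
    rw [hcen k hk, norm_smul, hω1, mul_one, Real.norm_of_nonneg]
    have : 0 ≤ (k : ℝ) * t / (2 * m) := by positivity
    linarith
  have hsub : ∀ (c : E) (R s : ℝ), ‖c‖ + R < s → ∀ z ∈ closedBall c R, z ∈ ball (0 : E) s := by
    intro c R s hcs z hz
    rw [mem_closedBall, dist_eq_norm] at hz
    rw [mem_ball_zero_iff]
    have : ‖z‖ ≤ ‖z - c‖ + ‖c‖ := by
      have := norm_add_le (z - c) c
      simpa using this
    linarith
  have hρs : ball (0 : E) ρ ⊆ ball (0 : E) 1 := ball_subset_ball hρ1.le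
  -- the terms with `k < L`
  have hlow : ∀ k, k < L → |(m.choose k) • (fwdDiff g)^[k] v y| ≤ ε * X ^ k := by
    intro k hk
    have hk' : (k : ℝ) ≤ L := by exact_mod_cast hk.le
    have hkm : k ≤ m := by omega
    have hkt : (k : ℝ) * t / (2 * m) ≤ d / 5 := by
      rw [div_le_iff₀ (by positivity), hm', ht]
      nlinarith
    have hball : ∀ z ∈ closedBall (y + ((k : ℝ) / 2) • g) (d / 2), z ∈ ball (0 : E) ρ := by
      apply hsub
      rw [hcn k hkm, ht]
      rw [ht] at hkt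
      linarith
    rcases Nat.eq_zero_or_pos k with rfl | hk0
    · have h3 : y ∈ ball (0 : E) ρ := by
        apply hball
        simp only [Nat.cast_zero, zero_div, zero_smul, add_zero]
        exact mem_closedBall_self (by positivity)
      simpa using h2 y h3
    · have hk0' : (0 : ℝ) < k := by exact_mod_cast hk0
      have h3 := (iter_bound hE (u := v) (c := y + ((k : ℝ) / 2) • g) (g := g)
        (a := d / (2 * k)) (R := d / 2) (M := ε) (by positivity)
        (fun z hz => hv z (hρs (hball z hz))) (fun z hz => h2 z (hball z hz))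
        (by
          rw [hgn, hm', ht, div_div, div_le_div_iff₀ (by positivity) (by positivity)]
          nlinarith) k y (by
          rw [sub_self, norm_zero]
          have : (k : ℝ) * (d / (2 * k)) = d / 2 := by field_simp
          rw [this, sub_self])).2
      have h4 : (n + 1) * ‖g‖ / (d / (2 * k)) = (n + 1) * (12 / 5) * (k / m) := by
        rw [hgn, ht]
        field_simp
        ring
      rw [← hn, h4] at h3
      have h5 := choose_bound m k hm0 (s := (n + 1) * (12 / 5)) (by positivity)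
      rw [← hX] at h5
      rw [nsmul_eq_mul, abs_mul, abs_of_nonneg (Nat.cast_nonneg _)]
      calc (m.choose k : ℝ) * |(fwdDiff g)^[k] v y|
          ≤ (m.choose k : ℝ) * (ε * ((n + 1) * (12 / 5) * (k / m)) ^ k) :=
            mul_le_mul_of_nonneg_left h3 (Nat.cast_nonneg _)
        _ = ε * ((m.choose k : ℝ) * ((n + 1) * (12 / 5) * (k / m)) ^ k) := by ring
        _ ≤ ε * X ^ k := mul_le_mul_of_nonneg_left h5 hε.le
  -- the terms with `L ≤ k`
  have hhigh : ∀ k, L ≤ k → k ≤ m → |(m.choose k) • (fwdDiff g)^[k] v y| ≤ Y ^ k := by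
    intro k hk hkm
    have hk0 : 0 < k := by omega
    have hk0' : (0 : ℝ) < k := by exact_mod_cast hk0
    have hkm' : (k : ℝ) ≤ m := by exact_mod_cast hkm
    have hkt : (k : ℝ) * t / (2 * m) ≤ 3 / 5 * d := by
      rw [div_le_iff₀ (by positivity), ht]
      nlinarith
    have hball : ∀ z ∈ closedBall (y + ((k : ℝ) / 2) • g) ((1 - ρ) / 2), z ∈ ball (0 : E) 1 := by
      apply hsub
      rw [hcn k hkm, ht]
      rw [ht] at hkt
      linarith
    have h3 := (iter_bound hE (u := v) (c := y + ((k : ℝ) / 2) • g) (g := g)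
      (a := (1 - ρ) / 2 / k) (R := (1 - ρ) / 2) (M := 1) (by positivity)
      (fun z hz => hv z (hball z hz)) (fun z hz => h1 z (hball z hz))
      (by
        rw [hgn, ht, div_div, div_le_div_iff₀ (by positivity) (by positivity)]
        nlinarith) k y (by
        rw [sub_self, norm_zero]
        have : (k : ℝ) * ((1 - ρ) / 2 / k) = (1 - ρ) / 2 := by field_simp
        rw [this, sub_self])).2
    have h4 : (n + 1) * ‖g‖ / ((1 - ρ) / 2 / k) = (n + 1) * t / ((1 - ρ) / 2) * (k / m) := by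
      rw [hgn]
      field_simp
    rw [← hn, h4, one_mul] at h3
    have h5 := choose_bound m k hm0 (s := (n + 1) * t / ((1 - ρ) / 2)) (by positivity)
    rw [← hY] at h5
    rw [nsmul_eq_mul, abs_mul, abs_of_nonneg (Nat.cast_nonneg _)]
    exact (mul_le_mul_of_nonneg_left h3 (Nat.cast_nonneg _)).trans h5
  have hsum : |v x| ≤ ∑ k ∈ Finset.range (m + 1), |(m.choose k) • (fwdDiff g)^[k] v y| := by
    have h3 := shift_eq_sum_fwdDiff_iter (h := g) v m y
    rw [hyx] at h3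
    rw [h3]
    exact Finset.abs_sum_le_sum_abs _ _
  have hsplit : ∑ k ∈ Finset.range (m + 1), |(m.choose k) • (fwdDiff g)^[k] v y|
      = ∑ k ∈ Finset.range L, |(m.choose k) • (fwdDiff g)^[k] v y|
        + ∑ k ∈ Finset.range (m + 1 - L), |(m.choose (L + k)) • (fwdDiff g)^[L + k] v y| := by
    rw [← Finset.sum_range_add_sum_Ico _ (show L ≤ m + 1 by omega), Finset.sum_Ico_eq_sum_range]
  have hA : ∑ k ∈ Finset.range L, |(m.choose k) • (fwdDiff g)^[k] v y| ≤ ε * X ^ L := by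
    calc _ ≤ ∑ k ∈ Finset.range L, ε * X ^ k :=
          Finset.sum_le_sum fun k hk => hlow k (Finset.mem_range.1 hk)
      _ = ε * ∑ k ∈ Finset.range L, X ^ k := by rw [Finset.mul_sum]
      _ ≤ ε * X ^ L := mul_le_mul_of_nonneg_left (geom_low hX2 L) hε.le
  have hB : ∑ k ∈ Finset.range (m + 1 - L), |(m.choose (L + k)) • (fwdDiff g)^[L + k] v y|
      ≤ 2 * Y ^ L := by
    calc _ ≤ ∑ k ∈ Finset.range (m + 1 - L), Y ^ L * Y ^ k := by
          refine Finset.sum_le_sum fun k hk => ?_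
          rw [← pow_add]
          have := Finset.mem_range.1 hk
          exact hhigh (L + k) (by omega) (by omega)
      _ = Y ^ L * ∑ k ∈ Finset.range (m + 1 - L), Y ^ k := by rw [Finset.mul_sum]
      _ ≤ Y ^ L * 2 := by
          refine mul_le_mul_of_nonneg_left ?_ (by positivity)
          have h3 := geom_high hY0 hY2 (m + 1 - L)
          have : 0 ≤ Y ^ (m + 1 - L) := by positivity
          linarith
      _ = 2 * Y ^ L := by ring
  have hfin := final_arith hX2 hY0 hYX hε hε0 hL1 hL2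
  rw [hsplit] at hsum
  linarith

end ThreeBallsHD
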