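import Mathlib
import Pool.Agent.Lib.MP_e54599_an.Near
import Pool.Agent.Lib.MP_e54599_an.Barrier

/-!
If `u` is harmonic and bounded by `1` on the unit ball and by `ε` on the ball of radius `ρ`, then
`|u| ≤ √ε` on the ball of radius `ρ + ρ (1 - ρ) / (5 * 10 ^ 8 * n ^ 8)`, in dimension `n ≥ 2`.
-/

open InnerProductSpace Laplacian Topology Metric Module

namespace ThreeBallsHD

variable {E : Type*} [NormedAddCommGroup E] [InnerProductSpace ℝ E] [FiniteDimensional ℝ E]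

/-- The explicit choice of the radius for the barrier. -/
lemma radius_ok {n ρ η X : ℝ} (hn : 1 ≤ n) (hρ0 : 0 < ρ) (hρ1 : ρ < 1) (hη0 : 0 < η)
    (hX : 0 < X) (hη : η * (8 * n * (4 * X ^ 4 + 1)) ≤ ρ * (1 - ρ)) :
    1 / (1 + 1 / (4 * X ^ 4)) * (Real.exp (-(2 * n / ρ ^ 2) * (ρ - η) ^ 2)
        - Real.exp (-(2 * n / ρ ^ 2) * ((1 + ρ) / 2) ^ 2))
      ≤ Real.exp (-(2 * n / ρ ^ 2) * (ρ + η) ^ 2)
        - Real.exp (-(2 * n / ρ ^ 2) * ((1 + ρ) / 2) ^ 2) := by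
  have hn0 : 0 < n := by linarith
  have hX4 : 0 < X ^ 4 := by positivity
  set Ea := Real.exp (-(2 * n / ρ ^ 2) * (ρ - η) ^ 2) with hEa
  have hEa0 : 0 < Ea := Real.exp_pos _
  have h1 : Real.exp (-(2 * n / ρ ^ 2) * (ρ + η) ^ 2) = Ea * Real.exp (-(8 * n * η / ρ)) := by
    rw [hEa, ← Real.exp_add]; congr 1; field_simp; ring
  have h2 : 1 - 8 * n * η / ρ ≤ Real.exp (-(8 * n * η / ρ)) := by
    have := Real.add_one_le_exp (-(8 * n * η / ρ))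
    linarith
  -- the outer exponential
  have hηρ : η ≤ ρ := by
    have h3 : 1 ≤ 8 * n * (4 * X ^ 4 + 1) := by nlinarith [mul_pos hn0 hX4]
    have h4 : η * 1 ≤ η * (8 * n * (4 * X ^ 4 + 1)) := mul_le_mul_of_nonneg_left h3 hη0.le
    nlinarith
  have h5 : Real.exp (-(2 * n / ρ ^ 2) * ((1 + ρ) / 2) ^ 2)
      ≤ Ea * Real.exp (-(2 * n * (1 - ρ) / ρ)) := by
    rw [hEa, ← Real.exp_add]
    apply Real.exp_le_exp.2
    have h6 : (ρ - η) ^ 2 + ρ * (1 - ρ) ≤ ((1 + ρ) / 2) ^ 2 := by nlinarith [sq_nonneg (1 - ρ)]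
    have h7 : -(2 * n / ρ ^ 2) * (ρ - η) ^ 2 + -(2 * n * (1 - ρ) / ρ)
        = -(2 * n / ρ ^ 2) * ((ρ - η) ^ 2 + ρ * (1 - ρ)) := by
      field_simp
      ring
    rw [h7]
    have h8 : 0 < 2 * n / ρ ^ 2 := by positivity
    nlinarith
  have h9 : Real.exp (-(2 * n * (1 - ρ) / ρ)) ≤ ρ := by
    set y := 2 * n * (1 - ρ) / ρ with hy
    have hy0 : 0 < y := by rw [hy]; apply div_pos _ hρ0; nlinarith
    have h10 : 1 + y ≤ Real.exp y := by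
      have := Real.add_one_le_exp y
      linarith
    rw [Real.exp_neg]
    have h11 : 1 ≤ ρ * (1 + y) := by
      have h12 : ρ * (1 + y) = ρ + 2 * n * (1 - ρ) := by rw [hy]; field_simp
      rw [h12]
      nlinarith
    have h13 : 1 ≤ ρ * Real.exp y := by nlinarith
    rw [inv_le_iff_one_le_mul₀ (Real.exp_pos y)]
    exact h13
  set Eb := Real.exp (-(2 * n / ρ ^ 2) * ((1 + ρ) / 2) ^ 2) with hEb
  have h14 : Eb ≤ Ea * ρ := h5.trans (mul_le_mul_of_nonneg_left h9 hEa0.le)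
  rw [h1]
  have hk : 1 / (1 + 1 / (4 * X ^ 4)) = 4 * X ^ 4 / (4 * X ^ 4 + 1) := by
    field_simp
  rw [hk, div_mul_eq_mul_div, div_le_iff₀ (by positivity)]
  have h15 : 8 * n * η / ρ * (4 * X ^ 4 + 1) ≤ 1 - ρ := by
    rw [div_mul_eq_mul_div, div_le_iff₀ hρ0]
    nlinarith
  have h16 : Ea * (1 - 8 * n * η / ρ) ≤ Ea * Real.exp (-(8 * n * η / ρ)) :=
    mul_le_mul_of_nonneg_left h2 hEa0.le
  have h17 : Ea * (8 * n * η / ρ * (4 * X ^ 4 + 1)) ≤ Ea * (1 - ρ) :=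
    mul_le_mul_of_nonneg_left h15 hEa0.le
  have h18 : (Ea * (1 - 8 * n * η / ρ) - Eb) * (4 * X ^ 4 + 1)
      ≤ (Ea * Real.exp (-(8 * n * η / ρ)) - Eb) * (4 * X ^ 4 + 1) :=
    mul_le_mul_of_nonneg_right (by linarith) (by positivity)
  nlinarith

lemma const_X {n X : ℝ} (hn : 2 ≤ n) (hX : X = (n + 1) * (12 / 5) * Real.exp 1) :
    14 ≤ X ∧ X ≤ 10 * n ∧ 4 * n ≤ X := by
  have he3 : Real.exp 1 < 2.7182818286 := Real.exp_one_lt_d9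
  have he2 : 2.7182818283 < Real.exp 1 := Real.exp_one_gt_d9
  have h0 : 0 < (n + 1) * (12 / 5) := by linarith
  have h1 : X ≤ (n + 1) * (12 / 5) * 2.7182818286 := by
    rw [hX]; exact mul_le_mul_of_nonneg_left he3.le h0.le
  have h2 : (n + 1) * (12 / 5) * 2.7182818283 ≤ X := by
    rw [hX]; exact mul_le_mul_of_nonneg_left he2.le h0.le
  refine ⟨by linarith, by linarith, by linarith⟩

lemma const_big {n X : ℝ} (_hn : 0 ≤ n) (hX : 14 ≤ X) (hXn : 4 * n ≤ X) :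
    8 * n * (4 * X ^ 4 + 1) ≤ 5 * X ^ 8 := by
  have hX0 : 0 < X := by linarith
  have hX41 : 1 ≤ X ^ 4 := one_le_pow₀ (by linarith)
  have h3 : 8 * n * (4 * X ^ 4 + 1) ≤ (X * 2) * (5 * X ^ 4) :=
    mul_le_mul (by linarith) (by linarith) (by positivity) (by positivity)
  have h5 : (X * 2) * (5 * X ^ 4) = 10 * X ^ 5 := by ring
  have h6 : 5 * X ^ 8 = 5 * X ^ 3 * X ^ 5 := by ring
  have h7 : 2 ≤ X ^ 3 := by
    calc (2 : ℝ) ≤ X ^ 1 := by rw [pow_one]; linarith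
      _ ≤ X ^ 3 := pow_le_pow_right₀ (by linarith) (by norm_num)
  have h8 : 10 * X ^ 5 ≤ 5 * X ^ 3 * X ^ 5 :=
    mul_le_mul_of_nonneg_right (by linarith) (by positivity)
  linarith

lemma const_Y {n ρ d X : ℝ} (hρ0 : 0 < ρ) (hρ1 : ρ < 1)
    (hX : X = (n + 1) * (12 / 5) * Real.exp 1) (hdX : d * X ^ 8 = ρ * (1 - ρ)) :
    (n + 1) * (6 / 5 * d) / ((1 - ρ) / 2) * Real.exp 1 * X ^ 7 ≤ 1 := by
  have hR0 : 0 < (1 - ρ) / 2 := by linarith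
  have h1 : (n + 1) * (6 / 5 * d) / ((1 - ρ) / 2) * Real.exp 1 * X ^ 7 = ρ := by
    have h2 : (n + 1) * (6 / 5 * d) / ((1 - ρ) / 2) * Real.exp 1 * X ^ 7
        = d * ((n + 1) * (12 / 5) * Real.exp 1) * X ^ 7 / (1 - ρ) := by
      have : (1 - ρ) ≠ 0 := by linarith
      field_simp
      ring
    rw [h2, ← hX]
    have h3 : d * X * X ^ 7 = ρ * (1 - ρ) := by rw [← hdX]; ring
    rw [h3]
    have : (1 - ρ) ≠ 0 := by linarith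
    field_simp
  rw [h1]
  exact hρ1.le

lemma const_d {ρ d X : ℝ} (hρ0 : 0 < ρ) (hρ1 : ρ < 1) (hX : 14 ≤ X) (hd0 : 0 < d)
    (hdX : d * X ^ 8 = ρ * (1 - ρ)) : d ≤ ρ / 2 ∧ d ≤ (1 - ρ) / 2 := by
  have h1 : 10 ≤ X ^ 8 := by
    calc (10 : ℝ) ≤ X ^ 1 := by rw [pow_one]; linarith
      _ ≤ X ^ 8 := pow_le_pow_right₀ (by linarith) (by norm_num)
  have h2 : d * 10 ≤ d * X ^ 8 := mul_le_mul_of_nonneg_left h1 hd0.le
  have h3 : ρ * (1 - ρ) ≤ ρ * 1 := mul_le_mul_of_nonneg_left (by linarith) hρ0.le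
  have h4 : ρ * (1 - ρ) ≤ 1 * (1 - ρ) := mul_le_mul_of_nonneg_right hρ1.le (by linarith)
  constructor <;> linarith

lemma const_eta {n ρ d X : ℝ} (_hn : 2 ≤ n) (hρρ : 0 < ρ * (1 - ρ)) (hX0 : 0 < X)
    (hXn : X ≤ 10 * n) (hdX : d * X ^ 8 = ρ * (1 - ρ)) :
    ρ * (1 - ρ) / (5 * 10 ^ 8 * n ^ 8) ≤ d / 5 := by
  have h3 : X ^ 8 ≤ (10 * n) ^ 8 := pow_le_pow_left₀ hX0.le hXn 8
  have hX8 : 0 < X ^ 8 := by positivity
  have hd : d = ρ * (1 - ρ) / X ^ 8 := by rw [← hdX]; field_simp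
  have h4 : (10 * n) ^ 8 = 10 ^ 8 * n ^ 8 := by ring
  rw [h4] at h3
  rw [hd, div_div]
  exact div_le_div_of_nonneg_left hρρ.le (by positivity) (by linarith)

lemma last_step {s t : ℝ} (ht : 0 < t) (hts : t ≤ s) (hs1 : s ≤ 1) :
    1 - s ≤ (1 - s ^ 2) * (1 / (1 + t)) := by
  rw [mul_one_div, le_div_iff₀ (by linarith)]
  nlinarith [mul_nonneg (sub_nonneg.2 hs1) (sub_nonneg.2 hts)]

lemma sqrt_eps {X : ℝ} (hX : 0 < X) : √(1 / (16 * X ^ 8)) = 1 / (4 * X ^ 4) := by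
  have : 1 / (16 * X ^ 8) = (1 / (4 * X ^ 4)) ^ 2 := by field_simp; ring
  rw [this, Real.sqrt_sq (by positivity)]

lemma exp_diff_pos {a b c : ℝ} (ha : 0 < a) (hab : a < b) (hc : 0 < c) :
    0 < Real.exp (-c * a ^ 2) - Real.exp (-c * b ^ 2) := by
  rw [sub_pos]
  apply Real.exp_lt_exp.2
  have : a ^ 2 < b ^ 2 := pow_lt_pow_left₀ hab ha.le two_ne_zero
  nlinarith

lemma exp_anti {a b c : ℝ} (ha : 0 ≤ a) (hab : a ≤ b) (hc : 0 < c) :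
    Real.exp (-c * b ^ 2) ≤ Real.exp (-c * a ^ 2) := by
  apply Real.exp_le_exp.2
  have : a ^ 2 ≤ b ^ 2 := pow_le_pow_left₀ ha hab 2
  nlinarith

lemma const_c {n ρ η : ℝ} (hn : 0 < n) (hρ0 : 0 < ρ) (hη : η ≤ ρ / 2) :
    n ≤ 2 * (2 * n / ρ ^ 2) * (ρ - η) ^ 2 := by
  have h3 : (ρ / 2) ^ 2 ≤ (ρ - η) ^ 2 := pow_le_pow_left₀ (by linarith) (by linarith) 2
  have h4 : 2 * (2 * n / ρ ^ 2) * (ρ / 2) ^ 2 = n := by
    field_simp
  calc n = 2 * (2 * n / ρ ^ 2) * (ρ / 2) ^ 2 := h4.symm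
    _ ≤ 2 * (2 * n / ρ ^ 2) * (ρ - η) ^ 2 := mul_le_mul_of_nonneg_left h3 (by positivity)

/-- The case of a large norm on the inner ball. -/
lemma large_case (hE : 0 < finrank ℝ E) {ρ η t ε : ℝ} (hρ0 : 0 < ρ) (hρ1 : ρ < 1) (hη0 : 0 < η)
    (hη2 : η ≤ ρ / 2) (hη3 : ρ + η ≤ (1 + ρ) / 2) (ht : 0 < t)
    (hκ : 1 / (1 + t) * (Real.exp (-(2 * (finrank ℝ E : ℝ) / ρ ^ 2) * (ρ - η) ^ 2)
        - Real.exp (-(2 * (finrank ℝ E : ℝ) / ρ ^ 2) * ((1 + ρ) / 2) ^ 2))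
      ≤ Real.exp (-(2 * (finrank ℝ E : ℝ) / ρ ^ 2) * (ρ + η) ^ 2)
        - Real.exp (-(2 * (finrank ℝ E : ℝ) / ρ ^ 2) * ((1 + ρ) / 2) ^ 2))
    {v : E → ℝ} (hε0 : 0 < ε) (hε1 : ε ≤ 1) (hv : ∀ x ∈ ball (0 : E) 1, HarmonicAt v x)
    (h1 : ∀ x ∈ ball (0 : E) 1, |v x| ≤ 1) (h2 : ∀ x ∈ ball (0 : E) ρ, |v x| ≤ ε)
    (hcase : t ≤ √ε) {x : E} (hxρ : ρ ≤ ‖x‖) (hx : ‖x‖ ≤ ρ + η) : v x ≤ √ε := by
  have hn0 : (0 : ℝ) < finrank ℝ E := by exact_mod_cast hE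
  have hca := const_c hn0 hρ0 hη2
  have hc0 : 0 < 2 * (finrank ℝ E : ℝ) / ρ ^ 2 := by positivity
  generalize 2 * (finrank ℝ E : ℝ) / ρ ^ 2 = c at *
  have ha0 : 0 < ρ - η := by linarith
  have h5 := barrier hE ha0 (show ρ - η < (1 + ρ) / 2 by linarith) (by linarith) hca hv
    (fun y hy => (le_abs_self _).trans (h1 y hy))
    (fun y hy => (le_abs_self _).trans (h2 y (by rw [mem_ball_zero_iff, hy]; linarith)))
    hε1 (x := x) (by linarith) (by linarith)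
  have hD := exp_diff_pos ha0 (show ρ - η < (1 + ρ) / 2 by linarith) hc0
  have h6 : 1 / (1 + t) ≤ (Real.exp (-c * ‖x‖ ^ 2) - Real.exp (-c * ((1 + ρ) / 2) ^ 2))
      / (Real.exp (-c * (ρ - η) ^ 2) - Real.exp (-c * ((1 + ρ) / 2) ^ 2)) := by
    rw [le_div_iff₀ hD]
    refine hκ.trans ?_
    have h7 := exp_anti (norm_nonneg x) hx hc0
    linarith
  have h8 : v x ≤ 1 - (1 - ε) * (1 / (1 + t)) :=
    h5.trans (sub_le_sub_left (mul_le_mul_of_nonneg_left h6 (by linarith)) 1)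
  have hs2 : √ε ^ 2 = ε := Real.sq_sqrt hε0.le
  have hs1 : √ε ≤ 1 := le_of_sq_le_sq (by rw [hs2, one_pow]; exact hε1) zero_le_one
  have h9 := last_step ht hcase hs1
  rw [hs2] at h9
  linarith

theorem near_real (hE2 : 2 ≤ finrank ℝ E) {ρ : ℝ} (hρ0 : 0 < ρ) (hρ1 : ρ < 1) {v : E → ℝ}
    {ε : ℝ} (hε0 : 0 < ε) (hε1 : ε ≤ 1) (hv : ∀ x ∈ ball (0 : E) 1, HarmonicAt v x)
    (h1 : ∀ x ∈ ball (0 : E) 1, |v x| ≤ 1) (h2 : ∀ x ∈ ball (0 : E) ρ, |v x| ≤ ε) {x : E}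
    (hx' : ‖x‖ ≤ ρ + ρ * (1 - ρ) / (5 * 10 ^ 8 * (finrank ℝ E : ℝ) ^ 8)) : v x ≤ √ε := by
  have hE : 0 < finrank ℝ E := by omega
  have hn2 : (2 : ℝ) ≤ finrank ℝ E := by exact_mod_cast hE2
  have hρρ : 0 < ρ * (1 - ρ) := mul_pos hρ0 (by linarith)
  obtain ⟨X, hX⟩ : ∃ X : ℝ, X = ((finrank ℝ E : ℝ) + 1) * (12 / 5) * Real.exp 1 := ⟨_, rfl⟩
  obtain ⟨hX14, hXn, hnX⟩ := const_X hn2 hX
  have hX0 : 0 < X := by linarith
  have hX8 : 0 < X ^ 8 := by positivity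
  obtain ⟨d, hd⟩ : ∃ d : ℝ, d = ρ * (1 - ρ) / X ^ 8 := ⟨_, rfl⟩
  have hd0 : 0 < d := by rw [hd]; exact div_pos hρρ hX8
  have hdX : d * X ^ 8 = ρ * (1 - ρ) := by rw [hd]; exact div_mul_cancel₀ _ hX8.ne'
  obtain ⟨hd1, hd2⟩ := const_d hρ0 hρ1 hX14 hd0 hdX
  have hYX := const_Y hρ0 hρ1 hX hdX
  have hx : ‖x‖ ≤ ρ + d / 5 :=
    hx'.trans (by have := const_eta hn2 hρρ hX0 hXn hdX; linarith)
  have hbig := const_big (by linarith) hX14 hnX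
  have hηbig : d / 5 * (8 * (finrank ℝ E : ℝ) * (4 * X ^ 4 + 1)) ≤ ρ * (1 - ρ) := by
    calc d / 5 * (8 * (finrank ℝ E : ℝ) * (4 * X ^ 4 + 1)) ≤ d / 5 * (5 * X ^ 8) :=
          mul_le_mul_of_nonneg_left hbig (by linarith)
      _ = d * X ^ 8 := by ring
      _ = ρ * (1 - ρ) := hdX
  have hηκ := radius_ok (by linarith) hρ0 hρ1 (show 0 < d / 5 by linarith) hX0 hηbig
  have hsq : ε ≤ √ε := by
    rw [Real.le_sqrt' hε0, sq]
    exact mul_le_of_le_one_left hε0.le hε1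
  rcases lt_or_ge ‖x‖ ρ with hxρ | hxρ
  · exact ((le_abs_self _).trans (h2 x (by rwa [mem_ball_zero_iff]))).trans hsq
  rcases le_or_gt ε (1 / (16 * X ^ 8)) with hcase | hcase
  · refine (le_abs_self _).trans ?_
    refine small_case hE hρ0 hρ1 hd0 hd1 (by linarith) hX rfl hYX hε0 ?_ hv h1 h2 hxρ hx
    rw [le_div_iff₀ (by positivity)] at hcase
    exact hcase
  · refine large_case hE hρ0 hρ1 (show 0 < d / 5 by linarith) (by linarith) (by linarith)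
      (t := 1 / (4 * X ^ 4)) (by positivity) hηκ hε0 hε1 hv h1 h2 ?_ hxρ hx
    rw [← sqrt_eps hX0]
    exact Real.sqrt_le_sqrt hcase.le

/-- The complex-valued form. -/
theorem near_complex (hE2 : 2 ≤ finrank ℝ E) {ρ : ℝ} (hρ0 : 0 < ρ) (hρ1 : ρ < 1) {u : E → ℂ}
    {ε : ℝ} (hε0 : 0 < ε) (hε1 : ε ≤ 1) (hu : ∀ x ∈ ball (0 : E) 1, HarmonicAt u x)
    (hu1 : ∀ x ∈ ball (0 : E) 1, ‖u x‖ ≤ 1) (huρ : ∀ x ∈ ball (0 : E) ρ, ‖u x‖ ≤ ε) {x : E}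
    (hx : ‖x‖ ≤ ρ + ρ * (1 - ρ) / (5 * 10 ^ 8 * (finrank ℝ E : ℝ) ^ 8)) : ‖u x‖ ≤ √ε := by
  rcases eq_or_ne (u x) 0 with h0 | h0
  · rw [h0, norm_zero]
    exact Real.sqrt_nonneg _
  have hn : 0 < ‖u x‖ := norm_pos_iff.2 h0
  set c : ℂ := (starRingEnd ℂ) (u x) / ‖u x‖ with hc
  have hcn : ‖c‖ = 1 := by
    rw [hc, norm_div, RCLike.norm_conj, Complex.norm_real, norm_norm, div_self hn.ne']
  set l : ℂ →L[ℝ] ℝ := Complex.reCLM.comp (ContinuousLinearMap.mul ℝ ℂ c) with hl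
  have hle : ∀ z : ℂ, |l z| ≤ ‖z‖ := by
    intro z
    have : l z = (c * z).re := rfl
    rw [this]
    refine (Complex.abs_re_le_norm _).trans ?_
    rw [norm_mul, hcn, one_mul]
  have h4 := near_real hE2 hρ0 hρ1 (v := l ∘ u) hε0 hε1 (fun y hy => (hu y hy).comp_CLM l)
    (fun y hy => (hle (u y)).trans (hu1 y hy)) (fun y hy => (hle (u y)).trans (huρ y hy)) hx
  have h5 : (l ∘ u) x = ‖u x‖ := by
    have h6 : (l ∘ u) x = (c * u x).re := rfl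
    have h7 : c * u x = ((‖u x‖ : ℝ) : ℂ) := by
      rw [hc, div_mul_eq_mul_div, mul_comm, Complex.mul_conj, Complex.normSq_eq_norm_sq]
      rw [div_eq_iff (by exact_mod_cast hn.ne')]
      push_cast
      ring
    rw [h6, h7, Complex.ofReal_re]
  rw [h5] at h4
  exact h4

end ThreeBallsHD
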